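import Pool.Agent.L5helper74.UC.Loc

/-!
# Unique continuation for the eigenfunctions of a connected surface
-/

set_option autoImplicit false
set_option linter.unusedSectionVars false
set_option synthInstance.maxHeartbeats 400000

open Set Filter Topology MeasureTheory
open scoped ContDiff ENNReal ComplexConjugate
open Pool.Agent.Y262.QE Pool.Agent.Y264.QR Pool.Agent.Q233.GLV Pool.Agent.Q233

noncomputable section

namespace Pool.Agent.L5helper74.UC

open Pool.Agent.Q73.NL (db)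

lemma Wk.mono {O O' : Set ℂ} {F G : ℂ → ℂ} (h : Wk O F G) (hO : O' ⊆ O) : Wk O' F G :=
  fun η h1 h2 h3 => h η h1 h2 (h3.trans hO)

/-- the gradient vanishes where the function vanishes -/
lemma grad_zero {U : ℂ → ℝ} {F₂ G₂ : ℂ → ℂ} {c₀ : ℂ} {R K : ℝ} (hS : Sys U F₂ G₂ c₀ R K)
    {c : ℂ} {s : ℝ} (hcs : Metric.ball c s ⊆ Metric.ball c₀ R)
    (h0 : ∀ᵐ z, ‖z - c‖ < s → U z = 0) : ∀ᵐ z, ‖z - c‖ < s → F₂ z = 0 := by
  have hW := hS.W₁.mono hcs
  have hfin : IsFiniteMeasure (volume.restrict (Metric.ball c₀ R)) :=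
    ⟨by rw [Measure.restrict_apply_univ]; exact measure_ball_lt_top⟩
  have h1 : IntegrableOn (fun z => conj (F₂ z)) (Metric.ball c s) := by
    have h2 : Integrable F₂ (volume.restrict (Metric.ball c₀ R)) := hS.mF.integrable one_le_two
    have h3 : IntegrableOn F₂ (Metric.ball c s) := h2.mono_measure (Measure.restrict_mono hcs le_rfl)
    exact (Complex.conjCLE : ℂ →L[ℝ] ℂ).integrable_comp h3
  have h2 := Metric.isOpen_ball.ae_eq_zero_of_integral_contDiff_smul_eq_zero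
    (f := fun z => conj (F₂ z)) (U := Metric.ball c s) (μ := volume)
    (by
      rw [locallyIntegrableOn_iff Metric.isOpen_ball.isLocallyClosed]
      intro k hk _
      exact h1.mono_set hk) (fun g hg hgc hgs => by
      have h3 := hW (fun z => (g z : ℂ)) (Complex.ofRealCLM.contDiff.comp hg)
        (hgc.comp_left Complex.ofReal_zero) ((closure_mono fun z hz => by
          rw [Function.mem_support] at hz ⊢
          intro h0
          apply hz
          simp only [h0, Complex.ofReal_zero]).trans hgs)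
      have h4 : ∫ z, (U z : ℂ) * db (fun z => (g z : ℂ)) z = 0 := by
        refine integral_eq_zero_of_ae ?_
        filter_upwards [h0] with z hz
        rcases lt_or_ge ‖z - c‖ s with h5 | h5
        · rw [hz h5]
          simp
        · have h6 : z ∉ tsupport g := fun h => by
            have := hgs h
            rw [mem_ball_iff_norm] at this
            linarith
          have h7 : fderiv ℝ g z = 0 := by
            by_contra hne
            exact h6 (support_fderiv_subset ℝ hne)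
          rw [db_real hg, h7]
          simp
      rw [h4] at h3
      have h5 : ∫ z, conj (F₂ z) * (g z : ℂ) = 0 := by
        have := h3.symm
        rwa [neg_eq_zero] at this
      rw [← h5]
      refine integral_congr_ae (Eventually.of_forall fun z => ?_)
      simp only [Complex.real_smul]
      ring)
  filter_upwards [h2] with z hz h3
  have h4 := hz (by rwa [mem_ball_iff_norm])
  simpa using h4

/-- unique continuation in small discs, with a radius which depends only on the system -/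
lemma disc {U : ℂ → ℝ} {F₂ G₂ : ℂ → ℂ} {c₀ : ℂ} {R K : ℝ} (hR : 0 < R)
    (hS : Sys U F₂ G₂ c₀ R K) : ∃ r : ℝ, 0 < r ∧ r ≤ R / 4 ∧ ∀ c : ℂ, ‖c - c₀‖ < r →
      ∀ s : ℝ, 0 < s → (∀ᵐ z, ‖z - c‖ < s → U z = 0) → ∀ᵐ z, ‖z - c‖ < r → U z = 0 := by
  obtain ⟨K', hK'⟩ : ∃ K' : ℝ, K' = max 1 K := ⟨_, rfl⟩
  have hK1 : 1 ≤ K' := by rw [hK']; exact le_max_left _ _
  have hKK : K ≤ K' := by rw [hK']; exact le_max_right _ _
  refine ⟨min (R / 4) (1 / (24 * K')), lt_min (by positivity) (by positivity), min_le_left _ _,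
    fun c hc s hs h0 => ?_⟩
  obtain ⟨r, hr⟩ : ∃ r : ℝ, r = min (R / 4) (1 / (24 * K')) := ⟨_, rfl⟩
  rw [← hr] at hc ⊢
  have hr0 : 0 < r := by
    rw [hr]
    exact lt_min (by positivity) (by positivity)
  have hr1 : r ≤ R / 4 := by rw [hr]; exact min_le_left _ _
  have hr2 : r ≤ 1 / (24 * K') := by rw [hr]; exact min_le_right _ _
  have hsm : 576 * r ^ 2 * K' ^ 2 ≤ 1 := by
    have h1 : 24 * K' * r ≤ 1 := by
      have := mul_le_mul_of_nonneg_left hr2 (show 0 ≤ 24 * K' by positivity)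
      rwa [mul_one_div_cancel (by positivity)] at this
    have h2 : (24 * K' * r) ^ 2 ≤ 1 := pow_le_one₀ (by positivity) h1
    nlinarith
  have hsub : Metric.ball c (2 * r) ⊆ Metric.ball c₀ R := by
    refine Metric.ball_subset_ball' ?_
    rw [dist_eq_norm]
    linarith
  obtain ⟨s', hs'⟩ : ∃ s' : ℝ, s' = min s (2 * r) := ⟨_, rfl⟩
  have hs'0 : 0 < s' := by rw [hs']; exact lt_min hs (by positivity)
  have h1 : ∀ᵐ z, ‖z - c‖ < s' → U z = 0 := by
    filter_upwards [h0] with z hz h2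
    exact hz (h2.trans_le (by rw [hs']; exact min_le_left _ _))
  have h2 := grad_zero hS (c := c) (s := s')
    ((Metric.ball_subset_ball (by rw [hs']; exact min_le_right _ _)).trans hsub) h1
  have hm : volume.restrict (Metric.ball c (2 * r)) ≤ volume.restrict (Metric.ball c₀ R) :=
    Measure.restrict_mono hsub le_rfl
  have hcF : MemLp (fun z => conj (F₂ z)) 2 (volume.restrict (Metric.ball c₀ R)) := by
    refine hS.mF.of_le (Complex.continuous_conj.comp_aestronglyMeasurable hS.mF.1)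
      (Eventually.of_forall fun z => ?_)
    rw [RCLike.norm_conj]
  have hin : ∀ z, ‖z - c‖ < 2 * r → ‖z - c₀‖ < R := fun z hz => by
    have := hsub (show z ∈ Metric.ball c (2 * r) by rwa [mem_ball_iff_norm])
    rwa [mem_ball_iff_norm] at this
  have h3 := car hr0 hs'0 hK1 hsm (hS.mU.mono_measure hm) (hS.mF.mono_measure hm)
    (hcF.mono_measure hm) (hS.mG.mono_measure hm) (hS.W₁.mono hsub) (hS.W₂.mono hsub)
    (fun z _ => by
      rw [RCLike.norm_conj]
      have := norm_nonneg (F₂ z)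
      nlinarith)
    (fun z hz => by
      refine (hS.le z (hin z hz)).trans ?_
      rw [Complex.norm_real, Real.norm_eq_abs]
      exact mul_le_mul_of_nonneg_right hKK (abs_nonneg _))
    (h1.mono fun z hz h4 => by
      show (U z : ℂ) = 0
      rw [hz h4, Complex.ofReal_zero]) h2
  filter_upwards [h3] with z hz h4
  exact_mod_cast hz h4

variable {M : Type} [MetricSpace M] [CompactSpace M] [MeasurableSpace M] [BorelSpace M]
  {μ : Measure M} [IsFiniteMeasure μ] {D : Data M}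

/-- null sets in a chart -/
lemma tr (hD : D.IsSurf μ) {l : Fin D.N} {O : Set ℂ} (hO : IsOpen O) (hs : O ⊆ D.T l)
    {N : Set M} (hN : MeasurableSet N) :
    (∀ᵐ z, z ∈ O → D.ψ l z ∉ N) ↔ ∀ᵐ x ∂μ, x ∈ D.ψ l '' O → x ∉ N := by
  obtain ⟨h1, h2, h3⟩ := Pool.Agent.Y183.QR.Loc.meas_img hD l hO.measurableSet hs
  obtain ⟨B, hB⟩ : ∃ B : Set M, B = D.ψ l '' O ∩ N := ⟨_, rfl⟩
  have hBm : MeasurableSet B := by rw [hB]; exact h1.inter hN
  have hBU : B ⊆ D.U l := by rw [hB]; exact inter_subset_left.trans h2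
  have himg : D.φ l '' B = {z | z ∈ O ∧ D.ψ l z ∈ N} := by
    rw [hB]
    ext z
    constructor
    · rintro ⟨x, ⟨⟨w, hw, rfl⟩, hx⟩, rfl⟩
      rw [(Pool.Agent.Y183.QR.Loc.φψ hD (hs hw)).2]
      exact ⟨hw, hx⟩
    · rintro ⟨hz, hx⟩
      exact ⟨D.ψ l z, ⟨⟨z, hz, rfl⟩, hx⟩, (Pool.Agent.Y183.QR.Loc.φψ hD (hs hz)).2⟩
  have hA := hD.area l B hBU hBm
  have e1 : (∀ᵐ z, z ∈ O → D.ψ l z ∉ N) ↔ volume (D.φ l '' B) = 0 := by
    rw [ae_iff, himg]
    simp only [Classical.not_imp, not_not]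
  have e2 : (∀ᵐ x ∂μ, x ∈ D.ψ l '' O → x ∉ N) ↔ μ B = 0 := by
    rw [ae_iff, hB]
    simp only [Classical.not_imp, not_not]
    rfl
  rw [e1, e2, hA]
  have hsubT : D.φ l '' B ⊆ D.T l := by
    rw [himg]
    exact fun z hz => hs hz.1
  have hmeas : MeasurableSet (D.φ l '' B) := by
    have h4 : D.φ l '' B = O ∩ (D.ψ l) ⁻¹' N := himg
    have h5 : Measurable (O.domRestrict (D.ψ l)) :=
      (continuousOn_iff_continuous_domRestrict.1 ((hD.contψ l).mono hs)).measurable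
    have h6 : MeasurableSet (Subtype.val '' (O.domRestrict (D.ψ l) ⁻¹' N)) :=
      hO.measurableSet.subtype_image (h5 hN)
    have h7 : Subtype.val '' (O.domRestrict (D.ψ l) ⁻¹' N) = O ∩ (D.ψ l) ⁻¹' N := by
      ext z
      constructor
      · rintro ⟨w, hw, rfl⟩
        exact ⟨w.2, hw⟩
      · rintro ⟨hz, hw⟩
        exact ⟨⟨z, hz⟩, hw, rfl⟩
    rw [h4, ← h7]
    exact h6
  have hae : AEMeasurable (fun z => ENNReal.ofReal |(D.A l z).det|)
      (volume.restrict (D.φ l '' B)) :=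
    (((Pool.Agent.Y960.QE.contDet hD l).mono hsubT).aemeasurable hmeas).ennreal_ofReal
  constructor
  · intro h4
    rw [Measure.restrict_eq_zero.2 h4, lintegral_zero_measure]
  · intro h4
    rw [lintegral_eq_zero_iff' hae] at h4
    have h5 := (ae_restrict_iff' hmeas).1 h4
    have h6 : ∀ᵐ z, z ∉ D.φ l '' B := by
      filter_upwards [h5] with z hz h7
      have h8 := hz h7
      simp only [Pi.zero_apply, ENNReal.ofReal_eq_zero] at h8
      exact absurd h8 (not_le.2 (abs_pos.2 (hD.det l z (hsubT h7))))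
    rw [ae_iff] at h6
    simp only [not_not] at h6
    exact h6

lemma img_open (hD : D.IsSurf μ) {l : Fin D.N} {O : Set ℂ} (hO : IsOpen O) (hs : O ⊆ D.T l) :
    IsOpen (D.ψ l '' O) := by
  have h0 : D.ψ l '' O = D.U l ∩ D.φ l ⁻¹' O := by
    ext x
    constructor
    · rintro ⟨w, hw, rfl⟩
      obtain ⟨h1, h2⟩ := Pool.Agent.Y183.QR.Loc.φψ hD (hs hw)
      refine ⟨h1, ?_⟩
      rw [mem_preimage, h2]
      exact hw
    · rintro ⟨h1, h2⟩
      exact ⟨D.φ l x, h2, hD.left l x h1⟩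
  rw [h0]
  exact (hD.contφ l).isOpen_inter_preimage (hD.openU l) hO

/-- a disc in a chart -/
lemma disc_in (hD : D.IsSurf μ) (x : M) : ∃ (l : Fin D.N) (R : ℝ), 0 < R ∧ x ∈ D.U l ∧
    Metric.closedBall (D.φ l x) R ⊆ D.T l := by
  obtain ⟨l, hl⟩ := hD.cover x
  obtain ⟨ε, hε, h1⟩ := Metric.isOpen_iff.1 (hD.openT l) (D.φ l x) (mem_image_of_mem _ hl)
  exact ⟨l, ε / 2, by positivity, hl, (Metric.closedBall_subset_ball (by linarith)).trans h1⟩

/-- unique continuation -/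
theorem ucp [PreconnectedSpace M] (hD : D.IsSurf μ)
    (hiso : ∀ l, ∀ z ∈ D.T l, ∃ c : ℝ, ∀ v, ‖D.A l z v‖ = c * ‖v‖) {i : HF D μ →L[ℝ] Lp ℝ 2 μ}
    {a : HF D μ →L[ℝ] HF D μ →L[ℝ] ℝ}
    {b : C(M, ℝ) → HF D μ →L[ℝ] HF D μ →L[ℝ] ℝ} (hi : ∀ v, i v = v.1.fst)
    (ha : ∀ u v, a u v = inner ℝ u.1.snd v.1.snd) (hB : IsB μ i b) {φ : C(M, ℝ)} {v : HF D μ}
    {lam : ℝ} (hv : ∀ w, a v w = lam * b φ v w) {O : Set M} (hO : IsOpen O) (hne : O.Nonempty)
    (h0 : ∀ᵐ x ∂μ, x ∈ O → (i v : M → ℝ) x = 0) : (i v : M → ℝ) =ᵐ[μ] 0 := by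
  obtain ⟨N, hN⟩ : ∃ N : Set M, N = {x | (i v : M → ℝ) x ≠ 0} := ⟨_, rfl⟩
  have hNm : MeasurableSet N := by
    rw [hN]
    exact (Lp.stronglyMeasurable (i v)).measurable (measurableSet_singleton 0).compl
  have hNi : ∀ x, x ∉ N ↔ (i v : M → ℝ) x = 0 := fun x => by
    rw [hN]
    simp
  obtain ⟨Z, hZ⟩ : ∃ Z : Set M, Z = {x | ∃ O : Set M, IsOpen O ∧ x ∈ O ∧
    ∀ᵐ y ∂μ, y ∈ O → y ∉ N} := ⟨_, rfl⟩
  have hZo : IsOpen Z := by
    rw [isOpen_iff_forall_mem_open]
    intro x hx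
    rw [hZ] at hx
    obtain ⟨O, h1, h2, h3⟩ := hx
    refine ⟨O, fun y hy => ?_, h1, h2⟩
    rw [hZ]
    exact ⟨O, h1, hy, h3⟩
  have hZc : IsClosed Z := by
    rw [← isOpen_compl_iff, isOpen_iff_mem_nhds]
    intro x hx
    by_contra hcon
    apply hx
    obtain ⟨l, R, hR, hxU, hRT⟩ := disc_in hD x
    obtain ⟨F₂, G₂, K, hS⟩ := loc hD (hiso l) hRT hi ha hB hv
    obtain ⟨r, hr, hrR, hr2⟩ := disc hR hS
    have hbT : Metric.ball (D.φ l x) r ⊆ D.T l :=
      (Metric.ball_subset_closedBall.trans (Metric.closedBall_subset_closedBall (by linarith))).trans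
        hRT
    have hV : D.ψ l '' Metric.ball (D.φ l x) r ∈ 𝓝 x := by
      refine (img_open hD Metric.isOpen_ball hbT).mem_nhds ?_
      exact ⟨D.φ l x, Metric.mem_ball_self hr, hD.left l x hxU⟩
    obtain ⟨y, hyV, hyZ⟩ : ∃ y, y ∈ D.ψ l '' Metric.ball (D.φ l x) r ∧ y ∈ Z := by
      by_contra hno
      push Not at hno
      exact hcon (mem_of_superset hV fun y hy => hno y hy)
    obtain ⟨c, hc, rfl⟩ := hyV
    rw [hZ] at hyZ
    obtain ⟨O', hO', hyO', h3⟩ := hyZ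
    -- a small disc around `c`
    have h4 : D.T l ∩ D.ψ l ⁻¹' O' ∈ 𝓝 c := by
      refine ((hD.contψ l).isOpen_inter_preimage (hD.openT l) hO').mem_nhds ⟨hbT hc, hyO'⟩
    obtain ⟨s, hs, hs2⟩ := Metric.mem_nhds_iff.1 h4
    have h5 : ∀ᵐ z, z ∈ Metric.ball c s → D.ψ l z ∉ N := by
      rw [tr hD Metric.isOpen_ball (fun z hz => (hs2 hz).1) hNm]
      filter_upwards [h3] with y hy hy2
      refine hy ?_
      obtain ⟨z, hz, rfl⟩ := hy2
      exact (hs2 hz).2
    have h6 := hr2 c (by rwa [mem_ball_iff_norm] at hc) s hs (by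
      filter_upwards [h5] with z hz hz2
      exact (hNi _).1 (hz (by rwa [mem_ball_iff_norm])))
    have hcT : Metric.ball c r ⊆ D.T l := by
      refine (Metric.ball_subset_closedBall.trans (Metric.closedBall_subset_closedBall' ?_)).trans hRT
      rw [mem_ball_iff_norm] at hc
      rw [dist_eq_norm]
      linarith
    have h7 : ∀ᵐ z, z ∈ Metric.ball c r → D.ψ l z ∉ N := by
      filter_upwards [h6] with z hz hz2
      rw [hNi]
      exact hz (by rwa [mem_ball_iff_norm] at hz2)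
    rw [tr hD Metric.isOpen_ball hcT hNm] at h7
    rw [hZ]
    refine ⟨_, img_open hD Metric.isOpen_ball hcT, ⟨D.φ l x, ?_, hD.left l x hxU⟩, h7⟩
    rw [mem_ball_iff_norm] at hc ⊢
    rwa [norm_sub_rev]
  have hZu : Z = univ := by
    refine IsClopen.eq_univ ⟨hZc, hZo⟩ ?_
    obtain ⟨x, hx⟩ := hne
    refine ⟨x, ?_⟩
    rw [hZ]
    refine ⟨O, hO, hx, ?_⟩
    filter_upwards [h0] with y hy hy2
    exact (hNi y).2 (hy hy2)
  have hnull : μ N = 0 := by
    refine measure_null_of_locally_null _ fun x _ => ?_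
    have hx : x ∈ Z := by rw [hZu]; exact mem_univ x
    rw [hZ] at hx
    obtain ⟨O', h1, h2, h3⟩ := hx
    refine ⟨O' ∩ N, inter_mem (mem_nhdsWithin_of_mem_nhds (h1.mem_nhds h2)) self_mem_nhdsWithin, ?_⟩
    rw [ae_iff] at h3
    simp only [Classical.not_imp, not_not] at h3
    exact h3
  have h1 : ∀ᵐ x ∂μ, x ∉ N := measure_eq_zero_iff_ae_notMem.1 hnull
  filter_upwards [h1] with x hx
  exact (hNi x).1 hx

/-- an eigenfunction which is not zero is different from zero on an open set -/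
theorem opn (hD : D.IsSurf μ)
    (hiso : ∀ l, ∀ z ∈ D.T l, ∃ c : ℝ, ∀ v, ‖D.A l z v‖ = c * ‖v‖) {i : HF D μ →L[ℝ] Lp ℝ 2 μ}
    {a : HF D μ →L[ℝ] HF D μ →L[ℝ] ℝ}
    {b : C(M, ℝ) → HF D μ →L[ℝ] HF D μ →L[ℝ] ℝ} (hi : ∀ v, i v = v.1.fst)
    (ha : ∀ u v, a u v = inner ℝ u.1.snd v.1.snd) (hB : IsB μ i b) {φ : C(M, ℝ)} {v : HF D μ}
    {lam : ℝ} (hv : ∀ w, a v w = lam * b φ v w) (hne : ¬ (i v : M → ℝ) =ᵐ[μ] 0) :
    ∃ O : Set M, IsOpen O ∧ O.Nonempty ∧ ∀ᵐ x ∂μ, x ∈ O → (i v : M → ℝ) x ≠ 0 := by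
  obtain ⟨N, hN⟩ : ∃ N : Set M, N = {x | (i v : M → ℝ) x ≠ 0} := ⟨_, rfl⟩
  have hNm : MeasurableSet N := by
    rw [hN]
    exact (Lp.stronglyMeasurable (i v)).measurable (measurableSet_singleton 0).compl
  have hNi : ∀ x, x ∉ N ↔ (i v : M → ℝ) x = 0 := fun x => by
    rw [hN]
    simp
  obtain ⟨x, hx⟩ : ∃ x : M, ∀ V : Set M, IsOpen V → x ∈ V → μ (V ∩ N) ≠ 0 := by
    by_contra hno
    push Not at hno
    apply hne
    have hnull : μ N = 0 := by
      refine measure_null_of_locally_null _ fun x _ => ?_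
      obtain ⟨V, h1, h2, h3⟩ := hno x
      exact ⟨V ∩ N, inter_mem (mem_nhdsWithin_of_mem_nhds (h1.mem_nhds h2)) self_mem_nhdsWithin, h3⟩
    have h1 : ∀ᵐ x ∂μ, x ∉ N := measure_eq_zero_iff_ae_notMem.1 hnull
    filter_upwards [h1] with x hx
    exact (hNi x).1 hx
  obtain ⟨l, R, hR, hxU, hRT⟩ := disc_in hD x
  obtain ⟨F₂, G₂, K, hS⟩ := loc hD (hiso l) hRT hi ha hB hv
  have hR2 : 2 * (R / 2) = R := by ring
  have hS' := hS
  rw [← hR2] at hS'
  obtain ⟨E, hE, hE2⟩ := hold (by positivity) hS'.mU hS'.mF hS'.mG hS'.W₁ hS'.W₂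
  have hbT : Metric.ball (D.φ l x) (R / 2) ⊆ D.T l :=
    (Metric.ball_subset_closedBall.trans (Metric.closedBall_subset_closedBall (by linarith))).trans
      hRT
  have h1 : ¬ ∀ᵐ z, z ∈ Metric.ball (D.φ l x) (R / 2) → D.ψ l z ∉ N := by
    rw [tr hD Metric.isOpen_ball hbT hNm]
    intro h2
    refine hx _ (img_open hD Metric.isOpen_ball hbT)
      ⟨D.φ l x, Metric.mem_ball_self (by positivity), hD.left l x hxU⟩ ?_
    rw [ae_iff] at h2
    simp only [Classical.not_imp, not_not] at h2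
    exact h2
  obtain ⟨z, hzE, hzb, hzN⟩ : ∃ z, z ∈ E ∧ z ∈ Metric.ball (D.φ l x) (R / 2) ∧ D.ψ l z ∈ N := by
    by_contra hno
    push Not at hno
    exact h1 (hE.mono fun z hz hz2 => hno z hz hz2)
  obtain ⟨δ, hδ, hδ2⟩ := hE2 z hzE (by rwa [mem_ball_iff_norm] at hzb) (by
    rw [hN] at hzN
    exact hzN)
  obtain ⟨δ', hδ', hδ3⟩ := Metric.isOpen_iff.1 Metric.isOpen_ball z hzb
  obtain ⟨s, hs⟩ : ∃ s : ℝ, s = min δ δ' := ⟨_, rfl⟩
  have hs0 : 0 < s := by rw [hs]; exact lt_min hδ hδ'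
  have hsT : Metric.ball z s ⊆ D.T l :=
    ((Metric.ball_subset_ball (by rw [hs]; exact min_le_right _ _)).trans hδ3).trans hbT
  refine ⟨D.ψ l '' Metric.ball z s, img_open hD Metric.isOpen_ball hsT,
    ⟨D.ψ l z, z, Metric.mem_ball_self hs0, rfl⟩, ?_⟩
  have h2 : ∀ᵐ z', z' ∈ Metric.ball z s → D.ψ l z' ∉ Nᶜ := by
    filter_upwards [hE] with z' hz' hz2
    rw [mem_compl_iff, not_not, hN]
    refine hδ2 z' hz' ?_
    rw [mem_ball_iff_norm] at hz2
    exact hz2.trans_le (by rw [hs]; exact min_le_left _ _)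
  rw [tr hD Metric.isOpen_ball hsT hNm.compl] at h2
  filter_upwards [h2] with y hy hy2
  have h3 := hy hy2
  rw [mem_compl_iff, not_not, hN] at h3
  exact h3

end Pool.Agent.L5helper74.UC
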