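import Pool.Agent.L5helper74.UC.Tri3

/-!
# Three eigenfunctions do not lie on a quadratic cone
-/

set_option autoImplicit false
set_option linter.unusedSectionVars false
set_option synthInstance.maxHeartbeats 400000

open Set Filter Topology MeasureTheory
open scoped ContDiff ENNReal ComplexConjugate
open Pool.Agent.Y262.QE Pool.Agent.Y264.QR Pool.Agent.Q233.GLV Pool.Agent.Q233

noncomputable section

namespace Pool.Agent.L5helper74.UC

open Pool.Agent.Q73.NL (db)

lemma int_k {O : Set ℂ} {X k : ℂ → ℂ} (hX : IntegrableOn X O) (hk : Continuous k)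
    (hkc : HasCompactSupport k) (hkO : ∀ z, k z ≠ 0 → z ∈ O) :
    Integrable (fun z => X z * k z) volume := by
  obtain ⟨C, hC⟩ := hk.bounded_above_of_compact_support hkc
  have h1 : Integrable (X : ℂ → ℂ) (volume.restrict O) := hX
  have h2 : Integrable (fun z => X z * k z) (volume.restrict O) :=
    Integrable.mul_bdd (c := C) h1 hk.aestronglyMeasurable (Eventually.of_forall hC)
  refine (integrableOn_iff_integrable_of_support_subset fun z hz => ?_).1 h2
  rw [Function.mem_support] at hz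
  exact hkO z (right_ne_zero_of_mul hz)

lemma Wk_comb {O : Set ℂ} {F₁ F₂ F₃ G₁ G₂ G₃ : ℂ → ℂ} (f₁ : IntegrableOn F₁ O)
    (f₂ : IntegrableOn F₂ O) (f₃ : IntegrableOn F₃ O) (g₁ : IntegrableOn G₁ O)
    (g₂ : IntegrableOn G₂ O) (g₃ : IntegrableOn G₃ O) (h₁ : Wk O F₁ G₁) (h₂ : Wk O F₂ G₂)
    (h₃ : Wk O F₃ G₃) :
    Wk O (fun z => F₁ z + F₂ z - F₃ z) fun z => G₁ z + G₂ z - G₃ z := by
  intro η hη hηc hηO
  have hk1 : ∀ z, η z ≠ 0 → z ∈ O := fun z hz => hηO (subset_tsupport _ hz)
  have hk2 : ∀ z, db η z ≠ 0 → z ∈ O := fun z hz => hηO (by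
    by_contra hn
    exact hz (off_t hn).2)
  have e1 : ∀ {X Y Z k : ℂ → ℂ}, IntegrableOn X O → IntegrableOn Y O → IntegrableOn Z O →
      Continuous k → HasCompactSupport k → (∀ z, k z ≠ 0 → z ∈ O) →
      ∫ z, (X z + Y z - Z z) * k z = (∫ z, X z * k z) + (∫ z, Y z * k z) - ∫ z, Z z * k z := by
    intro X Y Z k hX hY hZ hk hkc hkO
    have i1 := int_k hX hk hkc hkO
    have i2 := int_k hY hk hkc hkO
    have i3 := int_k hZ hk hkc hkO
    have h := integral_sub (i1.add i2) i3
    simp only [Pi.add_apply] at h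
    rw [← integral_add i1 i2, ← h]
    refine integral_congr_ae (Eventually.of_forall fun z => ?_)
    simp only
    ring
  rw [e1 f₁ f₂ f₃ (db_cont hη) (db_hcs hηc) hk2, e1 g₁ g₂ g₃ hη.continuous hηc hk1,
    h₁ η hη hηc hηO, h₂ η hη hηc hηO, h₃ η hη hηc hηO]
  ring

lemma cs_eq {U V W : ℝ} {a b d : ℂ} (h1 : U * U + V * V = W * W)
    (h2 : (U : ℂ) * a + V * b = W * d)
    (h3 : conj a * a + conj b * b = conj d * d) : (U : ℂ) * b = V * a := by
  have h4 : conj ((U : ℂ) * b - V * a) * ((U : ℂ) * b - V * a) = 0 := by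
    have h5 : conj ((U : ℂ) * a + V * b) = conj ((W : ℂ) * d) := by rw [h2]
    simp only [map_add, map_sub, map_mul, Complex.conj_ofReal] at h5 ⊢
    have h6 : ((U : ℂ) * U + V * V) = W * W := by exact_mod_cast h1
    have h7 : ((U : ℂ) * conj a + V * conj b) * ((U : ℂ) * a + V * b) = (W * conj d) * (W * d) := by
      rw [h5, h2]
    linear_combination (conj a * a + conj b * b) * h6 - h7 + (W : ℂ) * W * h3
  have h5 : (U : ℂ) * b - V * a = 0 := by
    rcases mul_eq_zero.1 h4 with h6 | h6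
    · exact (map_eq_zero _).1 h6
    · exact h6
  exact sub_eq_zero.1 h5

/-- the local statement -/
theorem cone_loc {c : ℂ} {s : ℝ} (hs : 0 < s) {U V W : ℂ → ℝ} {FU FV FW GU GV GW : ℂ → ℂ}
    {KU KV KW : ℝ} (hU : Sys U FU GU c s KU) (hV : Sys V FV GV c s KV) (hW : Sys W FW GW c s KW)
    {κ : ℂ → ℂ} (kU : ∀ z, GU z = κ z * U z) (kV : ∀ z, GV z = κ z * V z)
    (kW : ∀ z, GW z = κ z * W z) {c₀ : ℝ} (hc₀ : 0 < c₀) (hlow : ∀ᵐ z, ‖z - c‖ < s → c₀ ≤ V z)
    (hrel : ∀ᵐ z, ‖z - c‖ < s → U z * U z + V z * V z = W z * W z) :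
    ∃ (δ t : ℝ), 0 < δ ∧ δ < s ∧ ∀ᵐ z, ‖z - c‖ < δ → U z = t * V z := by
  have hconj : ∀ {X : ℂ → ℂ} {O : Set ℂ}, MemLp X 2 (volume.restrict O) →
      MemLp (fun z => conj (X z)) 2 (volume.restrict O) := by
    intro X O hX
    refine hX.of_le (Complex.continuous_conj.comp_aestronglyMeasurable hX.1)
      (Eventually.of_forall fun z => ?_)
    rw [RCLike.norm_conj]
  have hmono : ∀ {X : ℂ → ℂ} {r : ℝ}, r ≤ s → MemLp X 2 (volume.restrict (Metric.ball c s)) →
      MemLp X 2 (volume.restrict (Metric.ball c r)) := fun hr hX =>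
    hX.mono_measure (Measure.restrict_mono (Metric.ball_subset_ball hr) le_rfl)
  have hmul : ∀ {X Y : ℂ → ℂ} {r : ℝ}, r ≤ s → MemLp X 2 (volume.restrict (Metric.ball c s)) →
      MemLp Y 2 (volume.restrict (Metric.ball c s)) →
      IntegrableOn (fun z => X z * Y z) (Metric.ball c r) := fun hr hX hY =>
    (hmono hr hX).integrable_mul (hmono hr hY)
  have s2 : 2 * (s / 2) = s := by ring
  -- first order
  have P : ∀ {X : ℂ → ℝ} {F G : ℂ → ℂ} {K : ℝ}, Sys X F G c s K →
      Wk (Metric.ball c (s / 2)) (fun z => (X z : ℂ) * X z)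
        fun z => conj (F z) * X z + X z * conj (F z) := by
    intro X F G K h
    refine prod (r := s / 2) (by positivity) ?_ ?_ ?_ ?_ ?_ ?_ <;> rw [s2]
    · exact h.mU
    · exact hconj h.mF
    · exact h.mU
    · exact hconj h.mF
    · exact h.W₁
    · exact h.W₁
  have I : ∀ {X : ℂ → ℝ} {F G : ℂ → ℂ} {K : ℝ}, Sys X F G c s K →
      IntegrableOn (fun z => conj (F z) * X z + X z * conj (F z)) (Metric.ball c (s / 2)) := by
    intro X F G K h
    exact (hmul (by linarith) (hconj h.mF) h.mU).add (hmul (by linarith) h.mU (hconj h.mF))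
  have w1 := Wk_comb (hmul (by linarith) hU.mU hU.mU) (hmul (by linarith) hV.mU hV.mU)
    (hmul (by linarith) hW.mU hW.mU) (I hU) (I hV) (I hW) (P hU) (P hV) (P hW)
  have v1 := van (((I hU).add (I hV)).sub (I hW)) w1 (by
    filter_upwards [hrel] with z hz hzs
    have h1 := hz (by linarith)
    have h2 : ((U z : ℂ) * U z + V z * V z) = W z * W z := by exact_mod_cast h1
    rw [h2, sub_self])
  have v2 : ∀ᵐ z, ‖z - c‖ < s / 2 → (U z : ℂ) * FU z + V z * FV z = W z * FW z := by
    filter_upwards [v1] with z hz hzs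
    have h1 := hz hzs
    simp only [Pi.add_apply, Pi.sub_apply] at h1
    have h2 := congrArg conj h1
    simp only [map_add, map_sub, map_mul, Complex.conj_conj, Complex.conj_ofReal, map_zero] at h2
    linear_combination h2 / 2
  -- second order
  have s4 : 2 * (s / 4) = s / 2 := by ring
  have Q : ∀ {X : ℂ → ℝ} {F G : ℂ → ℂ} {K : ℝ}, Sys X F G c s K →
      Wk (Metric.ball c (s / 4)) (fun z => (X z : ℂ) * F z)
        fun z => conj (F z) * F z + X z * G z := by
    intro X F G K h
    refine prod (r := s / 4) (by positivity) ?_ ?_ ?_ ?_ ?_ ?_ <;> rw [s4]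
    · exact hmono (by linarith) h.mU
    · exact hmono (by linarith) (hconj h.mF)
    · exact hmono (by linarith) h.mF
    · exact hmono (by linarith) h.mG
    · exact h.W₁.mono (Metric.ball_subset_ball (by linarith))
    · exact h.W₂.mono (Metric.ball_subset_ball (by linarith))
  have J : ∀ {X : ℂ → ℝ} {F G : ℂ → ℂ} {K : ℝ}, Sys X F G c s K →
      IntegrableOn (fun z => conj (F z) * F z + X z * G z) (Metric.ball c (s / 4)) := by
    intro X F G K h
    exact (hmul (by linarith) (hconj h.mF) h.mF).add (hmul (by linarith) h.mU h.mG)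
  have w2 := Wk_comb (hmul (by linarith) hU.mU hU.mF) (hmul (by linarith) hV.mU hV.mF)
    (hmul (by linarith) hW.mU hW.mF) (J hU) (J hV) (J hW) (Q hU) (Q hV) (Q hW)
  have v3 := van (((J hU).add (J hV)).sub (J hW)) w2 (by
    filter_upwards [v2] with z hz hzs
    rw [hz (by linarith), sub_self])
  have v4 : ∀ᵐ z, ‖z - c‖ < s / 4 → (U z : ℂ) * conj (FV z) = V z * conj (FU z) := by
    filter_upwards [v2, v3, hrel] with z h1 h2 h3 hzs
    have h4 := h1 (by linarith)
    have h5 := h2 hzs
    simp only [Pi.add_apply, Pi.sub_apply] at h5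
    have h6 := h3 (by linarith)
    rw [kU, kV, kW] at h5
    have h7 : ((U z : ℂ) * U z + V z * V z) = W z * W z := by exact_mod_cast h6
    have h8 : conj (FU z) * FU z + conj (FV z) * FV z = conj (FW z) * FW z := by
      linear_combination h5 - κ z * h7
    have h9 := cs_eq h6 h4 h8
    have h10 := congrArg conj h9
    simp only [map_mul, Complex.conj_ofReal] at h10
    exact h10
  -- the quotient
  have s8 : 2 * (s / 8) = s / 4 := by ring
  have q1 := quot (c := c) (r := s / 8) (by positivity) (U := fun z => (U z : ℂ))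
    (V := fun z => (V z : ℂ)) (F := fun z => conj (FU z)) (H := fun z => conj (FV z))
    (by rw [s8]; exact hmono (by linarith) hU.mU)
    (by rw [s8]; exact hmono (by linarith) (hconj hU.mF))
    (by rw [s8]; exact hmono (by linarith) hV.mU)
    (by rw [s8]; exact hmono (by linarith) (hconj hV.mF))
    (by rw [s8]; exact hU.W₁.mono (Metric.ball_subset_ball (by linarith)))
    (by rw [s8]; exact hV.W₁.mono (Metric.ball_subset_ball (by linarith)))
    hc₀ (by
      filter_upwards [hlow] with z hz hzs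
      rw [Complex.ofReal_re]
      exact hz (by linarith)) (by
      filter_upwards [v4] with z hz hzs
      exact hz (by linarith))
  have hq : (fun z => (U z : ℂ) / (V z : ℂ)) = fun z => ((U z / V z : ℝ) : ℂ) := by
    funext z
    rw [Complex.ofReal_div]
  rw [hq] at q1
  have s32 : 2 * (s / 32) = s / 8 / 2 := by ring
  have hm : MemLp (fun z => ((U z / V z : ℝ) : ℂ)) 2
      (volume.restrict (Metric.ball c (2 * (s / 32)))) := by
    have hUm : MemLp (fun z => (U z : ℂ)) 2 (volume.restrict (Metric.ball c (2 * (s / 32)))) :=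
      hmono (by linarith) hU.mU
    have hVm : MemLp (fun z => (V z : ℂ)) 2 (volume.restrict (Metric.ball c (2 * (s / 32)))) :=
      hmono (by linarith) hV.mU
    refine hUm.of_le_mul (c := c₀⁻¹) ?_ ?_
    · rw [← hq]
      exact (hUm.1.aemeasurable.div hVm.1.aemeasurable).aestronglyMeasurable
    · filter_upwards [ae_restrict_mem measurableSet_ball,
        ae_restrict_of_ae (s := Metric.ball c (2 * (s / 32))) hlow] with z hz hz2
      rw [mem_ball_iff_norm] at hz
      have h1 := hz2 (by linarith)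
      rw [Complex.norm_real, Complex.norm_real, Real.norm_eq_abs, Real.norm_eq_abs, abs_div,
        abs_of_pos (by linarith : 0 < V z), div_eq_inv_mul]
      exact mul_le_mul_of_nonneg_right (inv_anti₀ hc₀ h1) (abs_nonneg _)
  rw [← s32] at q1
  obtain ⟨t, ht⟩ := cst (by positivity) hm q1
  refine ⟨s / 32 / 2, t, by positivity, by linarith, ?_⟩
  filter_upwards [ht, hlow] with z hz hz2 hzs
  have h1 := hz2 (by linarith)
  have h2 := hz hzs
  rw [← h2, div_mul_cancel₀]
  linarith

variable {M : Type} [MetricSpace M] [CompactSpace M] [MeasurableSpace M] [BorelSpace M]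
  {μ : Measure M} [IsFiniteMeasure μ] {D : Data M}

/-- three eigenfunctions with the same eigenvalue do not lie on a quadratic cone -/
theorem nocone [PreconnectedSpace M] (hD : D.IsSurf μ)
    (hiso : ∀ l, ∀ z ∈ D.T l, ∃ c : ℝ, ∀ v, ‖D.A l z v‖ = c * ‖v‖) {i : HF D μ →L[ℝ] Lp ℝ 2 μ}
    {a : HF D μ →L[ℝ] HF D μ →L[ℝ] ℝ}
    {b : C(M, ℝ) → HF D μ →L[ℝ] HF D μ →L[ℝ] ℝ} (hi : ∀ v, i v = v.1.fst)
    (ha : ∀ u v, a u v = inner ℝ u.1.snd v.1.snd) (hB : IsB μ i b) {φ : C(M, ℝ)}
    {u v w : HF D μ} {lam : ℝ} (hu : ∀ x, a u x = lam * b φ u x)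
    (hv : ∀ x, a v x = lam * b φ v x) (hw : ∀ x, a w x = lam * b φ w x)
    (hrel : ∀ᵐ x ∂μ, (i u : M → ℝ) x * (i u : M → ℝ) x + (i v : M → ℝ) x * (i v : M → ℝ) x =
      (i w : M → ℝ) x * (i w : M → ℝ) x) (hne : ¬ (i v : M → ℝ) =ᵐ[μ] 0) :
    ∃ t : ℝ, ∀ᵐ x ∂μ, (i u : M → ℝ) x = t * (i v : M → ℝ) x := by
  obtain ⟨l, c, s, c₀, hs, hc₀, hsub, hsgn⟩ := opn2 hD hiso hi ha hB hv hne
  obtain ⟨FU, GU, KU, hU, gU⟩ := loc2 hD (hiso l) hsub hi ha hB hu
  obtain ⟨FV, GV, KV, hV, gV⟩ := loc2 hD (hiso l) hsub hi ha hB hv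
  obtain ⟨FW, GW, KW, hW, gW⟩ := loc2 hD (hiso l) hsub hi ha hB hw
  have hbT : Metric.ball c s ⊆ D.T l := Metric.ball_subset_closedBall.trans hsub
  -- the relation in the chart
  obtain ⟨N, hN⟩ : ∃ N : Set M, N = {x | ¬ ((i u : M → ℝ) x * (i u : M → ℝ) x +
    (i v : M → ℝ) x * (i v : M → ℝ) x = (i w : M → ℝ) x * (i w : M → ℝ) x)} := ⟨_, rfl⟩
  have mu := (Lp.stronglyMeasurable (i u)).measurable
  have mv := (Lp.stronglyMeasurable (i v)).measurable
  have mw := (Lp.stronglyMeasurable (i w)).measurable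
  have hNm : MeasurableSet N := by
    rw [hN]
    exact (measurableSet_eq_fun ((mu.mul mu).add (mv.mul mv)) (mw.mul mw)).compl
  have hrel' : ∀ᵐ z, ‖z - c‖ < s → (i u : M → ℝ) (D.ψ l z) * (i u : M → ℝ) (D.ψ l z) +
      (i v : M → ℝ) (D.ψ l z) * (i v : M → ℝ) (D.ψ l z) =
      (i w : M → ℝ) (D.ψ l z) * (i w : M → ℝ) (D.ψ l z) := by
    have h1 : ∀ᵐ z, z ∈ Metric.ball c s → D.ψ l z ∉ N := by
      rw [tr hD Metric.isOpen_ball hbT hNm]
      filter_upwards [hrel] with x hx _
      rw [hN]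
      simp only [mem_ofPred_eq, not_not]
      exact hx
    filter_upwards [h1] with z hz hzs
    have h2 := hz (by rwa [mem_ball_iff_norm])
    rw [hN] at h2
    simp only [mem_ofPred_eq, not_not] at h2
    exact h2
  have gen : ∀ {X : M → ℝ} {G : ℂ → ℂ}, (∀ z, G z = ((-(lam / 4) * (Real.exp (φ (D.ψ l z)) *
      |(D.A l z).det|) * X (D.ψ l z) : ℝ) : ℂ)) → ∀ z, G z =
      ((-(lam / 4) * (Real.exp (φ (D.ψ l z)) * |(D.A l z).det|) : ℝ) : ℂ) * (X (D.ψ l z) : ℝ) := by
    intro X G h z
    rw [h]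
    push_cast
    ring
  obtain ⟨δ, t, hδ, hδs, ht⟩ : ∃ (δ t : ℝ), 0 < δ ∧ δ < s ∧ ∀ᵐ z, ‖z - c‖ < δ →
      (i u : M → ℝ) (D.ψ l z) = t * (i v : M → ℝ) (D.ψ l z) := by
    rcases hsgn with hp | hn
    · exact cone_loc hs hU hV hW (gen gU) (gen gV) (gen gW) hc₀ hp hrel'
    · have hV' : Sys (fun z => -(i v : M → ℝ) (D.ψ l z)) (fun z => -FV z) (fun z => -GV z) c s
          KV := by
        refine ⟨?_, ?_, ?_, ?_, ?_, ?_⟩
        · have := hV.mU.neg
          refine this.congr_norm ?_ (Eventually.of_forall fun z => ?_) 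
          · exact this.1.congr (Eventually.of_forall fun z => by simp)
          · simp
        · exact hV.mF.neg
        · exact hV.mG.neg
        · intro η h1 h2 h3
          have h4 := hV.W₁ η h1 h2 h3
          have e1 : ∫ z, ((-(i v : M → ℝ) (D.ψ l z) : ℝ) : ℂ) * db η z =
              -∫ z, (((i v : M → ℝ) (D.ψ l z) : ℝ) : ℂ) * db η z := by
            rw [← integral_neg]
            refine integral_congr_ae (Eventually.of_forall fun z => ?_)
            simp only
            push_cast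
            ring
          have e2 : ∫ z, conj (-FV z) * η z = -∫ z, conj (FV z) * η z := by
            rw [← integral_neg]
            refine integral_congr_ae (Eventually.of_forall fun z => ?_)
            simp only [map_neg]
            ring
          rw [e1, e2, h4]
        · intro η h1 h2 h3
          have h4 := hV.W₂ η h1 h2 h3
          have e1 : ∫ z, -FV z * db η z = -∫ z, FV z * db η z := by
            rw [← integral_neg]
            refine integral_congr_ae (Eventually.of_forall fun z => ?_)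
            simp only
            ring
          have e2 : ∫ z, -GV z * η z = -∫ z, GV z * η z := by
            rw [← integral_neg]
            refine integral_congr_ae (Eventually.of_forall fun z => ?_)
            simp only
            ring
          rw [e1, e2, h4]
        · intro z hz
          rw [norm_neg, abs_neg]
          exact hV.le z hz
      obtain ⟨δ, t, h1, h2, h3⟩ := cone_loc hs hU hV' hW (gen gU) (fun z => by
          rw [gen gV]
          push_cast
          ring) (gen gW) hc₀ (by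
          filter_upwards [hn] with z hz hzs
          have := hz hzs
          linarith) (by
          filter_upwards [hrel'] with z hz hzs
          rw [← hz hzs]
          ring)
      refine ⟨δ, -t, h1, h2, ?_⟩
      filter_upwards [h3] with z hz hzs
      rw [hz hzs]
      ring
  -- unique continuation
  obtain ⟨y, hy⟩ : ∃ y : HF D μ, y = u - t • v := ⟨_, rfl⟩
  have hiy : (i y : M → ℝ) =ᵐ[μ] fun x => (i u : M → ℝ) x - t * (i v : M → ℝ) x := by
    have h3 : i y = i u - t • i v := by rw [hy, map_sub, map_smul]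
    rw [h3]
    filter_upwards [Lp.coeFn_sub (i u) (t • i v), Lp.coeFn_smul t (i v)] with x h4 h5
    rw [h4, Pi.sub_apply, h5, Pi.smul_apply, smul_eq_mul]
  have hye : ∀ x, a y x = lam * b φ y x := by
    intro x
    rw [hy]
    simp only [map_sub, map_smul, _root_.sub_apply, _root_.smul_apply, smul_eq_mul, hu, hv]
    ring
  obtain ⟨N', hN'⟩ : ∃ N' : Set M, N' = {x | ¬ ((i u : M → ℝ) x = t * (i v : M → ℝ) x)} := ⟨_, rfl⟩
  have hNm' : MeasurableSet N' := by
    rw [hN']
    exact (measurableSet_eq_fun mu (mv.const_mul t)).compl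
  have hδT : Metric.ball c δ ⊆ D.T l := (Metric.ball_subset_ball hδs.le).trans hbT
  have h3 : ∀ᵐ z, z ∈ Metric.ball c δ → D.ψ l z ∉ N' := by
    filter_upwards [ht] with z hz hz2
    rw [hN']
    simp only [mem_ofPred_eq, not_not]
    exact hz (by rwa [mem_ball_iff_norm] at hz2)
  rw [tr hD Metric.isOpen_ball hδT hNm'] at h3
  have h4 := ucp hD hiso hi ha hB hye (img_open hD Metric.isOpen_ball hδT)
    ⟨D.ψ l c, c, Metric.mem_ball_self hδ, rfl⟩ (by
      filter_upwards [h3, hiy] with x hx hx1 hx2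
      have h5 := hx hx2
      rw [hN'] at h5
      simp only [mem_ofPred_eq, not_not] at h5
      rw [hx1, h5, sub_self])
  refine ⟨t, ?_⟩
  filter_upwards [h4, hiy] with x hx1 hx2
  rw [hx2] at hx1
  have : (i u : M → ℝ) x - t * (i v : M → ℝ) x = 0 := hx1
  linarith

end Pool.Agent.L5helper74.UC
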