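import Pool.Agent.L5helper74.UC.Glob

/-!
# Functions with vanishing gradient on a connected surface are constant
-/

set_option autoImplicit false
set_option linter.unusedSectionVars false
set_option synthInstance.maxHeartbeats 400000

open Set Filter Topology MeasureTheory
open scoped ContDiff ENNReal ComplexConjugate
open Pool.Agent.Y262.QE Pool.Agent.Y264.QR Pool.Agent.Q233.GLV Pool.Agent.Q233

noncomputable section

namespace Pool.Agent.L5helper74.UC

open Pool.Agent.Q73.NL (db)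

/-- a real function with `∂̄ U = 0` is constant -/
theorem cst {c : ℂ} {r : ℝ} (hr : 0 < r) {U : ℂ → ℝ}
    (hU : MemLp (fun z => (U z : ℂ)) 2 (volume.restrict (Metric.ball c (2 * r))))
    (hW : Wk (Metric.ball c (2 * r)) (fun z => (U z : ℂ)) (fun _ => 0)) :
    ∃ κ : ℝ, ∀ᵐ z, ‖z - c‖ < r / 2 → U z = κ := by
  obtain ⟨O, hO⟩ : ∃ O : Set ℂ, O = Metric.ball c (2 * r) := ⟨_, rfl⟩
  rw [← hO] at hU hW
  have hOm : MeasurableSet O := by rw [hO]; exact measurableSet_ball
  have hfin : IsFiniteMeasure (volume.restrict O) := by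
    rw [hO]
    exact ⟨by rw [Measure.restrict_apply_univ]; exact measure_ball_lt_top⟩
  -- the cutoff
  obtain ⟨χ, hχ1, hχ2, hχ3⟩ : ∃ χ : ℂ → ℝ, ContDiff ℝ ∞ χ ∧ (∀ z, ‖z - c‖ ≤ r → χ z = 1) ∧
      ∀ z, χ z ≠ 0 → ‖z - c‖ ≤ 3 / 2 * r := by
    obtain ⟨b, hb1, hb2⟩ : ∃ b : ContDiffBump c, b.rIn = r ∧ b.rOut = 3 / 2 * r :=
      ⟨⟨r, 3 / 2 * r, hr, by linarith⟩, rfl, rfl⟩
    refine ⟨b, b.contDiff, fun z hz => b.one_of_mem_closedBall ?_, fun z hz => ?_⟩
    · rwa [mem_closedBall_iff_norm, hb1]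
    · have h1 : z ∈ Function.support b := hz
      rw [b.support_eq, mem_ball_iff_norm, hb2] at h1
      exact h1.le
  obtain ⟨m, hm⟩ : ∃ m : ℂ → ℂ, m = fun z => (χ z : ℂ) := ⟨_, rfl⟩
  have hm1 : ContDiff ℝ ∞ m := by rw [hm]; exact Complex.ofRealCLM.contDiff.comp hχ1
  have hms : ∀ z, m z ≠ 0 → ‖z - c‖ ≤ 3 / 2 * r := fun z hz => hχ3 z (by
    intro h0
    rw [hm] at hz
    simp only [h0, Complex.ofReal_zero, ne_eq, not_true_eq_false] at hz)
  have hmc := hcs hms
  have htO : tsupport m ⊆ O := (tsup hms).trans (by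
    rw [hO]
    exact Metric.closedBall_subset_ball (by linarith))
  have hmO : ∀ z, m z ≠ 0 → z ∈ O := fun z hz => htO (subset_tsupport _ hz)
  have hdb0 : ∀ z, ‖z - c‖ < r → db m z = 0 := fun z hz => by
    have h1 : m =ᶠ[𝓝 z] fun _ => (1 : ℂ) := by
      filter_upwards [Metric.isOpen_ball.mem_nhds (show z ∈ Metric.ball c r by
        rwa [mem_ball_iff_norm])] with w hw
      rw [mem_ball_iff_norm] at hw
      rw [hm]
      simp only [hχ2 w hw.le, Complex.ofReal_one]
    unfold Pool.Agent.Q73.NL.db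
    rw [h1.fderiv_eq]
    simp
  obtain ⟨V, hV⟩ : ∃ V : ℂ → ℝ, V = fun z => χ z * U z := ⟨_, rfl⟩
  have hVm : (fun z => (V z : ℂ)) = fun z => m z * (U z : ℂ) := by
    funext z
    rw [hV, hm]
    push_cast
    rfl
  have hWV : Wk univ (fun z => (V z : ℂ)) (fun z => m z * 0 + db m z * (U z : ℂ)) := by
    have h1 := Wk_mul hW hm1 hmc htO
      ((hU.integrable one_le_two).mono_measure (Measure.restrict_mono htO le_rfl))
      (integrable_zero _ _ _)
    rw [← hVm] at h1
    exact h1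
  have hVL : MemLp (fun z => (V z : ℂ)) 2 volume := by
    rw [hVm]
    exact mul_mem hOm hU hm1.continuous hmc hmO
  have hVl : LocallyIntegrable (fun z => (V z : ℂ)) volume := hVL.locallyIntegrable (by norm_num)
  -- mollification
  obtain ⟨φ, h1, h2, h3, h4, h5, h6⟩ := mollifier hr
  have key : ∀ k z, z ∈ Metric.ball c (r / 2) → (∫ t, φ k t • ((V (z - t) : ℝ) : ℂ)) =
      ∫ t, φ k t • ((V (c - t) : ℝ) : ℂ) := by
    intro k z hz
    obtain ⟨u, hu⟩ : ∃ u : ℂ → ℝ, u = fun z => ∫ t, φ k t * V (z - t) := ⟨_, rfl⟩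
    have hW' : (fun z => ∫ t, φ k t • ((V (z - t) : ℝ) : ℂ)) = fun z => (u z : ℂ) := by
      funext z
      rw [hu]
      simp only
      rw [← integral_complex_ofReal]
      refine integral_congr_ae (Eventually.of_forall fun t => ?_)
      simp only [Complex.real_smul]
      push_cast
      rfl
    obtain ⟨q1, q2⟩ := cv_db (h1 k) (h2 k) hVl
    rw [hW'] at q1 q2
    have q3 := q2 _ hWV
    have hu1 : ContDiff ℝ ∞ u := by
      have h7 : u = fun z => ((u z : ℂ)).re := by
        funext z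
        rw [Complex.ofReal_re]
      rw [h7]
      exact Complex.reCLM.contDiff.comp q1
    have q7 : ∀ z w, fderiv ℝ (fun z => (u z : ℂ)) z w = ((fderiv ℝ u z w : ℝ) : ℂ) := by
      intro z w
      have h7 : HasFDerivAt (fun z => (u z : ℂ)) (Complex.ofRealCLM.comp (fderiv ℝ u z)) z :=
        Complex.ofRealCLM.hasFDerivAt.comp z ((hu1.differentiable (by simp)) z).hasFDerivAt
      rw [h7.fderiv]
      rfl
    have q8 : EqOn (fderiv ℝ u) 0 (Metric.ball c (r / 2)) := by
      intro z hz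
      rw [mem_ball_iff_norm] at hz
      have h7 : db (fun z => (u z : ℂ)) z = 0 := by
        rw [q3 z]
        refine integral_eq_zero_of_ae (Eventually.of_forall fun t => ?_)
        by_cases ht : φ k t = 0
        · simp [ht]
        · have h10 := h5 k t ht
          have h11 : db m (z - t) = 0 := by
            refine hdb0 _ ?_
            calc ‖z - t - c‖ = ‖(z - c) - t‖ := by congr 1; ring
              _ ≤ ‖z - c‖ + ‖t‖ := norm_sub_le _ _
              _ < r := by linarith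
          simp [h11]
      unfold Pool.Agent.Q73.NL.db at h7
      rw [q7, q7] at h7
      have h8 := congrArg Complex.re h7
      have h9 := congrArg Complex.im h7
      simp only [Complex.div_ofNat_re, Complex.add_re, Complex.ofReal_re, Complex.mul_re,
        Complex.I_re, Complex.I_im, Complex.ofReal_im, Complex.zero_re, Complex.zero_im,
        Complex.div_ofNat_im, Complex.add_im, Complex.mul_im] at h8 h9
      have e1 : fderiv ℝ u z 1 = 0 := by linarith
      have e2 : fderiv ℝ u z Complex.I = 0 := by linarith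
      refine ContinuousLinearMap.ext fun w => ?_
      have h10 : w = w.re • (1 : ℂ) + w.im • Complex.I := by
        apply Complex.ext <;> simp
      rw [h10, map_add, map_smul, map_smul, e1, e2]
      simp
    have h7 := Metric.isOpen_ball.is_const_of_fderiv_eq_zero
      (convex_ball c (r / 2)).isPreconnected (hu1.differentiable (by simp)).differentiableOn q8
      hz (Metric.mem_ball_self (by positivity))
    have h8 := congrFun hW' z
    have h9 := congrFun hW' c
    rw [h8, h9, h7]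
  have hlim := h6 _ hVl
  have hVU : ∀ z, ‖z - c‖ < r / 2 → V z = U z := fun z hz => by
    rw [hV]
    simp only [hχ2 z (by linarith), one_mul]
  by_cases hex : ∃ z₀ ∈ Metric.ball c (r / 2),
      Tendsto (fun k => ∫ t, φ k t • ((V (z₀ - t) : ℝ) : ℂ)) atTop (𝓝 ((V z₀ : ℝ) : ℂ))
  · obtain ⟨z₀, hz₀, hl₀⟩ := hex
    refine ⟨V z₀, ?_⟩
    filter_upwards [hlim] with z hz hzr
    have h7 : z ∈ Metric.ball c (r / 2) := by rwa [mem_ball_iff_norm]
    have h8 : (fun k => ∫ t, φ k t • ((V (z - t) : ℝ) : ℂ)) =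
        fun k => ∫ t, φ k t • ((V (z₀ - t) : ℝ) : ℂ) := by
      funext k
      rw [key k z h7, key k z₀ hz₀]
    rw [h8] at hz
    have h9 := tendsto_nhds_unique hz hl₀
    rw [← hVU z hzr]
    exact_mod_cast h9
  · refine ⟨0, ?_⟩
    filter_upwards [hlim] with z hz hzr
    exact absurd ⟨z, by rwa [mem_ball_iff_norm], hz⟩ hex

variable {M : Type} [MetricSpace M] [CompactSpace M] [MeasurableSpace M] [BorelSpace M]
  {μ : Measure M} [IsFiniteMeasure μ] {D : Data M}

lemma C1_const (D : Data M) (κ : ℝ) : D.C1 fun _ => κ := fun _ => contDiffOn_const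

lemma gr_const (D : Data M) (κ : ℝ) (x : M) : D.gr (fun _ => κ) x = 0 := by
  have h : ∀ l, D.gc l (fun _ => κ) = fun _ => 0 := by
    intro l
    funext y
    unfold Data.gc Data.dc grd
    apply Complex.ext <;> simp
  unfold Data.gr
  refine Finset.sum_eq_zero fun l _ => ?_
  rw [h]
  simp

lemma qc_const (D : Data M) (l : Fin D.N) (κ : ℝ) (z : ℂ) : qc D l (fun _ => κ) z = 0 := by
  unfold qc
  apply Complex.ext <;> simp

/-- vectors with gradient zero in a chart -/
theorem chart0 (hD : D.IsSurf μ) {l : Fin D.N}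
    (hc : ∀ z ∈ D.T l, ∃ c : ℝ, ∀ v, ‖D.A l z v‖ = c * ‖v‖) {K : Set ℂ} (hK : IsCompact K)
    (hs : K ⊆ D.T l) {i : HF D μ →L[ℝ] Lp ℝ 2 μ} (hi : ∀ v, i v = v.1.fst) {v : HF D μ}
    (hv : v.1.snd = 0) {η : ℂ → ℝ} (hη : ContDiff ℝ ∞ η) (hη0 : ∀ z, z ∉ K → η z = 0) (w : ℂ)
    (hw : w = 1 ∨ w = Complex.I) :
    ∫ z in K, (i v : M → ℝ) (D.ψ l z) * fderiv ℝ η z w = 0 := by
  have hKm : MeasurableSet K := hK.isClosed.measurableSet
  obtain ⟨ν, hν⟩ : ∃ ν : Measure ℂ, ν = volume.restrict K := ⟨_, rfl⟩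
  have hνf : IsFiniteMeasure ν := by
    rw [hν]
    exact ⟨by rw [Measure.restrict_apply_univ]; exact hK.measure_lt_top⟩
  obtain ⟨F, f, hF, hf⟩ := (tDenF M μ D hD).2 v.1 v.2
  have hft : Tendsto (fun k => (f k).snd) atTop (𝓝 v.1.snd) := snd_tend hf
  have hfst : Tendsto (fun k => (f k).fst) atTop (𝓝 v.1.fst) := by
    rw [tendsto_iff_norm_sub_tendsto_zero] at hf ⊢
    exact squeeze_zero (fun _ => norm_nonneg _) (fun k => (parts_le (f k - v.1)).1) hf
  have hq : ∀ k, MemLp (qc D l (F k)) 2 ν := fun k => by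
    rw [hν]
    exact qc_mem hD hK hs (hF k).1
  obtain ⟨Q, hQ⟩ : ∃ Q : ℕ → Lp ℂ 2 ν, ∀ k, Q k = (hq k).toLp _ := ⟨_, fun _ => rfl⟩
  have hQle : ∀ k, ‖Q k‖ ≤ ‖(f k).snd‖ := by
    intro k
    have h0 : MemLp (qc D l fun _ => 0) 2 ν := by
      rw [hν]
      exact qc_mem hD hK hs (C1_const D 0)
    have h0' : h0.toLp _ = 0 := by
      refine Lp.ext ?_
      filter_upwards [h0.coeFn_toLp, Lp.coeFn_zero ℂ 2 ν] with z h1 h2
      rw [h1, h2, qc_const]
      rfl
    have h1 := toLp_le (hq k) h0 (f' := (f k).snd) (g' := 0) (F := D.gr (F k))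
      (G := D.gr fun _ => 0) (hF k).2.2.2 (by
        filter_upwards [Lp.coeFn_zero ℂ 2 μ] with x hx
        rw [hx, gr_const]
        rfl) (by
        rw [hν]
        exact qc_le hD hc hK hs (hF k).1 (C1_const D 0))
    rw [h0', sub_zero, sub_zero] at h1
    rw [hQ]
    exact h1
  have hQ0 : Tendsto Q atTop (𝓝 0) := by
    rw [tendsto_zero_iff_norm_tendsto_zero]
    rw [hv] at hft
    exact squeeze_zero (fun _ => norm_nonneg _) hQle
      (tendsto_zero_iff_norm_tendsto_zero.1 hft)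
  have hoff : ∀ v : ℂ, ∀ z, z ∉ K → fderiv ℝ η z v = 0 := fun v z hz => by
    rw [off_fderiv hK.isClosed hη0 hz]
    simp
  have hηd : ∀ v : ℂ, Continuous fun z => fderiv ℝ η z v := fun v =>
    (hη.continuous_fderiv (by simp)).clm_apply continuous_const
  -- limits
  have lim1 : ∀ g : ℂ → ℂ, Continuous g →
      Tendsto (fun k => ∫ z in K, inner ℝ (qc D l (F k) z) (g z)) atTop (𝓝 0) := by
    intro g hg
    have hgm : MemLp g 2 ν := by
      obtain ⟨C, hC⟩ := hK.exists_bound_of_continuousOn hg.continuousOn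
      refine MemLp.of_bound hg.aestronglyMeasurable C ?_
      rw [hν]
      filter_upwards [ae_restrict_mem hKm] with z hz
      exact hC z hz
    have h1 : Tendsto (fun k => inner ℝ (Q k) (hgm.toLp g)) atTop
        (𝓝 (inner ℝ (0 : Lp ℂ 2 ν) (hgm.toLp g))) :=
      (Continuous.inner continuous_id continuous_const).tendsto (0 : Lp ℂ 2 ν) |>.comp hQ0
    rw [inner_zero_left] at h1
    refine h1.congr fun k => ?_
    rw [L2.inner_def, ← hν, hQ]
    refine integral_congr_ae ?_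
    filter_upwards [hgm.coeFn_toLp, (hq k).coeFn_toLp] with z hz1 hz2
    rw [hz1, hz2]
  have lim2 : ∀ g : ℂ → ℝ, Continuous g → (∀ z, z ∉ K → g z = 0) →
      Tendsto (fun k => ∫ z in K, F k (D.ψ l z) * g z) atTop
        (𝓝 (∫ z in K, (i v : M → ℝ) (D.ψ l z) * g z)) := by
    intro g hg hg0
    have hdet : ∀ z ∈ D.T l, |(D.A l z).det| ≠ 0 := fun z hz => (abs_pos.2 (hD.det l z hz)).ne'
    obtain ⟨h, hh1, hh2⟩ := cont_lift hD hK hs (w := fun z => g z / |(D.A l z).det|)
      (hg.continuousOn.div (Pool.Agent.Y960.QE.contDet hD l) hdet)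
      (fun z hz => by rw [hg0 z hz, zero_div])
    have hhm : MemLp h 2 μ := by
      refine MemLp.of_bound h.continuous.aestronglyMeasurable ‖h‖ ?_
      exact Eventually.of_forall fun x => h.norm_coe_le_norm x
    have hkey : ∀ {w : Lp ℝ 2 μ} {W : M → ℝ}, (w : M → ℝ) =ᵐ[μ] W → AEStronglyMeasurable W μ →
        inner ℝ w (hhm.toLp h) = ∫ z in K, W (D.ψ l z) * g z := by
      intro w W hw hW
      have h3 : inner ℝ w (hhm.toLp h) = ∫ x, W x * h x ∂μ := by
        rw [L2.inner_def]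
        refine integral_congr_ae ?_
        filter_upwards [hhm.coeFn_toLp, hw] with x hx1 hx2
        rw [hx1, hx2]
        simp [mul_comm]
      rw [h3, int_KK hD hK hs (g := fun x => W x * h x)
        (hW.mul h.continuous.aestronglyMeasurable) (fun x hx => by
        rw [hh2 x hx, mul_zero])]
      refine setIntegral_congr_fun hKm fun z hz => ?_
      show W (D.ψ l z) * h (D.ψ l z) * |(D.A l z).det| = W (D.ψ l z) * g z
      rw [hh1 z (hs hz)]
      have := hdet z (hs hz)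
      field_simp
    have h1 : Tendsto (fun k => inner ℝ ((f k).fst) (hhm.toLp h)) atTop
        (𝓝 (inner ℝ v.1.fst (hhm.toLp h))) :=
      (Continuous.inner continuous_id continuous_const).tendsto v.1.fst |>.comp hfst
    rw [← hi v, hkey (w := i v) (W := i v) Filter.EventuallyEq.rfl
      (Lp.stronglyMeasurable (i v)).aestronglyMeasurable] at h1
    refine h1.congr fun k => ?_
    exact hkey (hF k).2.2.1
      (Pool.Agent.Y708.QE.C1_cont hD (hF k).1).aestronglyMeasurable
  -- integration by parts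
  have ibp : ∀ v : ℂ, ∀ k, ∫ z in K, F k (D.ψ l z) * fderiv ℝ η z v =
      -∫ z in K, fderiv ℝ (fun z => F k (D.ψ l z)) z v * η z := by
    intro v k
    have h1 := CPC.ibp0 hK (hD.openT l) hs (P := η) (P' := fderiv ℝ η)
      (fun z => (hη.differentiable (by simp) z).hasFDerivAt) hηd hη0 ((hF k).1 l) v
    have hFc : ContinuousOn (fun z => F k (D.ψ l z)) K := ((hF k).1 l).continuousOn.mono hs
    have hFd : ContinuousOn (fun z => fderiv ℝ (fun z => F k (D.ψ l z)) z v) K :=
      ((((hF k).1 l).continuousOn_fderiv_of_isOpen (hD.openT l) le_rfl).mono hs).clm_apply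
        continuousOn_const
    have i1 : IntegrableOn (fun z => fderiv ℝ η z v * F k (D.ψ l z)) K :=
      ((hηd v).continuousOn.mul hFc).integrableOn_compact hK
    have i2 : IntegrableOn (fun z => η z * fderiv ℝ (fun z => F k (D.ψ l z)) z v) K :=
      (hη.continuous.continuousOn.mul hFd).integrableOn_compact hK
    rw [integral_add i1 i2] at h1
    have e1 : ∫ z in K, F k (D.ψ l z) * fderiv ℝ η z v =
        ∫ z in K, fderiv ℝ η z v * F k (D.ψ l z) :=
      integral_congr_ae (Eventually.of_forall fun z => mul_comm _ _)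
    have e2 : ∫ z in K, fderiv ℝ (fun z => F k (D.ψ l z)) z v * η z =
        ∫ z in K, η z * fderiv ℝ (fun z => F k (D.ψ l z)) z v :=
      integral_congr_ae (Eventually.of_forall fun z => mul_comm _ _)
    rw [e1, e2]
    linarith
  rcases hw with rfl | rfl
  · have h1 := lim2 _ (hηd 1) (hoff 1)
    have h2 := (lim1 (fun z => ((η z : ℝ) : ℂ)) (Complex.continuous_ofReal.comp hη.continuous)).neg
    have h3 : (fun k => ∫ z in K, F k (D.ψ l z) * fderiv ℝ η z 1) =
        fun k => -∫ z in K, inner ℝ (qc D l (F k) z) ((η z : ℝ) : ℂ) := by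
      funext k
      rw [ibp]
      congr 1
      refine integral_congr_ae (Eventually.of_forall fun z => ?_)
      simp only [qc, Pool.Agent.Y708.QE.inner_re]
      simp
    rw [h3] at h1
    rw [tendsto_nhds_unique h1 h2, neg_zero]
  · have h1 := lim2 _ (hηd Complex.I) (hoff Complex.I)
    have h2 := (lim1 (fun z => ((η z : ℝ) : ℂ) * Complex.I)
      ((Complex.continuous_ofReal.comp hη.continuous).mul continuous_const)).neg
    have h3 : (fun k => ∫ z in K, F k (D.ψ l z) * fderiv ℝ η z Complex.I) =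
        fun k => -∫ z in K, inner ℝ (qc D l (F k) z) (((η z : ℝ) : ℂ) * Complex.I) := by
      funext k
      rw [ibp]
      congr 1
      refine integral_congr_ae (Eventually.of_forall fun z => ?_)
      simp only [qc, Pool.Agent.Y708.QE.inner_re]
      simp
    rw [h3] at h1
    rw [tendsto_nhds_unique h1 h2, neg_zero]

/-- the local equation of vectors with gradient zero -/
theorem loc0 (hD : D.IsSurf μ) {l : Fin D.N}
    (hc : ∀ z ∈ D.T l, ∃ c : ℝ, ∀ v, ‖D.A l z v‖ = c * ‖v‖) {c : ℂ} {R : ℝ}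
    (hs : Metric.closedBall c R ⊆ D.T l) {i : HF D μ →L[ℝ] Lp ℝ 2 μ}
    {a : HF D μ →L[ℝ] HF D μ →L[ℝ] ℝ}
    {b : C(M, ℝ) → HF D μ →L[ℝ] HF D μ →L[ℝ] ℝ} (hi : ∀ v, i v = v.1.fst)
    (ha : ∀ u v, a u v = inner ℝ u.1.snd v.1.snd) (hB : IsB μ i b) {v : HF D μ}
    (hv : v.1.snd = 0) :
    MemLp (fun z => (((i v : M → ℝ) (D.ψ l z) : ℝ) : ℂ)) 2 (volume.restrict (Metric.ball c R)) ∧
      Wk (Metric.ball c R) (fun z => (((i v : M → ℝ) (D.ψ l z) : ℝ) : ℂ)) (fun _ => 0) := by
  obtain ⟨F₂, G₂, K, hS⟩ := loc hD hc hs hi ha hB (φ := 0) (v := v) (lam := 0) fun w => by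
    rw [ha, hv, inner_zero_left, zero_mul]
  refine ⟨hS.mU, ?_⟩
  obtain ⟨K, hKe⟩ : ∃ K : Set ℂ, K = Metric.closedBall c R := ⟨_, rfl⟩
  have hK : IsCompact K := by rw [hKe]; exact isCompact_closedBall _ _
  have hKm : MeasurableSet K := hK.isClosed.measurableSet
  rw [← hKe] at hs
  have hbK : Metric.ball c R ⊆ K := by rw [hKe]; exact Metric.ball_subset_closedBall
  have hfin : IsFiniteMeasure (volume.restrict (Metric.ball c R)) :=
    ⟨by rw [Measure.restrict_apply_univ]; exact measure_ball_lt_top⟩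
  have hUK : MemLp (fun z => (i v : M → ℝ) (D.ψ l z)) 2 (volume.restrict K) :=
    (chart hD hc hK hs hi ha hB (φ := 0) (v := v) (lam := 0) fun w => by
      rw [ha, hv, inner_zero_left, zero_mul]).1
  have hfinK : IsFiniteMeasure (volume.restrict K) :=
    ⟨by rw [Measure.restrict_apply_univ]; exact hK.measure_lt_top⟩
  have hUi : IntegrableOn (fun z => (i v : M → ℝ) (D.ψ l z)) K := hUK.integrable one_le_two
  refine Wk_real (fun k hk hkc hkO => ?_) (fun k _ _ _ => by simp) fun η hη hηc hηO => ?_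
  · obtain ⟨C, hC⟩ := hk.bounded_above_of_compact_support hkc
    have h1 : Integrable (fun z => (((i v : M → ℝ) (D.ψ l z) : ℝ) : ℂ) * k z)
        (volume.restrict K) :=
      Integrable.mul_bdd (c := C) hUi.ofReal hk.aestronglyMeasurable
        (Eventually.of_forall hC)
    refine (integrableOn_iff_integrable_of_support_subset fun z hz => ?_).1 h1
    rw [Function.mem_support] at hz
    refine hbK (hkO (subset_tsupport k ?_))
    rw [Function.mem_support]
    exact right_ne_zero_of_mul hz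
  · have hη0 : ∀ z, z ∉ K → η z = 0 := fun z hz =>
      image_eq_zero_of_notMem_tsupport fun h => hz (hbK (hηO h))
    have hd0 : ∀ v : ℂ, ∀ z, z ∉ K → fderiv ℝ η z v = 0 := fun v z hz => by
      rw [off_fderiv hK.isClosed hη0 hz]
      simp
    have hηd : ∀ v : ℂ, Continuous fun z => fderiv ℝ η z v := fun v =>
      (hη.continuous_fderiv (by simp)).clm_apply continuous_const
    have hreal : ∀ k : ℂ → ℝ, Continuous k →
        IntegrableOn (fun z => (i v : M → ℝ) (D.ψ l z) * k z) K := by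
      intro k hk
      obtain ⟨C, hC⟩ := hK.exists_bound_of_continuousOn hk.continuousOn
      refine Integrable.mul_bdd (c := C) hUi hk.aestronglyMeasurable ?_
      filter_upwards [ae_restrict_mem hKm] with z hz
      exact hC z hz
    have e1 : ∫ z, (((i v : M → ℝ) (D.ψ l z) : ℝ) : ℂ) * db (fun z => (η z : ℂ)) z =
        (((∫ z in K, (i v : M → ℝ) (D.ψ l z) * fderiv ℝ η z 1 : ℝ) : ℂ) +
          Complex.I * ((∫ z in K, (i v : M → ℝ) (D.ψ l z) * fderiv ℝ η z Complex.I : ℝ) : ℂ)) /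
            2 := by
      rw [← setIntegral_eq_integral_of_forall_compl_eq_zero (s := K) (fun z hz => by
        rw [db_real hη, hd0 1 z hz, hd0 Complex.I z hz]
        simp), ← integral_complex_ofReal, ← integral_complex_ofReal, ← integral_const_mul,
        ← integral_add (hreal _ (hηd 1)).ofReal
          ((hreal _ (hηd Complex.I)).ofReal.const_mul _), ← integral_div]
      refine integral_congr_ae (Eventually.of_forall fun z => ?_)
      simp only [db_real hη]
      push_cast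
      ring
    rw [e1, chart0 hD hc hK hs hi hv hη hη0 1 (Or.inl rfl),
      chart0 hD hc hK hs hi hv hη hη0 Complex.I (Or.inr rfl)]
    simp

/-- functions with gradient zero on a connected surface are constant -/
theorem const [ConnectedSpace M] (hD : D.IsSurf μ)
    (hiso : ∀ l, ∀ z ∈ D.T l, ∃ c : ℝ, ∀ v, ‖D.A l z v‖ = c * ‖v‖) {i : HF D μ →L[ℝ] Lp ℝ 2 μ}
    {a : HF D μ →L[ℝ] HF D μ →L[ℝ] ℝ}
    {b : C(M, ℝ) → HF D μ →L[ℝ] HF D μ →L[ℝ] ℝ} (hi : ∀ v, i v = v.1.fst)
    (ha : ∀ u v, a u v = inner ℝ u.1.snd v.1.snd) (hB : IsB μ i b) {v : HF D μ}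
    (hv : v.1.snd = 0) : ∃ κ : ℝ, ∀ᵐ x ∂μ, (i v : M → ℝ) x = κ := by
  obtain ⟨x⟩ : Nonempty M := inferInstance
  obtain ⟨l, R, hR, hxU, hRT⟩ := disc_in hD x
  obtain ⟨h1, h2⟩ := loc0 hD (hiso l) hRT hi ha hB hv
  have hR2 : 2 * (R / 2) = R := by ring
  rw [← hR2] at h1 h2
  obtain ⟨κ, hκ⟩ := cst (by positivity) h1 h2
  refine ⟨κ, ?_⟩
  -- the constant function
  obtain ⟨w₀, hw₀, hw1, hw2⟩ := (tDenF M μ D hD).1 (fun _ => κ) (C1_const D κ)
  obtain ⟨w, hw⟩ : ∃ w : HF D μ, w = ⟨w₀, hw₀⟩ := ⟨_, rfl⟩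
  have hw3 : w.1.snd = 0 := by
    rw [hw]
    refine Lp.ext ?_
    filter_upwards [hw2, Lp.coeFn_zero ℂ 2 μ] with x hx hx2
    rw [hx2, hx, gr_const]
    rfl
  have hw4 : (i w : M → ℝ) =ᵐ[μ] fun _ => κ := by
    rw [hi, hw]
    exact hw1
  obtain ⟨v', hv'⟩ : ∃ v' : HF D μ, v' = v - w := ⟨_, rfl⟩
  have hv'1 : (i v' : M → ℝ) =ᵐ[μ] fun x => (i v : M → ℝ) x - κ := by
    have h3 : i v' = i v - i w := by rw [hv', map_sub]
    rw [h3]
    filter_upwards [Lp.coeFn_sub (i v) (i w), hw4] with x h4 h5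
    rw [h4, Pi.sub_apply, h5]
  have hv'0 : v'.1.snd = 0 := by
    have h3 : v'.1.snd = v.1.snd - w.1.snd := by
      rw [hv']
      rfl
    rw [h3, hv, hw3, sub_zero]
  have hbT : Metric.ball (D.φ l x) (R / 2 / 2) ⊆ D.T l :=
    (Metric.ball_subset_closedBall.trans (Metric.closedBall_subset_closedBall (by linarith))).trans
      hRT
  obtain ⟨N, hN⟩ : ∃ N : Set M, N = {x | (i v : M → ℝ) x ≠ κ} := ⟨_, rfl⟩
  have hNm : MeasurableSet N := by
    rw [hN]
    exact (Lp.stronglyMeasurable (i v)).measurable (measurableSet_singleton κ).compl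
  have h3 : ∀ᵐ z, z ∈ Metric.ball (D.φ l x) (R / 2 / 2) → D.ψ l z ∉ N := by
    filter_upwards [hκ] with z hz hz2
    rw [hN]
    simp only [mem_ofPred_eq, ne_eq, not_not]
    exact hz (by rwa [mem_ball_iff_norm] at hz2)
  rw [tr hD Metric.isOpen_ball hbT hNm] at h3
  have h4 := ucp hD hiso hi ha hB (φ := 0) (v := v') (lam := 0) (fun w => by
    rw [ha, hv'0, inner_zero_left, zero_mul]) (img_open hD Metric.isOpen_ball hbT)
    ⟨x, D.φ l x, Metric.mem_ball_self (by positivity), hD.left l x hxU⟩ (by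
      filter_upwards [h3, hv'1] with y hy hy1 hy2
      have h5 := hy hy2
      rw [hN] at h5
      simp only [mem_ofPred_eq, ne_eq, not_not] at h5
      rw [hy1, h5, sub_self])
  filter_upwards [h4, hv'1] with y hy1 hy2
  rw [hy2] at hy1
  have : (i v : M → ℝ) y - κ = 0 := hy1
  linarith

/-- the level 1 is positive on a connected surface -/
theorem pos1 [ConnectedSpace M] (hD : D.IsSurf μ)
    (hiso : ∀ l, ∀ z ∈ D.T l, ∃ c : ℝ, ∀ v, ‖D.A l z v‖ = c * ‖v‖) {i : HF D μ →L[ℝ] Lp ℝ 2 μ}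
    {a : HF D μ →L[ℝ] HF D μ →L[ℝ] ℝ}
    {b : C(M, ℝ) → HF D μ →L[ℝ] HF D μ →L[ℝ] ℝ} (hi : ∀ v, i v = v.1.fst)
    (ha : ∀ u v, a u v = inner ℝ u.1.snd v.1.snd) (hB : IsB μ i b) {φ : C(M, ℝ)}
    {e : ℕ → HF D μ} {E : ℕ → ℝ} (hE : Eg a (b φ) e E) {l : ℕ} (hl : 1 ≤ l) : 0 < E l := by
  have hq : ∀ j, E j = ‖(e j).1.snd‖ ^ 2 := by
    intro j
    have h1 := hE.eig j (e j)
    rw [hE.orth, if_pos rfl, mul_one, ha, real_inner_self_eq_norm_sq] at h1
    exact h1.symm
  have hnn : ∀ j, 0 ≤ E j := fun j => by rw [hq]; positivity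
  have h1 : 0 < E 1 := by
    by_contra hcon
    have h10 : E 1 = 0 := le_antisymm (not_lt.1 hcon) (hnn 1)
    have h00 : E 0 = 0 := le_antisymm ((hE.mono (Nat.zero_le 1)).trans_eq h10) (hnn 0)
    have hz : ∀ j, E j = 0 → (e j).1.snd = 0 := by
      intro j hj
      rw [hq] at hj
      exact norm_eq_zero.1 (pow_eq_zero_iff (two_ne_zero) |>.1 hj)
    obtain ⟨κ₀, hκ₀⟩ := const hD hiso hi ha hB (hz 0 h00)
    obtain ⟨κ₁, hκ₁⟩ := const hD hiso hi ha hB (hz 1 h10)
    have hb : ∀ {j k : ℕ} {κ κ' : ℝ}, (∀ᵐ x ∂μ, (i (e j) : M → ℝ) x = κ) →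
        (∀ᵐ x ∂μ, (i (e k) : M → ℝ) x = κ') →
        b φ (e j) (e k) = κ * κ' * ∫ x, Real.exp (φ x) ∂μ := by
      intro j k κ κ' h2 h3
      rw [hB, ← integral_const_mul]
      refine integral_congr_ae ?_
      filter_upwards [h2, h3] with x h4 h5
      rw [h4, h5]
      ring
    have h2 := hb hκ₀ hκ₀
    have h3 := hb hκ₁ hκ₁
    have h4 := hb hκ₀ hκ₁
    rw [hE.orth, if_pos rfl] at h2 h3
    rw [hE.orth, if_neg (by norm_num)] at h4
    rcases mul_eq_zero.1 h4.symm with h5 | h5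
    · rcases mul_eq_zero.1 h5 with h6 | h6
      · rw [h6] at h2
        norm_num at h2
      · rw [h6] at h3
        norm_num at h3
    · rw [h5] at h2
      norm_num at h2
  exact h1.trans_le (hE.mono hl)

end Pool.Agent.L5helper74.UC
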