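import Pool.Agent.L5helper74.UC.Est

/-!
# Unique continuation: a Carleman estimate and unique continuation in small discs
-/

set_option autoImplicit false

open Set Filter Topology MeasureTheory
open scoped ContDiff ENNReal

noncomputable section

namespace Pool.Agent.L5helper74.UC

open Pool.Agent.Q73.NL (db)

lemma db_mul {f g : ℂ → ℂ} {z : ℂ} (hf : DifferentiableAt ℝ f z) (hg : DifferentiableAt ℝ g z) :
    db (fun z => f z * g z) z = db f z * g z + f z * db g z := by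
  have h1 : HasFDerivAt (fun z => f z * g z) (f z • fderiv ℝ g z + g z • fderiv ℝ f z) z :=
    hf.hasFDerivAt.mul hg.hasFDerivAt
  unfold db
  rw [h1.fderiv]
  simp
  ring

lemma db_holo {f : ℂ → ℂ} {z : ℂ} (hf : DifferentiableAt ℂ f z) : db f z = 0 := by
  have h1 : HasFDerivAt f ((fderiv ℂ f z).restrictScalars ℝ) z :=
    hf.hasFDerivAt.restrictScalars ℝ
  unfold db
  rw [h1.fderiv]
  simp only [ContinuousLinearMap.coe_restrictScalars']
  have h2 : fderiv ℂ f z Complex.I = Complex.I * fderiv ℂ f z 1 := by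
    have := (fderiv ℂ f z).map_smul Complex.I 1
    rw [smul_eq_mul, mul_one, smul_eq_mul] at this
    exact this
  rw [h2, ← mul_assoc, Complex.I_mul_I]
  ring

lemma mul_mem {O : Set ℂ} (hO : MeasurableSet O) {F m : ℂ → ℂ}
    (hF : MemLp F 2 (volume.restrict O)) (hm : Continuous m) (hmc : HasCompactSupport m)
    (hmO : ∀ z, m z ≠ 0 → z ∈ O) : MemLp (fun z => m z * F z) 2 volume := by
  obtain ⟨C, hC⟩ := hm.bounded_above_of_compact_support hmc
  have h1 : MemLp (O.indicator F) 2 volume := (memLp_indicator_iff_restrict hO).2 hF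
  have h2 : (fun z => m z * F z) = fun z => m z * O.indicator F z := by
    funext z
    by_cases hz : z ∈ O
    · rw [indicator_of_mem hz]
    · have : m z = 0 := by
        by_contra hne
        exact hz (hmO z hne)
      rw [this, zero_mul, zero_mul]
  rw [h2]
  refine h1.of_le_mul (c := C) (hm.aestronglyMeasurable.mul h1.1)
    (Eventually.of_forall fun z => ?_)
  rw [norm_mul]
  exact mul_le_mul_of_nonneg_right (hC z) (norm_nonneg _)

/-- the weights -/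
lemma weight {c : ℂ} {r s : ℝ} (hr : 0 < r) (hs : 0 < s) : ∃ B : ℝ, 0 ≤ B ∧ ∀ n : ℕ,
    ∃ m : ℂ → ℂ, ContDiff ℝ ∞ m ∧ (∀ z, m z ≠ 0 → ‖z - c‖ ≤ 3 / 2 * r) ∧
      (∀ z, s ≤ ‖z - c‖ → ‖z - c‖ ≤ r → ‖m z‖ = (‖z - c‖ ^ n)⁻¹) ∧
      ∀ z, s ≤ ‖z - c‖ → ‖db m z‖ ≤ B * (r ^ n)⁻¹ := by
  obtain ⟨χ, hχ1, hχ2, hχ3⟩ : ∃ χ : ℂ → ℝ, ContDiff ℝ ∞ χ ∧ (∀ z, ‖z - c‖ ≤ r → χ z = 1) ∧
      ∀ z, χ z ≠ 0 → ‖z - c‖ ≤ 3 / 2 * r := by
    obtain ⟨b, hb1, hb2⟩ : ∃ b : ContDiffBump c, b.rIn = r ∧ b.rOut = 3 / 2 * r :=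
      ⟨⟨r, 3 / 2 * r, hr, by linarith⟩, rfl, rfl⟩
    refine ⟨b, b.contDiff, fun z hz => b.one_of_mem_closedBall ?_, fun z hz => ?_⟩
    · rwa [mem_closedBall_iff_norm, hb1]
    · have h1 : z ∈ Function.support b := hz
      rw [b.support_eq, mem_ball_iff_norm, hb2] at h1
      exact h1.le
  obtain ⟨θ, hθ1, hθ2, hθ3⟩ : ∃ θ : ℂ → ℝ, ContDiff ℝ ∞ θ ∧ (∀ z, ‖z - c‖ ≤ s / 4 → θ z = 0) ∧
      ∀ z, s / 2 ≤ ‖z - c‖ → θ z = 1 := by
    obtain ⟨b, hb1, hb2⟩ : ∃ b : ContDiffBump c, b.rIn = s / 4 ∧ b.rOut = s / 2 :=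
      ⟨⟨s / 4, s / 2, by positivity, by linarith⟩, rfl, rfl⟩
    refine ⟨fun z => 1 - b z, contDiff_const.sub b.contDiff, fun z hz => ?_, fun z hz => ?_⟩
    · show 1 - b z = 0
      rw [b.one_of_mem_closedBall, sub_self]
      rwa [mem_closedBall_iff_norm, hb1]
    · show 1 - b z = 1
      rw [b.zero_of_le_dist, sub_zero]
      rwa [dist_eq_norm, hb2]
  have hχc : ContDiff ℝ ∞ fun z => (χ z : ℂ) := Complex.ofRealCLM.contDiff.comp hχ1
  have hχs : ∀ z, (χ z : ℂ) ≠ 0 → ‖z - c‖ ≤ 3 / 2 * r := fun z hz => hχ3 z (by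
    intro h0
    rw [h0] at hz
    exact hz Complex.ofReal_zero)
  obtain ⟨B, hB⟩ := (db_cont hχc).bounded_above_of_compact_support (db_hcs (hcs hχs))
  have hB0 : 0 ≤ B := (norm_nonneg _).trans (hB 0)
  refine ⟨B, hB0, fun n => ?_⟩
  obtain ⟨κ, hκ⟩ : ∃ κ : ℂ → ℂ, κ = fun z => (θ z : ℂ) * ((z - c) ^ n)⁻¹ := ⟨_, rfl⟩
  have hne : ∀ z, s / 4 < ‖z - c‖ → z - c ≠ 0 := by
    intro z hz h0
    rw [h0, norm_zero] at hz
    linarith
  have hκ1 : ContDiff ℝ ∞ κ := by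
    rw [contDiff_iff_contDiffAt]
    intro z
    rcases lt_or_ge ‖z - c‖ (s / 4) with h1 | h1
    · have h2 : κ =ᶠ[𝓝 z] fun _ => 0 := by
        have h3 : ∀ᶠ y in 𝓝 z, ‖y - c‖ < s / 4 := by
          refine (Continuous.continuousAt ?_).eventually_lt continuousAt_const h1
          fun_prop
        filter_upwards [h3] with y hy
        rw [hκ]
        simp only [hθ2 y hy.le, Complex.ofReal_zero, zero_mul]
      exact contDiffAt_const.congr_of_eventuallyEq h2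
    · rw [hκ]
      have h2 : z - c ≠ 0 := by
        intro h0
        rw [h0, norm_zero] at h1
        linarith
      refine (Complex.ofRealCLM.contDiff.comp hθ1).contDiffAt.mul ?_
      exact ((contDiffAt_id.sub contDiffAt_const).pow n).inv (pow_ne_zero n h2)
  refine ⟨fun z => (χ z : ℂ) * κ z, hχc.mul hκ1, fun z hz => hχs z (left_ne_zero_of_mul hz),
    fun z h1 h2 => ?_, fun z h1 => ?_⟩
  · rw [hκ]
    simp only [hχ2 z h2, hθ3 z (by linarith), Complex.ofReal_one, one_mul, norm_inv, norm_pow]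
  · have h2 : κ =ᶠ[𝓝 z] fun z => ((z - c) ^ n)⁻¹ := by
      have h3 : ∀ᶠ y in 𝓝 z, s / 2 < ‖y - c‖ := by
        refine continuousAt_const.eventually_lt (Continuous.continuousAt ?_) (by linarith)
        fun_prop
      filter_upwards [h3] with y hy
      rw [hκ]
      simp only [hθ3 y hy.le, Complex.ofReal_one, one_mul]
    have h3 : db κ z = 0 := by
      have h4 : db κ z = db (fun z => ((z - c) ^ n)⁻¹) z := by
        unfold db
        rw [h2.fderiv_eq]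
      rw [h4]
      refine db_holo ?_
      exact (((differentiableAt_id).sub_const c).pow n).inv
        (pow_ne_zero n (hne z (by linarith)))
    rw [db_mul ((hχc.differentiable (by simp)) z) ((hκ1.differentiable (by simp)) z), h3, mul_zero,
      add_zero, h2.self_of_nhds, norm_mul, norm_inv, norm_pow]
    rcases lt_or_ge ‖z - c‖ r with h5 | h5
    · have h6 : db (fun z => (χ z : ℂ)) z = 0 := by
        have h7 : (fun z => (χ z : ℂ)) =ᶠ[𝓝 z] fun _ => 1 := by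
          have h8 : ∀ᶠ y in 𝓝 z, ‖y - c‖ < r := by
            refine (Continuous.continuousAt ?_).eventually_lt continuousAt_const h5
            fun_prop
          filter_upwards [h8] with y hy
          rw [hχ2 y hy.le, Complex.ofReal_one]
        unfold db
        rw [h7.fderiv_eq]
        simp
      rw [h6, norm_zero, zero_mul]
      positivity
    · refine mul_le_mul (hB z) ?_ (by positivity) hB0
      exact inv_anti₀ (by positivity) (pow_le_pow_left₀ hr.le h5 n)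

lemma sq_add_le (a b : ℂ) : ‖a + b‖ₑ ^ 2 ≤ 2 * ‖a‖ₑ ^ 2 + 2 * ‖b‖ₑ ^ 2 := by
  have h1 : ‖a + b‖ ^ 2 ≤ 2 * ‖a‖ ^ 2 + 2 * ‖b‖ ^ 2 := by
    have h2 := norm_add_le a b
    have h3 : ‖a + b‖ ^ 2 ≤ (‖a‖ + ‖b‖) ^ 2 := pow_le_pow_left₀ (norm_nonneg _) h2 2
    nlinarith [sq_nonneg (‖a‖ - ‖b‖)]
  have h2 : ∀ x : ℂ, ‖x‖ₑ ^ 2 = ENNReal.ofReal (‖x‖ ^ 2) := fun x => by
    rw [ENNReal.ofReal_pow (norm_nonneg _), ofReal_norm]
  rw [h2, h2, h2]
  refine (ENNReal.ofReal_le_ofReal h1).trans ?_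
  rw [ENNReal.ofReal_add (by positivity) (by positivity), ENNReal.ofReal_mul (by norm_num),
    ENNReal.ofReal_mul (by norm_num)]
  norm_num

lemma absorb {S D : ℝ≥0∞} (hS : S ≠ ⊤) (h : S ≤ S / 2 + D) : S ≤ 2 * D := by
  have h1 : S / 2 + S / 2 ≤ S / 2 + D := by rwa [ENNReal.add_halves]
  have h2 : S / 2 ≤ D := by
    refine (ENNReal.add_le_add_iff_left ?_).1 h1
    exact (ENNReal.div_lt_top hS (by norm_num)).ne
  calc S = S / 2 + S / 2 := (ENNReal.add_halves S).symm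
    _ ≤ D + D := add_le_add h2 h2
    _ = 2 * D := (two_mul D).symm

/-- one function -/
lemma one {c : ℂ} {r s B : ℝ} {n : ℕ} (hr : 0 < r) {m : ℂ → ℂ} (hm : ContDiff ℝ ∞ m)
    (hms : ∀ z, m z ≠ 0 → ‖z - c‖ ≤ 3 / 2 * r) (hB : 0 ≤ B)
    (hdm : ∀ z, s ≤ ‖z - c‖ → ‖db m z‖ ≤ B * (r ^ n)⁻¹) {F G : ℂ → ℂ}
    (hF : MemLp F 2 (volume.restrict (Metric.ball c (2 * r))))
    (hG : MemLp G 2 (volume.restrict (Metric.ball c (2 * r))))
    (hW : Wk (Metric.ball c (2 * r)) F G) (h0 : ∀ᵐ z, ‖z - c‖ < s → F z = 0) :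
    ∫⁻ z, ‖m z * F z‖ₑ ^ 2 ≤ ENNReal.ofReal (288 * r ^ 2) * ((∫⁻ z, ‖m z * G z‖ₑ ^ 2) +
      ENNReal.ofReal ((B * (r ^ n)⁻¹) ^ 2) *
        ∫⁻ z in Metric.ball c (2 * r), ‖F z‖ₑ ^ 2) := by
  obtain ⟨O, hO⟩ : ∃ O : Set ℂ, O = Metric.ball c (2 * r) := ⟨_, rfl⟩
  rw [← hO] at hF hG hW ⊢
  have hOm : MeasurableSet O := by rw [hO]; exact measurableSet_ball
  have hmc := hcs hms
  have hmO : ∀ z, m z ≠ 0 → z ∈ O := fun z hz => by
    rw [hO, mem_ball_iff_norm]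
    exact (hms z hz).trans_lt (by linarith)
  have htO : tsupport m ⊆ O := (tsup hms).trans (by
    rw [hO]
    exact Metric.closedBall_subset_ball (by linarith))
  have hdO : ∀ z, db m z ≠ 0 → z ∈ O := fun z hz => by
    by_contra hn
    apply hz
    have h1 : fderiv ℝ m z = 0 := by
      by_contra hne
      exact hn (htO (support_fderiv_subset ℝ hne))
    unfold db
    rw [h1]
    simp
  have : IsFiniteMeasure (volume.restrict O) := by
    rw [hO]
    exact ⟨by rw [Measure.restrict_apply_univ]; exact measure_ball_lt_top⟩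
  have hFi : IntegrableOn F (tsupport m) := (hF.integrable one_le_two).mono_measure
    (Measure.restrict_mono htO le_rfl)
  have hGi : IntegrableOn G (tsupport m) := (hG.integrable one_le_two).mono_measure
    (Measure.restrict_mono htO le_rfl)
  have hW2 := Wk_mul hW hm hmc htO hFi hGi
  have h1 : MemLp (fun z => m z * F z) 2 volume := mul_mem hOm hF hm.continuous hmc hmO
  have h2 : MemLp (fun z => m z * G z) 2 volume := mul_mem hOm hG hm.continuous hmc hmO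
  have h3 : MemLp (fun z => db m z * F z) 2 volume :=
    mul_mem hOm hF (db_cont hm) (db_hcs hmc) hdO
  have h4 := est (c := c) (r := 3 / 2 * r) (by positivity) h1 (h2.add h3)
    (fun z hz => hms z (left_ne_zero_of_mul hz)) hW2
  refine h4.trans ?_
  have h5 : ∫⁻ z, ‖((fun z => m z * G z) + fun z => db m z * F z) z‖ₑ ^ 2 ≤
      2 * (∫⁻ z, ‖m z * G z‖ₑ ^ 2) + 2 * ∫⁻ z, ‖db m z * F z‖ₑ ^ 2 := by
    have h6 : AEMeasurable (fun z => 2 * ‖m z * G z‖ₑ ^ 2) volume :=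
      (h2.1.aemeasurable.enorm.pow_const 2).const_mul 2
    rw [← lintegral_const_mul' _ _ (by norm_num), ← lintegral_const_mul' _ _ (by norm_num),
      ← lintegral_add_left' h6]
    exact lintegral_mono fun z => sq_add_le _ _
  have h6 : ∫⁻ z, ‖db m z * F z‖ₑ ^ 2 ≤ ENNReal.ofReal ((B * (r ^ n)⁻¹) ^ 2) *
      ∫⁻ z in O, ‖F z‖ₑ ^ 2 := by
    rw [← lintegral_const_mul' _ _ ENNReal.ofReal_ne_top, ← lintegral_indicator hOm]
    refine lintegral_mono_ae ?_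
    filter_upwards [h0] with z hz
    rcases lt_or_ge ‖z - c‖ s with h7 | h7
    · rw [hz h7]
      simp
    · by_cases h8 : z ∈ O
      · rw [indicator_of_mem h8, enorm_mul, mul_pow]
        refine mul_le_mul_left ?_ _
        rw [ENNReal.ofReal_pow (by positivity)]
        refine pow_le_pow_left' ?_ 2
        rw [← ofReal_norm]
        exact ENNReal.ofReal_le_ofReal (hdm z h7)
      · have h9 : db m z = 0 := by
          by_contra hne
          exact h8 (hdO z hne)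
        rw [h9]
        simp
  have h7 : ENNReal.ofReal (64 * (3 / 2 * r) ^ 2) * 2 = ENNReal.ofReal (288 * r ^ 2) := by
    have h8 : (2 : ℝ≥0∞) = ENNReal.ofReal 2 := by norm_num
    rw [h8, ← ENNReal.ofReal_mul (by positivity)]
    congr 1
    ring
  calc _ ≤ ENNReal.ofReal (64 * (3 / 2 * r) ^ 2) *
        (2 * (∫⁻ z, ‖m z * G z‖ₑ ^ 2) + 2 * ∫⁻ z, ‖db m z * F z‖ₑ ^ 2) := mul_le_mul_right h5 _
    _ = ENNReal.ofReal (64 * (3 / 2 * r) ^ 2) * 2 *
        ((∫⁻ z, ‖m z * G z‖ₑ ^ 2) + ∫⁻ z, ‖db m z * F z‖ₑ ^ 2) := by ring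
    _ ≤ _ := by
      rw [h7]
      gcongr

/-- unique continuation in a small disc -/
theorem car {c : ℂ} {r s K : ℝ} (hr : 0 < r) (hs : 0 < s) (hK : 1 ≤ K)
    (hsm : 576 * r ^ 2 * K ^ 2 ≤ 1) {F₁ F₂ G₁ G₂ : ℂ → ℂ}
    (hF₁ : MemLp F₁ 2 (volume.restrict (Metric.ball c (2 * r))))
    (hF₂ : MemLp F₂ 2 (volume.restrict (Metric.ball c (2 * r))))
    (hG₁ : MemLp G₁ 2 (volume.restrict (Metric.ball c (2 * r))))
    (hG₂ : MemLp G₂ 2 (volume.restrict (Metric.ball c (2 * r))))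
    (hW₁ : Wk (Metric.ball c (2 * r)) F₁ G₁) (hW₂ : Wk (Metric.ball c (2 * r)) F₂ G₂)
    (hb₁ : ∀ z, ‖z - c‖ < 2 * r → ‖G₁ z‖ ≤ K * ‖F₂ z‖)
    (hb₂ : ∀ z, ‖z - c‖ < 2 * r → ‖G₂ z‖ ≤ K * ‖F₁ z‖)
    (h₁ : ∀ᵐ z, ‖z - c‖ < s → F₁ z = 0) (h₂ : ∀ᵐ z, ‖z - c‖ < s → F₂ z = 0) :
    ∀ᵐ z, ‖z - c‖ < r → F₁ z = 0 := by
  obtain ⟨B, hB, hw⟩ := weight (c := c) hr hs
  have hK0 : 0 ≤ K := by linarith
  obtain ⟨N, hN⟩ : ∃ N : ℝ≥0∞, N = (∫⁻ z in Metric.ball c (2 * r), ‖F₁ z‖ₑ ^ 2) +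
    ∫⁻ z in Metric.ball c (2 * r), ‖F₂ z‖ₑ ^ 2 := ⟨_, rfl⟩
  have hfin : ∀ {ν : Measure ℂ} {F : ℂ → ℂ}, MemLp F 2 ν → ∫⁻ z, ‖F z‖ₑ ^ 2 ∂ν ≠ ⊤ := by
    intro ν F hF
    have h1 := hF.2
    rw [eLpNorm_lt_top_iff_lintegral_rpow_enorm_lt_top (by norm_num) (by norm_num)] at h1
    simpa using h1.ne
  have hNt : N ≠ ⊤ := by
    rw [hN]
    exact ENNReal.add_ne_top.2 ⟨hfin hF₁, hfin hF₂⟩
  have key : ∀ n : ℕ, ∃ m : ℂ → ℂ,
      (∀ z, s ≤ ‖z - c‖ → ‖z - c‖ ≤ r → ‖m z‖ = (‖z - c‖ ^ n)⁻¹) ∧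
      ∫⁻ z, ‖m z * F₁ z‖ₑ ^ 2 ≤
        ENNReal.ofReal (1152 * r ^ 2 * (B * (r ^ n)⁻¹) ^ 2) * N := by
    intro n
    obtain ⟨m, hm, hms, hm1, hdm⟩ := hw n
    refine ⟨m, hm1, ?_⟩
    have hmc := hcs hms
    have hmO : ∀ z, m z ≠ 0 → z ∈ Metric.ball c (2 * r) := fun z hz => by
      rw [mem_ball_iff_norm]
      exact (hms z hz).trans_lt (by linarith)
    have e1 := one hr hm hms hB hdm hF₁ hG₁ hW₁ h₁
    have e2 := one hr hm hms hB hdm hF₂ hG₂ hW₂ h₂
    obtain ⟨I₁, hI₁⟩ : ∃ I₁ : ℝ≥0∞, I₁ = ∫⁻ z, ‖m z * F₁ z‖ₑ ^ 2 := ⟨_, rfl⟩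
    obtain ⟨I₂, hI₂⟩ : ∃ I₂ : ℝ≥0∞, I₂ = ∫⁻ z, ‖m z * F₂ z‖ₑ ^ 2 := ⟨_, rfl⟩
    have hIt : I₁ + I₂ ≠ ⊤ := by
      rw [hI₁, hI₂]
      exact ENNReal.add_ne_top.2
        ⟨hfin (mul_mem measurableSet_ball hF₁ hm.continuous hmc hmO),
          hfin (mul_mem measurableSet_ball hF₂ hm.continuous hmc hmO)⟩
    have hcmp : ∀ {F G : ℂ → ℂ}, (∀ z, ‖z - c‖ < 2 * r → ‖G z‖ ≤ K * ‖F z‖) →
        ∫⁻ z, ‖m z * G z‖ₑ ^ 2 ≤ ENNReal.ofReal (K ^ 2) * ∫⁻ z, ‖m z * F z‖ₑ ^ 2 := by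
      intro F G hFG
      rw [← lintegral_const_mul' _ _ ENNReal.ofReal_ne_top]
      refine lintegral_mono fun z => ?_
      by_cases hz : m z = 0
      · simp [hz]
      · have h3 := hmO z hz
        rw [mem_ball_iff_norm] at h3
        rw [ENNReal.ofReal_pow hK0, ← mul_pow]
        refine pow_le_pow_left' ?_ 2
        rw [← ofReal_norm, ← ofReal_norm, ← ENNReal.ofReal_mul hK0, norm_mul, norm_mul]
        refine ENNReal.ofReal_le_ofReal ?_
        calc ‖m z‖ * ‖G z‖ ≤ ‖m z‖ * (K * ‖F z‖) :=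
              mul_le_mul_of_nonneg_left (hFG z h3) (norm_nonneg _)
          _ = K * (‖m z‖ * ‖F z‖) := by ring
    have h3 : I₁ + I₂ ≤ (I₁ + I₂) / 2 + ENNReal.ofReal (288 * r ^ 2) *
        (ENNReal.ofReal ((B * (r ^ n)⁻¹) ^ 2) * N) := by
      have h4 : ENNReal.ofReal (288 * r ^ 2) * ENNReal.ofReal (K ^ 2) ≤ 2⁻¹ := by
        rw [← ENNReal.ofReal_mul (by positivity)]
        have h5 : (2 : ℝ≥0∞)⁻¹ = ENNReal.ofReal (1 / 2) := by
          rw [ENNReal.ofReal_div_of_pos (by norm_num)]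
          norm_num
        rw [h5]
        refine ENNReal.ofReal_le_ofReal ?_
        linarith
      calc I₁ + I₂ ≤ ENNReal.ofReal (288 * r ^ 2) * (ENNReal.ofReal (K ^ 2) * I₂ +
            ENNReal.ofReal ((B * (r ^ n)⁻¹) ^ 2) *
              ∫⁻ z in Metric.ball c (2 * r), ‖F₁ z‖ₑ ^ 2) +
            ENNReal.ofReal (288 * r ^ 2) * (ENNReal.ofReal (K ^ 2) * I₁ +
            ENNReal.ofReal ((B * (r ^ n)⁻¹) ^ 2) *
              ∫⁻ z in Metric.ball c (2 * r), ‖F₂ z‖ₑ ^ 2) := by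
            rw [hI₁, hI₂]
            refine add_le_add (e1.trans ?_) (e2.trans ?_)
            · exact mul_le_mul_right (add_le_add_left (hcmp hb₁) _) _
            · exact mul_le_mul_right (add_le_add_left (hcmp hb₂) _) _
        _ = ENNReal.ofReal (288 * r ^ 2) * ENNReal.ofReal (K ^ 2) * (I₁ + I₂) +
            ENNReal.ofReal (288 * r ^ 2) * (ENNReal.ofReal ((B * (r ^ n)⁻¹) ^ 2) * N) := by
            rw [hN]
            ring
        _ ≤ 2⁻¹ * (I₁ + I₂) +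
            ENNReal.ofReal (288 * r ^ 2) * (ENNReal.ofReal ((B * (r ^ n)⁻¹) ^ 2) * N) := by
            gcongr
        _ = _ := by
            rw [ENNReal.div_eq_inv_mul]
    have h4 := absorb hIt h3
    have h5 : I₁ ≤ I₁ + I₂ := le_self_add
    rw [← hI₁]
    refine (h5.trans h4).trans ?_
    rw [← mul_assoc, ← mul_assoc]
    gcongr
    have h6 : (2 : ℝ≥0∞) = ENNReal.ofReal 2 := by norm_num
    rw [h6, ← ENNReal.ofReal_mul (by norm_num), ← ENNReal.ofReal_mul (by positivity)]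
    refine ENNReal.ofReal_le_ofReal ?_
    have : 0 ≤ r ^ 2 * (B * (r ^ n)⁻¹) ^ 2 := by positivity
    nlinarith
  have hsmall : ∀ r' : ℝ, 0 < r' → r' < r → ∀ᵐ z, ‖z - c‖ < r' → F₁ z = 0 := by
    intro r' hr' hrr
    obtain ⟨X, hX⟩ : ∃ X : ℝ≥0∞, X = ∫⁻ z in Metric.ball c r', ‖F₁ z‖ₑ ^ 2 := ⟨_, rfl⟩
    have hX1 : ∀ n : ℕ, X ≤ ENNReal.ofReal ((r' / r) ^ (2 * n)) *
        (ENNReal.ofReal (1152 * r ^ 2 * B ^ 2) * N) := by
      intro n
      obtain ⟨m, hm1, hm2⟩ := key n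
      have h3 : X ≤ ENNReal.ofReal (r' ^ (2 * n)) * ∫⁻ z, ‖m z * F₁ z‖ₑ ^ 2 := by
        rw [hX, ← lintegral_const_mul' _ _ ENNReal.ofReal_ne_top,
          ← lintegral_indicator measurableSet_ball]
        refine lintegral_mono_ae ?_
        filter_upwards [h₁] with z hz
        by_cases h4 : z ∈ Metric.ball c r'
        · rw [indicator_of_mem h4]
          rw [mem_ball_iff_norm] at h4
          rcases lt_or_ge ‖z - c‖ s with h5 | h5
          · rw [hz h5]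
            simp
          · have h6 := hm1 z h5 (by linarith)
            have h7 : 0 < ‖z - c‖ := by linarith
            have h8 : 1 ≤ r' ^ n * ‖m z‖ := by
              rw [h6, ← div_eq_mul_inv, one_le_div (by positivity)]
              exact pow_le_pow_left₀ h7.le h4.le n
            have h9 : ENNReal.ofReal (r' ^ (2 * n)) * ‖m z * F₁ z‖ₑ ^ 2 =
                ENNReal.ofReal (r' ^ n * ‖m z‖) ^ 2 * ‖F₁ z‖ₑ ^ 2 := by
              rw [enorm_mul, mul_pow, ENNReal.ofReal_mul (by positivity), ofReal_norm,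
                mul_pow, ← ENNReal.ofReal_pow (by positivity), ← pow_mul, mul_comm n 2, mul_assoc]
            rw [h9]
            calc ‖F₁ z‖ₑ ^ 2 = 1 ^ 2 * ‖F₁ z‖ₑ ^ 2 := by rw [one_pow, one_mul]
              _ ≤ _ := by
                gcongr
                rw [← ENNReal.ofReal_one]
                exact ENNReal.ofReal_le_ofReal h8
        · rw [indicator_of_notMem h4]
          exact zero_le
      refine h3.trans ((mul_le_mul_right hm2 _).trans (le_of_eq ?_))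
      rw [← mul_assoc, ← mul_assoc, ← ENNReal.ofReal_mul (by positivity),
        ← ENNReal.ofReal_mul (by positivity)]
      congr 2
      rw [div_pow, mul_pow, inv_pow, ← pow_mul, mul_comm n 2]
      field_simp
    have hX0 : X = 0 := by
      have h3 : Tendsto (fun n : ℕ => ENNReal.ofReal ((r' / r) ^ (2 * n)) *
          (ENNReal.ofReal (1152 * r ^ 2 * B ^ 2) * N)) atTop
            (𝓝 (0 * (ENNReal.ofReal (1152 * r ^ 2 * B ^ 2) * N))) := by
        refine ENNReal.Tendsto.mul_const ?_ (Or.inr (ENNReal.mul_ne_top ENNReal.ofReal_ne_top hNt))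
        rw [← ENNReal.ofReal_zero]
        refine ENNReal.tendsto_ofReal ?_
        have h4 : |r' / r| < 1 := by
          rw [abs_of_pos (by positivity), div_lt_one hr]
          exact hrr
        have h5 := tendsto_pow_atTop_nhds_zero_of_abs_lt_one (r := (r' / r) ^ 2) (by
          rw [abs_pow]
          exact pow_lt_one₀ (abs_nonneg _) h4 (by norm_num))
        refine h5.congr fun n => ?_
        rw [← pow_mul]
      rw [zero_mul] at h3
      exact le_antisymm (ge_of_tendsto' h3 hX1) zero_le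
    rw [hX, lintegral_eq_zero_iff' ((hF₁.1.mono_measure (Measure.restrict_mono
      (Metric.ball_subset_ball (by linarith)) le_rfl)).enorm.pow_const 2)] at hX0
    have h3 := (ae_restrict_iff' measurableSet_ball).1 hX0
    filter_upwards [h3] with z hz h4
    have h5 := hz (by rwa [mem_ball_iff_norm])
    simpa using h5
  have h3 : ∀ᵐ z, ∀ k : ℕ, ‖z - c‖ < r * (1 - 1 / ((k : ℝ) + 2)) → F₁ z = 0 := by
    refine ae_all_iff.2 fun k => ?_
    have h4 : 1 / ((k : ℝ) + 2) < 1 := by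
      rw [div_lt_one (by positivity)]
      have : (0 : ℝ) ≤ k := Nat.cast_nonneg k
      linarith
    have h5 : 0 < 1 / ((k : ℝ) + 2) := by positivity
    refine hsmall _ (mul_pos hr (by linarith)) ?_
    nlinarith
  filter_upwards [h3] with z hz h4
  have h5 : Tendsto (fun k : ℕ => r * (1 - 1 / ((k : ℝ) + 2))) atTop (𝓝 (r * (1 - 0))) := by
    refine (Tendsto.sub tendsto_const_nhds ?_).const_mul r
    exact Tendsto.div_atTop tendsto_const_nhds
      (tendsto_atTop_add_const_right _ _ tendsto_natCast_atTop_atTop)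
  rw [sub_zero, mul_one] at h5
  obtain ⟨k, hk⟩ := (h5.eventually_const_lt h4).exists
  exact hz k hk

end Pool.Agent.L5helper74.UC
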