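import Pool.Agent.L5helper74.UC.Hold
import Pool.Agent.Q233.GLV.Fam

/-!
# Unique continuation: elements of the form domain in an isothermal chart
-/

set_option autoImplicit false
set_option linter.unusedSectionVars false
set_option synthInstance.maxHeartbeats 400000

open Set Filter Topology MeasureTheory
open scoped ContDiff ENNReal
open Pool.Agent.Y262.QE Pool.Agent.Y264.QR Pool.Agent.Q233.GLV Pool.Agent.Q233

noncomputable section

namespace Pool.Agent.L5helper74.UC

variable {M : Type} [MetricSpace M] [CompactSpace M] [MeasurableSpace M] [BorelSpace M]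
  {μ : Measure M} [IsFiniteMeasure μ] {D : Data M}

/-- the gradient in the chart `l`, as a complex number -/
def qc (D : Data M) (l : Fin D.N) (F : M → ℝ) (z : ℂ) : ℂ :=
  ⟨fderiv ℝ (fun z => F (D.ψ l z)) z 1, fderiv ℝ (fun z => F (D.ψ l z)) z Complex.I⟩

lemma qc_cont (hD : D.IsSurf μ) {l : Fin D.N} {F : M → ℝ} (hF : D.C1 F) :
    ContinuousOn (qc D l F) (D.T l) := by
  have h1 : ∀ v : ℂ, ContinuousOn (fun z => fderiv ℝ (fun z => F (D.ψ l z)) z v) (D.T l) :=
    fun v => ((hF l).continuousOn_fderiv_of_isOpen (hD.openT l) le_rfl).clm_apply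
      continuousOn_const
  have h2 : ContinuousOn (fun z =>
      ((fderiv ℝ (fun z => F (D.ψ l z)) z 1 : ℝ) : ℂ) +
        ((fderiv ℝ (fun z => F (D.ψ l z)) z Complex.I : ℝ) : ℂ) * Complex.I) (D.T l) :=
    (Complex.continuous_ofReal.comp_continuousOn (h1 1)).add
      ((Complex.continuous_ofReal.comp_continuousOn (h1 Complex.I)).mul continuousOn_const)
  refine h2.congr fun z _ => ?_
  apply Complex.ext <;> simp [qc]

lemma qc_mem (hD : D.IsSurf μ) {l : Fin D.N} {K : Set ℂ} (hK : IsCompact K) (hs : K ⊆ D.T l)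
    {F : M → ℝ} (hF : D.C1 F) : MemLp (qc D l F) 2 (volume.restrict K) := by
  have h1 : ContinuousOn (qc D l F) K := (qc_cont hD hF).mono hs
  obtain ⟨C, hC⟩ := hK.exists_bound_of_continuousOn h1
  have : IsFiniteMeasure (volume.restrict K) :=
    ⟨by rw [Measure.restrict_apply_univ]; exact hK.measure_lt_top⟩
  refine MemLp.of_bound (h1.aestronglyMeasurable hK.isClosed.measurableSet) C ?_
  filter_upwards [ae_restrict_mem hK.isClosed.measurableSet] with z hz
  exact hC z hz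

lemma qc_le (hD : D.IsSurf μ) {l : Fin D.N}
    (hc : ∀ z ∈ D.T l, ∃ c : ℝ, ∀ v, ‖D.A l z v‖ = c * ‖v‖) {K : Set ℂ} (hK : IsCompact K)
    (hs : K ⊆ D.T l) {F G : M → ℝ} (hF : D.C1 F) (hG : D.C1 G) :
    ∫⁻ z in K, ‖qc D l F z - qc D l G z‖ₑ ^ 2 ≤ ∫⁻ x, ‖D.gr F x - D.gr G x‖ₑ ^ 2 ∂μ := by
  obtain ⟨hH, hgr⟩ := Pool.Agent.Y708.QE.gradient_lin hD hF hG 1 (-1)
  obtain ⟨H, hHe⟩ : ∃ H : M → ℝ, H = fun x => 1 * F x + (-1) * G x := ⟨_, rfl⟩
  rw [← hHe] at hH hgr
  have hgr2 : ∀ x, D.gr H x = D.gr F x - D.gr G x := fun x => by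
    rw [hgr x, one_smul, neg_one_smul, sub_eq_add_neg]
  have hq : ∀ z ∈ D.T l, qc D l H z = qc D l F z - qc D l G z := by
    intro z hz
    have hd : ∀ {F : M → ℝ}, D.C1 F → DifferentiableAt ℝ (fun z => F (D.ψ l z)) z := fun hF =>
      ((hF l).differentiableOn (by norm_num)).differentiableAt ((hD.openT l).mem_nhds hz)
    have h1 : fderiv ℝ (fun z => H (D.ψ l z)) z =
        fderiv ℝ (fun z => F (D.ψ l z)) z - fderiv ℝ (fun z => G (D.ψ l z)) z := by
      rw [← fderiv_fun_sub (hd hF) (hd hG)]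
      congr 1
      funext z
      rw [hHe]
      ring
    unfold qc
    rw [h1]
    apply Complex.ext <;> simp
  have hn : ∀ z ∈ K, ‖qc D l F z - qc D l G z‖ₑ ^ 2 =
      ‖D.gr H (D.ψ l z)‖ₑ ^ 2 * ENNReal.ofReal |(D.A l z).det| := by
    intro z hz
    rw [← hq z (hs hz)]
    have h1 := gr_K hD hs (fun z hz => hc z (hs hz)) hH (f := fun z => H (D.ψ l z))
      (fun _ _ => rfl) hH hz
    rw [real_inner_self_eq_norm_sq] at h1
    have h2 : ‖qc D l H z‖ ^ 2 = ‖D.gr H (D.ψ l z)‖ ^ 2 * |(D.A l z).det| := by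
      rw [h1, ← Complex.normSq_eq_norm_sq, Complex.normSq_apply]
      rfl
    have h3 : ∀ x : ℂ, ‖x‖ₑ ^ 2 = ENNReal.ofReal (‖x‖ ^ 2) := fun x => by
      rw [ENNReal.ofReal_pow (norm_nonneg _), ofReal_norm]
    rw [h3, h3, h2, ENNReal.ofReal_mul (by positivity)]
  have hgm : Measurable (D.gr H) := Pool.Agent.Y708.QE.gr_meas hD hH
  calc ∫⁻ z in K, ‖qc D l F z - qc D l G z‖ₑ ^ 2
      = ∫⁻ z in K, ‖D.gr H (D.ψ l z)‖ₑ ^ 2 * ENNReal.ofReal |(D.A l z).det| :=
        setLIntegral_congr_fun hK.isClosed.measurableSet hn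
    _ ≤ ∫⁻ z in D.T l, ‖D.gr H (D.ψ l z)‖ₑ ^ 2 * ENNReal.ofReal |(D.A l z).det| :=
        lintegral_mono_set hs
    _ = ∫⁻ x in D.U l, ‖D.gr H x‖ₑ ^ 2 ∂μ :=
        ((Pool.Agent.Y960.QE.int_chart M μ D hD l).1 _ (hgm.enorm.pow_const 2)).symm
    _ ≤ ∫⁻ x, ‖D.gr H x‖ₑ ^ 2 ∂μ := setLIntegral_le_lintegral _ _
    _ = _ := by simp only [hgr2]

/-- norms in `L²` -/
lemma nrm {Ω E : Type} [MeasurableSpace Ω] [NormedAddCommGroup E] {ν : Measure Ω}
    {f : Ω → E} : eLpNorm f 2 ν = (∫⁻ x, ‖f x‖ₑ ^ 2 ∂ν) ^ (1 / 2 : ℝ) := by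
  rw [eLpNorm_eq_lintegral_rpow_enorm_toReal (by norm_num) (by norm_num)]
  simp

lemma toLp_le {Ω Ω' E E' : Type} [MeasurableSpace Ω] [MeasurableSpace Ω'] [NormedAddCommGroup E]
    [NormedAddCommGroup E'] {ν : Measure Ω} {ν' : Measure Ω'} {f g : Ω → E} (hf : MemLp f 2 ν)
    (hg : MemLp g 2 ν) {f' g' : Lp E' 2 ν'} {F G : Ω' → E'} (hF : (f' : Ω' → E') =ᵐ[ν'] F)
    (hG : (g' : Ω' → E') =ᵐ[ν'] G)
    (h : ∫⁻ x, ‖f x - g x‖ₑ ^ 2 ∂ν ≤ ∫⁻ x, ‖F x - G x‖ₑ ^ 2 ∂ν') :
    ‖hf.toLp f - hg.toLp g‖ ≤ ‖f' - g'‖ := by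
  rw [← MemLp.toLp_sub, Lp.norm_toLp, Lp.norm_def]
  refine ENNReal.toReal_mono (Lp.eLpNorm_ne_top _) ?_
  have h1 : eLpNorm (⇑(f' - g')) 2 ν' = eLpNorm (fun x => F x - G x) 2 ν' := by
    refine eLpNorm_congr_ae ?_
    filter_upwards [Lp.coeFn_sub f' g', hF, hG] with x h1 h2 h3
    rw [h1, Pi.sub_apply, h2, h3]
  rw [h1, nrm, nrm]
  exact ENNReal.rpow_le_rpow h (by norm_num)

/-- an element of the form domain in a chart -/
theorem chart (hD : D.IsSurf μ) {l : Fin D.N}
    (hc : ∀ z ∈ D.T l, ∃ c : ℝ, ∀ v, ‖D.A l z v‖ = c * ‖v‖) {K : Set ℂ} (hK : IsCompact K)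
    (hs : K ⊆ D.T l) {i : HF D μ →L[ℝ] Lp ℝ 2 μ} {a : HF D μ →L[ℝ] HF D μ →L[ℝ] ℝ}
    {b : C(M, ℝ) → HF D μ →L[ℝ] HF D μ →L[ℝ] ℝ} (hi : ∀ v, i v = v.1.fst)
    (ha : ∀ u v, a u v = inner ℝ u.1.snd v.1.snd) (hB : IsB μ i b) {φ : C(M, ℝ)} {v : HF D μ}
    {lam : ℝ} (hv : ∀ w, a v w = lam * b φ v w) :
    MemLp (fun z => (i v : M → ℝ) (D.ψ l z)) 2 (volume.restrict K) ∧
      ∃ P : ℂ → ℂ, MemLp P 2 (volume.restrict K) ∧
      ∀ η : ℂ → ℝ, ContDiff ℝ ∞ η → (∀ z, z ∉ K → η z = 0) →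
        (∫ z in K, (i v : M → ℝ) (D.ψ l z) * fderiv ℝ η z 1 = -∫ z in K, (P z).re * η z) ∧
        (∫ z in K, (i v : M → ℝ) (D.ψ l z) * fderiv ℝ η z Complex.I =
          -∫ z in K, (P z).im * η z) ∧
        ∫ z in K, ((P z).re * fderiv ℝ η z 1 + (P z).im * fderiv ℝ η z Complex.I) =
          lam * ∫ z in K, Real.exp (φ (D.ψ l z)) * |(D.A l z).det| *
            ((i v : M → ℝ) (D.ψ l z) * η z) := by
  have hKm : MeasurableSet K := hK.isClosed.measurableSet
  obtain ⟨ν, hν⟩ : ∃ ν : Measure ℂ, ν = volume.restrict K := ⟨_, rfl⟩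
  have hνf : IsFiniteMeasure ν := by
    rw [hν]
    exact ⟨by rw [Measure.restrict_apply_univ]; exact hK.measure_lt_top⟩
  -- the function in the chart
  have hU : MemLp (fun z => (i v : M → ℝ) (D.ψ l z)) 2 (volume.restrict K) := by
    have h1 : StronglyMeasurable (i v : M → ℝ) := Lp.stronglyMeasurable (i v)
    have hψ : AEMeasurable (D.ψ l) (volume.restrict K) :=
      ((hD.contψ l).mono hs).aemeasurable hKm
    refine (memLp_two_iff_integrable_sq
      (h1.measurable.comp_aemeasurable hψ).aestronglyMeasurable).2 ?_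
    exact integ_K hD hK hs (h1.pow 2) (Lp.memLp (i v)).integrable_sq
  refine ⟨hU, ?_⟩
  -- approximation
  obtain ⟨F, f, hF, hf⟩ := (tDenF M μ D hD).2 v.1 v.2
  have hft : Tendsto (fun k => (f k).snd) atTop (𝓝 v.1.snd) := snd_tend hf
  have hfst : Tendsto (fun k => (f k).fst) atTop (𝓝 v.1.fst) := by
    rw [tendsto_iff_norm_sub_tendsto_zero] at hf ⊢
    exact squeeze_zero (fun _ => norm_nonneg _) (fun k => (parts_le (f k - v.1)).1) hf
  have hq : ∀ k, MemLp (qc D l (F k)) 2 ν := fun k => by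
    rw [hν]
    exact qc_mem hD hK hs (hF k).1
  obtain ⟨Q, hQ⟩ : ∃ Q : ℕ → Lp ℂ 2 ν, ∀ k, Q k = (hq k).toLp _ := ⟨_, fun _ => rfl⟩
  have hQle : ∀ k m, ‖Q k - Q m‖ ≤ ‖(f k).snd - (f m).snd‖ := by
    intro k m
    rw [hQ, hQ]
    refine toLp_le (hq k) (hq m) (hF k).2.2.2 (hF m).2.2.2 ?_
    rw [hν]
    exact qc_le hD hc hK hs (hF k).1 (hF m).1
  have hQc : CauchySeq Q := by
    rw [Metric.cauchySeq_iff]
    intro ε hε
    obtain ⟨N, hN⟩ := Metric.cauchySeq_iff.1 hft.cauchySeq ε hε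
    refine ⟨N, fun m hm n hn => ?_⟩
    have := hN m hm n hn
    rw [dist_eq_norm] at this ⊢
    exact (hQle m n).trans_lt this
  obtain ⟨P, hP⟩ := cauchySeq_tendsto_of_complete hQc
  refine ⟨P, by rw [← hν]; exact Lp.memLp P, fun η hη hη0 => ?_⟩
  have hoff : ∀ v : ℂ, ∀ z, z ∉ K → fderiv ℝ η z v = 0 := fun v z hz => by
    rw [off_fderiv hK.isClosed hη0 hz]
    simp
  have hηd : ∀ v : ℂ, Continuous fun z => fderiv ℝ η z v := fun v =>
    (hη.continuous_fderiv (by simp)).clm_apply continuous_const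
  -- limits
  have lim1 : ∀ g : ℂ → ℂ, Continuous g →
      Tendsto (fun k => ∫ z in K, inner ℝ (qc D l (F k) z) (g z)) atTop
        (𝓝 (∫ z in K, inner ℝ ((P : ℂ → ℂ) z) (g z))) := by
    intro g hg
    have hgm : MemLp g 2 ν := by
      obtain ⟨C, hC⟩ := hK.exists_bound_of_continuousOn hg.continuousOn
      refine MemLp.of_bound hg.aestronglyMeasurable C ?_
      rw [hν]
      filter_upwards [ae_restrict_mem hKm] with z hz
      exact hC z hz
    have h1 : Tendsto (fun k => inner ℝ (Q k) (hgm.toLp g)) atTop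
        (𝓝 (inner ℝ P (hgm.toLp g))) :=
      (Continuous.inner continuous_id continuous_const).tendsto P |>.comp hP
    have h2 : inner ℝ P (hgm.toLp g) = ∫ z in K, inner ℝ ((P : ℂ → ℂ) z) (g z) := by
      rw [L2.inner_def, ← hν]
      refine integral_congr_ae ?_
      filter_upwards [hgm.coeFn_toLp] with z hz
      rw [hz]
    rw [h2] at h1
    refine h1.congr fun k => ?_
    rw [L2.inner_def, ← hν, hQ]
    refine integral_congr_ae ?_
    filter_upwards [hgm.coeFn_toLp, (hq k).coeFn_toLp] with z hz1 hz2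
    rw [hz1, hz2]
  have lim2 : ∀ g : ℂ → ℝ, Continuous g → (∀ z, z ∉ K → g z = 0) →
      Tendsto (fun k => ∫ z in K, F k (D.ψ l z) * g z) atTop
        (𝓝 (∫ z in K, (i v : M → ℝ) (D.ψ l z) * g z)) := by
    intro g hg hg0
    have hdet : ∀ z ∈ D.T l, |(D.A l z).det| ≠ 0 := fun z hz => (abs_pos.2 (hD.det l z hz)).ne'
    obtain ⟨h, hh1, hh2⟩ := cont_lift hD hK hs (w := fun z => g z / |(D.A l z).det|)
      (hg.continuousOn.div (Pool.Agent.Y960.QE.contDet hD l) hdet)
      (fun z hz => by rw [hg0 z hz, zero_div])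
    have hhm : MemLp h 2 μ := by
      refine MemLp.of_bound h.continuous.aestronglyMeasurable ‖h‖ ?_
      exact Eventually.of_forall fun x => h.norm_coe_le_norm x
    have hkey : ∀ {w : Lp ℝ 2 μ} {W : M → ℝ}, (w : M → ℝ) =ᵐ[μ] W → AEStronglyMeasurable W μ →
        inner ℝ w (hhm.toLp h) = ∫ z in K, W (D.ψ l z) * g z := by
      intro w W hw hW
      have h3 : inner ℝ w (hhm.toLp h) = ∫ x, W x * h x ∂μ := by
        rw [L2.inner_def]
        refine integral_congr_ae ?_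
        filter_upwards [hhm.coeFn_toLp, hw] with x hx1 hx2
        rw [hx1, hx2]
        simp [mul_comm]
      rw [h3, int_KK hD hK hs (g := fun x => W x * h x)
        (hW.mul h.continuous.aestronglyMeasurable) (fun x hx => by
        rw [hh2 x hx, mul_zero])]
      refine setIntegral_congr_fun hKm fun z hz => ?_
      show W (D.ψ l z) * h (D.ψ l z) * |(D.A l z).det| = W (D.ψ l z) * g z
      rw [hh1 z (hs hz)]
      have := hdet z (hs hz)
      field_simp
    have h1 : Tendsto (fun k => inner ℝ ((f k).fst) (hhm.toLp h)) atTop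
        (𝓝 (inner ℝ v.1.fst (hhm.toLp h))) :=
      (Continuous.inner continuous_id continuous_const).tendsto v.1.fst |>.comp hfst
    rw [← hi v, hkey (w := i v) (W := i v) Filter.EventuallyEq.rfl
      (Lp.stronglyMeasurable (i v)).aestronglyMeasurable] at h1
    refine h1.congr fun k => ?_
    exact hkey (hF k).2.2.1
      (Pool.Agent.Y708.QE.C1_cont hD (hF k).1).aestronglyMeasurable
  -- integration by parts
  have ibp : ∀ v : ℂ, ∀ k, ∫ z in K, F k (D.ψ l z) * fderiv ℝ η z v =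
      -∫ z in K, fderiv ℝ (fun z => F k (D.ψ l z)) z v * η z := by
    intro v k
    have h1 := CPC.ibp0 hK (hD.openT l) hs (P := η) (P' := fderiv ℝ η)
      (fun z => (hη.differentiable (by simp) z).hasFDerivAt) hηd hη0 ((hF k).1 l) v
    have hFc : ContinuousOn (fun z => F k (D.ψ l z)) K := ((hF k).1 l).continuousOn.mono hs
    have hFd : ContinuousOn (fun z => fderiv ℝ (fun z => F k (D.ψ l z)) z v) K :=
      ((((hF k).1 l).continuousOn_fderiv_of_isOpen (hD.openT l) le_rfl).mono hs).clm_apply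
        continuousOn_const
    have i1 : IntegrableOn (fun z => fderiv ℝ η z v * F k (D.ψ l z)) K :=
      ((hηd v).continuousOn.mul hFc).integrableOn_compact hK
    have i2 : IntegrableOn (fun z => η z * fderiv ℝ (fun z => F k (D.ψ l z)) z v) K :=
      (hη.continuous.continuousOn.mul hFd).integrableOn_compact hK
    rw [integral_add i1 i2] at h1
    have e1 : ∫ z in K, F k (D.ψ l z) * fderiv ℝ η z v =
        ∫ z in K, fderiv ℝ η z v * F k (D.ψ l z) :=
      integral_congr_ae (Eventually.of_forall fun z => mul_comm _ _)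
    have e2 : ∫ z in K, fderiv ℝ (fun z => F k (D.ψ l z)) z v * η z =
        ∫ z in K, η z * fderiv ℝ (fun z => F k (D.ψ l z)) z v :=
      integral_congr_ae (Eventually.of_forall fun z => mul_comm _ _)
    rw [e1, e2]
    linarith
  refine ⟨?_, ?_, ?_⟩
  · have h1 := lim2 _ (hηd 1) (hoff 1)
    have h2 := (lim1 (fun z => ((η z : ℝ) : ℂ)) (Complex.continuous_ofReal.comp hη.continuous)).neg
    have h3 : (fun k => ∫ z in K, F k (D.ψ l z) * fderiv ℝ η z 1) =
        fun k => -∫ z in K, inner ℝ (qc D l (F k) z) ((η z : ℝ) : ℂ) := by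
      funext k
      rw [ibp]
      congr 1
      refine integral_congr_ae (Eventually.of_forall fun z => ?_)
      simp only [qc, Pool.Agent.Y708.QE.inner_re]
      simp
    rw [h3] at h1
    rw [tendsto_nhds_unique h1 h2]
    congr 1
    refine integral_congr_ae (Eventually.of_forall fun z => ?_)
    simp only [Pool.Agent.Y708.QE.inner_re]
    simp
  · have h1 := lim2 _ (hηd Complex.I) (hoff Complex.I)
    have h2 := (lim1 (fun z => ((η z : ℝ) : ℂ) * Complex.I)
      ((Complex.continuous_ofReal.comp hη.continuous).mul continuous_const)).neg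
    have h3 : (fun k => ∫ z in K, F k (D.ψ l z) * fderiv ℝ η z Complex.I) =
        fun k => -∫ z in K, inner ℝ (qc D l (F k) z) (((η z : ℝ) : ℂ) * Complex.I) := by
      funext k
      rw [ibp]
      congr 1
      refine integral_congr_ae (Eventually.of_forall fun z => ?_)
      simp only [qc, Pool.Agent.Y708.QE.inner_re]
      simp
    rw [h3] at h1
    rw [tendsto_nhds_unique h1 h2]
    congr 1
    refine integral_congr_ae (Eventually.of_forall fun z => ?_)
    simp only [Pool.Agent.Y708.QE.inner_re]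
    simp
  · obtain ⟨H, hH1, hH2, hH3⟩ := lift_K hD hK hs (hη.of_le (by norm_cast)) hη0
    obtain ⟨w₀, hw₀, hw1, hw2⟩ := (tDenF M μ D hD).1 H hH1
    obtain ⟨w, hw⟩ : ∃ w : HF D μ, w = ⟨w₀, hw₀⟩ := ⟨_, rfl⟩
    have hHc := Pool.Agent.Y708.QE.C1_cont hD hH1
    have h1 := hv w
    rw [ha, hB] at h1
    have h2 : ∫ x, Real.exp (φ x) * ((i v : M → ℝ) x * (i w : M → ℝ) x) ∂μ =
        ∫ z in K, Real.exp (φ (D.ψ l z)) * |(D.A l z).det| *
            ((i v : M → ℝ) (D.ψ l z) * η z) := by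
      have h3 : ∫ x, Real.exp (φ x) * ((i v : M → ℝ) x * (i w : M → ℝ) x) ∂μ =
          ∫ x, Real.exp (φ x) * ((i v : M → ℝ) x * H x) ∂μ := by
        refine integral_congr_ae ?_
        have h4 : (i w : M → ℝ) =ᵐ[μ] H := by
          rw [hi, hw]
          exact hw1
        filter_upwards [h4] with x hx
        rw [hx]
      rw [h3, int_KK hD hK hs]
      · refine setIntegral_congr_fun hKm fun z hz => ?_
        show Real.exp (φ (D.ψ l z)) * ((i v : M → ℝ) (D.ψ l z) * H (D.ψ l z)) *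
          |(D.A l z).det| = _
        rw [hH2 z (hs hz)]
        ring
      · refine AEStronglyMeasurable.mul ?_ ((Lp.stronglyMeasurable (i v)).aestronglyMeasurable.mul
          hHc.aestronglyMeasurable)
        exact (Real.continuous_exp.comp φ.continuous).aestronglyMeasurable
      · intro x hx
        rw [hH3 x hx, mul_zero, mul_zero]
    rw [h2] at h1
    rw [← h1]
    have h4 : Tendsto (fun k => inner ℝ ((f k).snd) w.1.snd) atTop
        (𝓝 (inner ℝ v.1.snd w.1.snd)) :=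
      (Continuous.inner continuous_id continuous_const).tendsto v.1.snd |>.comp hft
    have h5 := lim1 (fun z => ((fderiv ℝ η z 1 : ℝ) : ℂ) +
      ((fderiv ℝ η z Complex.I : ℝ) : ℂ) * Complex.I)
      ((Complex.continuous_ofReal.comp (hηd 1)).add
        ((Complex.continuous_ofReal.comp (hηd Complex.I)).mul continuous_const))
    have h6 : (fun k => inner ℝ ((f k).snd) w.1.snd) = fun k => ∫ z in K, inner ℝ
        (qc D l (F k) z) (((fderiv ℝ η z 1 : ℝ) : ℂ) +
          ((fderiv ℝ η z Complex.I : ℝ) : ℂ) * Complex.I) := by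
      funext k
      have h7 := dir_K hD hK hs (fun z hz => hc z (hs hz)) hH1 hH2 hH3 (hF k).1
        (g := fun _ => 1) aestronglyMeasurable_const
      have h8 : inner ℝ ((f k).snd) w.1.snd = ∫ x, 1 * inner ℝ (D.gr H x) (D.gr (F k) x) ∂μ := by
        rw [L2.inner_def]
        refine integral_congr_ae ?_
        have h9 : (w.1.snd : M → ℂ) =ᵐ[μ] D.gr H := by
          rw [hw]
          exact hw2
        filter_upwards [h9, (hF k).2.2.2] with x hx1 hx2
        rw [hx1, hx2, one_mul, real_inner_comm]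
      rw [h8, h7]
      refine integral_congr_ae (Eventually.of_forall fun z => ?_)
      simp only [qc, Pool.Agent.Y708.QE.inner_re]
      simp
      ring
    rw [h6] at h4
    rw [tendsto_nhds_unique h4 h5]
    refine integral_congr_ae (Eventually.of_forall fun z => ?_)
    simp only [Pool.Agent.Y708.QE.inner_re]
    simp

end Pool.Agent.L5helper74.UC
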