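import Pool.Agent.L5helper74.UC.Mol

/-!
# Unique continuation: the estimate for weak solutions of `∂̄ F = G`
-/

set_option autoImplicit false

open Set Filter Topology MeasureTheory
open scoped ContDiff ENNReal Convolution

noncomputable section

namespace Pool.Agent.L5helper74.UC

open Pool.Agent.Q73.NL (db)

lemma tsup {g : ℂ → ℂ} {c : ℂ} {s : ℝ} (hs : ∀ z, g z ≠ 0 → ‖z - c‖ ≤ s) :
    tsupport g ⊆ Metric.closedBall c s := by
  refine closure_minimal (fun z hz => ?_) Metric.isClosed_closedBall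
  rw [mem_closedBall_iff_norm]
  exact hs z hz

lemma hcs {g : ℂ → ℂ} {c : ℂ} {s : ℝ} (hs : ∀ z, g z ≠ 0 → ‖z - c‖ ≤ s) :
    HasCompactSupport g :=
  (isCompact_closedBall c s).of_isClosed_subset (isClosed_tsupport g) (tsup hs)

lemma db_cont {g : ℂ → ℂ} (hg : ContDiff ℝ ∞ g) : Continuous (db g) := by
  have : Continuous (fderiv ℝ g) := hg.continuous_fderiv (by simp)
  unfold db
  fun_prop

lemma db_hcs {g : ℂ → ℂ} (hc : HasCompactSupport g) : HasCompactSupport (db g) := by
  refine (hc.fderiv (𝕜 := ℝ)).mono fun z hz => ?_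
  rw [Function.mem_support] at hz ⊢
  intro h0
  apply hz
  unfold db
  rw [h0]
  simp

lemma sq_lint {g : ℂ → ℂ} (hg : Continuous g) (hc : HasCompactSupport g) :
    ENNReal.ofReal (∫ z, ‖g z‖ ^ 2) = ∫⁻ z, ‖g z‖ₑ ^ 2 := by
  have hi : Integrable fun z => ‖g z‖ ^ 2 := by
    refine (hg.norm.pow 2).integrable_of_hasCompactSupport (hc.mono fun z hz => ?_)
    rw [Function.mem_support] at hz ⊢
    intro h0
    apply hz
    simp [h0]
  rw [ofReal_integral_eq_lintegral_ofReal hi (Eventually.of_forall fun z => by positivity)]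
  refine lintegral_congr fun z => ?_
  rw [ENNReal.ofReal_pow (norm_nonneg _), ofReal_norm]

/-- the estimate for smooth functions -/
lemma smooth_est {g : ℂ → ℂ} (hg : ContDiff ℝ ∞ g) {c : ℂ} {s R : ℝ} (hR : 0 < R) (hsR : s < R)
    (hs : ∀ z, g z ≠ 0 → ‖z - c‖ ≤ s) :
    ∫⁻ z, ‖g z‖ₑ ^ 2 ≤ ENNReal.ofReal (16 * R ^ 2) * ∫⁻ z, ‖db g z‖ₑ ^ 2 := by
  obtain ⟨f, hf⟩ : ∃ f : ℂ → ℂ, f = fun z => g (z + c) := ⟨_, rfl⟩
  have hf1 : ContDiff ℝ ∞ f := by
    rw [hf]
    exact hg.comp (contDiff_id.add contDiff_const)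
  have hf2 : tsupport f ⊆ Metric.ball 0 R := by
    refine (tsup (c := 0) (s := s) fun z hz => ?_).trans (Metric.closedBall_subset_ball hsR)
    rw [sub_zero]
    have := hs (z + c) (by rwa [hf] at hz)
    rwa [add_sub_cancel_right] at this
  have h1 := Pool.Agent.Q73.NL.tu1 R f hR hf1 hf2
  have hdf : ∀ z, db f z = db g (z + c) := by
    intro z
    unfold db
    rw [hf]
    simp only [fderiv_comp_add_right]
  have h2 : ∫ z, ‖f z‖ ^ 2 = ∫ z, ‖g z‖ ^ 2 := by
    rw [hf]
    exact integral_add_right_eq_self (fun z => ‖g z‖ ^ 2) c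
  have h3 : ∫ z, ‖db f z‖ ^ 2 = ∫ z, ‖db g z‖ ^ 2 := by
    simp only [hdf]
    exact integral_add_right_eq_self (fun z => ‖db g z‖ ^ 2) c
  rw [h2, h3] at h1
  have hc := hcs hs
  rw [← sq_lint hg.continuous hc, ← sq_lint (db_cont hg) (db_hcs hc),
    ← ENNReal.ofReal_mul (by positivity)]
  exact ENNReal.ofReal_le_ofReal h1

/-- the estimate for weak solutions -/
theorem est {F G : ℂ → ℂ} {c : ℂ} {r : ℝ} (hr : 0 < r) (hF : MemLp F 2 volume)
    (hG : MemLp G 2 volume) (hs : ∀ z, F z ≠ 0 → ‖z - c‖ ≤ r) (h : Wk univ F G) :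
    ∫⁻ z, ‖F z‖ₑ ^ 2 ≤ ENNReal.ofReal (64 * r ^ 2) * ∫⁻ z, ‖G z‖ₑ ^ 2 := by
  obtain ⟨φ, h1, h2, h3, h4, h5, h6⟩ := mollifier hr
  have hFl : LocallyIntegrable F volume := hF.locallyIntegrable (by norm_num)
  have hk : ∀ k, ∫⁻ z, ‖∫ t, φ k t • F (z - t)‖ₑ ^ 2 ≤
      ENNReal.ofReal (64 * r ^ 2) * ∫⁻ z, ‖G z‖ₑ ^ 2 := by
    intro k
    obtain ⟨h7, h8⟩ := cv_db (h1 k) (h2 k) hFl
    have h9 : ∀ z, (∫ t, φ k t • F (z - t)) ≠ 0 → ‖z - c‖ ≤ r + r / 2 := by
      intro z hz
      by_contra hlt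
      apply hz
      refine integral_eq_zero_of_ae (Eventually.of_forall fun t => ?_)
      by_cases ht : φ k t = 0
      · simp [ht]
      · have h10 := h5 k t ht
        have h11 : F (z - t) = 0 := by
          by_contra hne
          have h12 := hs _ hne
          apply hlt
          calc ‖z - c‖ = ‖(z - t - c) + t‖ := by congr 1; ring
            _ ≤ ‖z - t - c‖ + ‖t‖ := norm_add_le _ _
            _ ≤ r + r / 2 := add_le_add h12 h10.le
        simp [h11]
    have h10 := smooth_est h7 (c := c) (s := r + r / 2) (R := 2 * r) (by positivity)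
      (by linarith) h9
    refine h10.trans ?_
    simp only [h8 G h]
    have h11 : 16 * (2 * r) ^ 2 = 64 * r ^ 2 := by ring
    rw [h11]
    exact mul_le_mul_right (young (h1 k).continuous (h3 k) (h4 k) hG.1) _
  have h7 : ∀ᵐ z, Tendsto (fun k => ‖∫ t, φ k t • F (z - t)‖ₑ ^ 2) atTop (𝓝 (‖F z‖ₑ ^ 2)) := by
    filter_upwards [h6 F hFl] with z hz
    exact ((ENNReal.continuous_pow 2).tendsto _).comp hz.enorm
  calc ∫⁻ z, ‖F z‖ₑ ^ 2 = ∫⁻ z, liminf (fun k => ‖∫ t, φ k t • F (z - t)‖ₑ ^ 2) atTop :=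
        lintegral_congr_ae (h7.mono fun z hz => hz.liminf_eq.symm)
    _ ≤ liminf (fun k => ∫⁻ z, ‖∫ t, φ k t • F (z - t)‖ₑ ^ 2) atTop := by
        refine lintegral_liminf_le fun k => ?_
        have := (cv_db (h1 k) (h2 k) hFl).1.continuous
        exact this.measurable.enorm.pow_const 2
    _ ≤ _ := by
        refine (liminf_le_liminf (Eventually.of_forall hk)).trans ?_
        simp

/-- products with smooth functions -/
lemma Wk_mul {O : Set ℂ} {F G : ℂ → ℂ} (h : Wk O F G) {m : ℂ → ℂ} (hm : ContDiff ℝ ∞ m)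
    (hmc : HasCompactSupport m) (hmO : tsupport m ⊆ O) (hF : IntegrableOn F (tsupport m))
    (hG : IntegrableOn G (tsupport m)) :
    Wk univ (fun z => m z * F z) (fun z => m z * G z + db m z * F z) := by
  intro η hη hηc _
  obtain ⟨χ, hχ⟩ : ∃ χ : ℂ → ℂ, χ = fun z => m z * η z := ⟨_, rfl⟩
  have hχ1 : ContDiff ℝ ∞ χ := by
    rw [hχ]
    exact hm.mul hη
  have hχ2 : HasCompactSupport χ := by
    rw [hχ]
    exact hmc.mul_right
  have hχ3 : tsupport χ ⊆ tsupport m := by
    refine closure_mono fun z hz => ?_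
    rw [Function.mem_support] at hz ⊢
    intro h0
    apply hz
    rw [hχ]
    simp only [h0, zero_mul]
  have hχ4 : ∀ z, db χ z = db m z * η z + m z * db η z := by
    intro z
    have h1 : HasFDerivAt χ (m z • fderiv ℝ η z + η z • fderiv ℝ m z) z := by
      rw [hχ]
      exact ((hm.differentiable (by simp)) z).hasFDerivAt.mul
        ((hη.differentiable (by simp)) z).hasFDerivAt
    unfold db
    rw [h1.fderiv]
    simp
    ring
  have h1 := h χ hχ1 hχ2 (hχ3.trans hmO)
  have hint : ∀ {K : ℂ → ℂ} {F : ℂ → ℂ}, IntegrableOn F (tsupport m) → Continuous K →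
      (∀ z, z ∉ tsupport m → K z = 0) → Integrable fun z => K z * F z := by
    intro K F hF hK hK0
    have h2 : HasCompactSupport K := hmc.mono' fun z hz => by
      by_contra hn
      exact hz (hK0 z hn)
    obtain ⟨C, hC⟩ := hK.bounded_above_of_compact_support h2
    have h3 : Integrable fun z => K z * (tsupport m).indicator F z := by
      refine Integrable.bdd_mul ?_ hK.aestronglyMeasurable (Eventually.of_forall hC)
      exact hF.integrable_indicator hmc.isCompact.isClosed.measurableSet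
    refine h3.congr (Eventually.of_forall fun z => ?_)
    by_cases hz : z ∈ tsupport m
    · simp [indicator_of_mem hz]
    · simp [hK0 z hz]
  have hm0 : ∀ z, z ∉ tsupport m → m z = 0 := fun z hz => image_eq_zero_of_notMem_tsupport hz
  have hdm0 : ∀ z, z ∉ tsupport m → db m z = 0 := by
    intro z hz
    have h2 : fderiv ℝ m z = 0 := by
      by_contra hne
      exact hz (support_fderiv_subset ℝ hne)
    unfold db
    rw [h2]
    simp
  have i1 : Integrable fun z => (m z * db η z) * F z :=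
    hint hF (hm.continuous.mul (db_cont hη)) fun z hz => by rw [hm0 z hz, zero_mul]
  have i2 : Integrable fun z => (db m z * η z) * F z :=
    hint hF ((db_cont hm).mul hη.continuous) fun z hz => by rw [hdm0 z hz, zero_mul]
  have i3 : Integrable fun z => (m z * η z) * G z :=
    hint hG (hm.continuous.mul hη.continuous) fun z hz => by rw [hm0 z hz, zero_mul]
  have e1 : ∫ z, F z * db χ z = (∫ z, (m z * db η z) * F z) + ∫ z, (db m z * η z) * F z := by
    rw [← integral_add i1 i2]
    refine integral_congr_ae (Eventually.of_forall fun z => ?_)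
    simp only [hχ4]
    ring
  have e2 : ∫ z, G z * χ z = ∫ z, (m z * η z) * G z := by
    refine integral_congr_ae (Eventually.of_forall fun z => ?_)
    simp only [hχ]
    ring
  have e3 : ∫ z, (m z * G z + db m z * F z) * η z =
      (∫ z, (m z * η z) * G z) + ∫ z, (db m z * η z) * F z := by
    rw [← integral_add i3 i2]
    refine integral_congr_ae (Eventually.of_forall fun z => ?_)
    simp only
    ring
  have e4 : ∫ z, (m z * F z) * db η z = ∫ z, (m z * db η z) * F z := by
    refine integral_congr_ae (Eventually.of_forall fun z => ?_)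
    simp only
    ring
  rw [e1, e2] at h1
  rw [e3, e4]
  linear_combination h1

end Pool.Agent.L5helper74.UC
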