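import Pool.Agent.L5helper74.UC.Est

/-!
# Unique continuation: Hölder estimate for smooth functions
-/

set_option autoImplicit false

open Set Filter Topology MeasureTheory
open scoped ContDiff ENNReal

noncomputable section

namespace Pool.Agent.L5helper74.UC

open Pool.Agent.Q73.NL (db)

/-- Cauchy-Schwarz on a set of finite measure -/
lemma cs {Ω : Type} [MeasurableSpace Ω] {ν : Measure Ω} {f : Ω → ℝ≥0∞} (hf : AEMeasurable f ν) :
    (∫⁻ x, f x ∂ν) ^ 2 ≤ ν univ * ∫⁻ x, f x ^ 2 ∂ν := by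
  have h1 := ENNReal.lintegral_mul_le_Lp_mul_Lq ν Real.HolderConjugate.two_two
    (f := fun _ => (1 : ℝ≥0∞)) (g := f) aemeasurable_const hf
  simp only [Pi.mul_apply, one_mul, ENNReal.one_rpow, lintegral_const, one_mul] at h1
  calc (∫⁻ x, f x ∂ν) ^ 2
      ≤ (ν univ ^ (1 / (2 : ℝ)) * (∫⁻ x, f x ^ (2 : ℝ) ∂ν) ^ (1 / (2 : ℝ))) ^ 2 :=
        pow_le_pow_left' h1 2
    _ = ν univ * ∫⁻ x, f x ^ 2 ∂ν := by
        rw [mul_pow, ← ENNReal.rpow_natCast, ← ENNReal.rpow_mul, ← ENNReal.rpow_natCast,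
          ← ENNReal.rpow_mul]
        norm_num

/-- a bound in a strip -/
lemma strip {f : ℝ × ℝ → ℝ} (hf : ContDiff ℝ 2 f) (hc : HasCompactSupport f) {L t₀ : ℝ}
    (hs : ∀ p, f p ≠ 0 → |p.2 - t₀| ≤ L) {x x' : ℝ} (hx : x' ≤ x) (y : ℝ) :
    ‖f (x, y) - f (x', y)‖ₑ ^ 2 ≤ ENNReal.ofReal (2 * L * (x - x')) *
      ∫⁻ p, ‖fderiv ℝ (fun q => fderiv ℝ f q (0, 1)) p (1, 0)‖ₑ ^ 2 := by
  obtain ⟨g, hg⟩ : ∃ g : ℝ × ℝ → ℝ, g = fun q => fderiv ℝ f q (0, 1) := ⟨_, rfl⟩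
  have hg1 : ContDiff ℝ 1 g := by
    rw [hg]
    exact (hf.fderiv_right (m := 1) (by norm_num)).clm_apply contDiff_const
  obtain ⟨H, hH⟩ : ∃ H : ℝ × ℝ → ℝ, H = fun p => fderiv ℝ g p (1, 0) := ⟨_, rfl⟩
  have hHc : Continuous H := by
    rw [hH]
    exact (hg1.continuous_fderiv one_ne_zero).clm_apply continuous_const
  have hout : ∀ p : ℝ × ℝ, L < |p.2 - t₀| → H p = 0 := by
    intro p hp
    have h1 : ∀ᶠ q : ℝ × ℝ in 𝓝 p, L < |q.2 - t₀| :=
      continuousAt_const.eventually_lt (Continuous.continuousAt (by fun_prop)) hp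
    have h2 : f =ᶠ[𝓝 p] fun _ => 0 := by
      filter_upwards [h1] with q hq
      by_contra hne
      exact absurd (hs q hne) (not_le.2 hq)
    have h3 : g =ᶠ[𝓝 p] fun _ => 0 := by
      filter_upwards [h2.eventuallyEq_nhds] with q hq
      rw [hg]
      simp only [hq.fderiv_eq]
      simp
    rw [hH]
    simp only [h3.fderiv_eq]
    simp
  -- the difference as a function of the second variable
  obtain ⟨A, hA⟩ : ∃ A : ℝ → ℝ, A = fun t => f (x, t) - f (x', t) := ⟨_, rfl⟩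
  have hA1 : ContDiff ℝ 1 A := by
    rw [hA]
    exact ((hf.of_le (by norm_num)).comp (contDiff_const.prodMk contDiff_id)).sub
      ((hf.of_le (by norm_num)).comp (contDiff_const.prodMk contDiff_id))
  have hA2 : HasCompactSupport A := by
    obtain ⟨K, hK, hK2⟩ := exists_compact_iff_hasCompactSupport.2 hc
    refine exists_compact_iff_hasCompactSupport.1 ⟨Prod.snd '' K, hK.image continuous_snd,
      fun t ht => ?_⟩
    rw [hA]
    simp only
    rw [hK2 (x, t) fun h => ht ⟨_, h, rfl⟩, hK2 (x', t) fun h => ht ⟨_, h, rfl⟩, sub_zero]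
  have hA3 : ∀ t, deriv A t = g (x, t) - g (x', t) := by
    intro t
    have h1 : ∀ w : ℝ, HasDerivAt (fun t => f (w, t)) (fderiv ℝ f (w, t) (0, 1)) t := by
      intro w
      have h2 : HasDerivAt (fun t : ℝ => ((w, t) : ℝ × ℝ)) (0, 1) t :=
        (hasDerivAt_const t w).prodMk (hasDerivAt_id t)
      exact ((hf.differentiable (by norm_num)) (w, t)).hasFDerivAt.comp_hasDerivAt t h2
    rw [hA, ((h1 x).fun_sub (h1 x')).deriv, hg]
  have hA4 : ∀ t, ‖deriv A t‖ₑ ≤ ∫⁻ s in Ioc x' x, ‖H (s, t)‖ₑ := by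
    intro t
    have h1 : ∀ s : ℝ, HasDerivAt (fun s => g (s, t)) (H (s, t)) s := by
      intro s
      have h2 : HasDerivAt (fun s : ℝ => ((s, t) : ℝ × ℝ)) (1, 0) s :=
        (hasDerivAt_id s).prodMk (hasDerivAt_const s t)
      have h3 := ((hg1.differentiable one_ne_zero) (s, t)).hasFDerivAt.comp_hasDerivAt s h2
      rw [hH]
      exact h3
    have h2 : ∫ s in x'..x, H (s, t) = g (x, t) - g (x', t) :=
      intervalIntegral.integral_eq_sub_of_hasDerivAt (fun s _ => h1 s)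
        ((hHc.comp (continuous_id.prodMk continuous_const)).intervalIntegrable _ _)
    rw [hA3, ← h2, intervalIntegral.integral_of_le hx]
    exact enorm_integral_le_lintegral_enorm _
  obtain ⟨E, hE⟩ : ∃ E : Set (ℝ × ℝ), E = Ioc x' x ×ˢ Icc (t₀ - L) (t₀ + L) := ⟨_, rfl⟩
  have hEm : MeasurableSet E := by
    rw [hE]
    exact measurableSet_Ioc.prod measurableSet_Icc
  have hEv : volume E = ENNReal.ofReal (2 * L * (x - x')) := by
    rw [hE, Measure.volume_eq_prod, Measure.prod_prod, Real.volume_Ioc, Real.volume_Icc,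
      ← ENNReal.ofReal_mul (by linarith)]
    congr 1
    ring
  have h1 : ‖A y‖ₑ ≤ ∫⁻ p in E, ‖H p‖ₑ := by
    calc ‖A y‖ₑ ≤ ∫⁻ t in Iic y, ‖deriv A t‖ₑ := hA2.enorm_le_lintegral_Ici_deriv hA1 y
      _ ≤ ∫⁻ t, ‖deriv A t‖ₑ := setLIntegral_le_lintegral _ _
      _ ≤ ∫⁻ t, ∫⁻ s in Ioc x' x, ‖H (s, t)‖ₑ := lintegral_mono hA4
      _ = ∫⁻ t, ∫⁻ s, E.indicator (fun p => ‖H p‖ₑ) (s, t) := by
          refine lintegral_congr fun t => ?_
          rw [← lintegral_indicator measurableSet_Ioc]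
          refine lintegral_congr fun s => ?_
          by_cases hs1 : s ∈ Ioc x' x
          · rw [indicator_of_mem hs1]
            by_cases ht : t ∈ Icc (t₀ - L) (t₀ + L)
            · rw [indicator_of_mem (by rw [hE]; exact ⟨hs1, ht⟩)]
            · have h3 : H (s, t) = 0 := by
                refine hout (s, t) ?_
                by_contra hle
                have h4 := abs_le.1 (not_lt.1 hle)
                exact ht ⟨by linarith [h4.1], by linarith [h4.2]⟩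
              rw [indicator_of_notMem (by rw [hE]; exact fun h => ht h.2), h3, enorm_zero]
          · rw [indicator_of_notMem hs1, indicator_of_notMem (by rw [hE]; exact fun h => hs1 h.1)]
      _ = ∫⁻ p, E.indicator (fun p => ‖H p‖ₑ) p := by
          rw [Measure.volume_eq_prod, lintegral_prod_symm]
          exact (Measurable.indicator (by fun_prop) hEm).aemeasurable
      _ = ∫⁻ p in E, ‖H p‖ₑ := lintegral_indicator hEm _
  have h2 : ‖A y‖ₑ ^ 2 ≤ volume E * ∫⁻ p in E, ‖H p‖ₑ ^ 2 := by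
    refine (pow_le_pow_left' h1 2).trans ?_
    have h3 := cs (ν := volume.restrict E) (f := fun p => ‖H p‖ₑ) (by fun_prop)
    rwa [Measure.restrict_apply_univ] at h3
  rw [hA] at h2
  refine h2.trans ?_
  rw [hEv]
  refine mul_le_mul_right ((setLIntegral_le_lintegral _ _).trans (le_of_eq ?_)) _
  rw [hH, hg]

/-- the gradient and the operator `∂̄` -/
lemma grad_le {g : ℂ → ℂ} (hg : ContDiff ℝ ∞ g) (hgc : HasCompactSupport g) :
    (∫⁻ z, ‖fderiv ℝ g z 1‖ₑ ^ 2) + ∫⁻ z, ‖fderiv ℝ g z Complex.I‖ₑ ^ 2 ≤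
      4 * ∫⁻ z, ‖db g z‖ₑ ^ 2 := by
  obtain ⟨a, ha⟩ : ∃ a : ℂ → ℝ, a = fun z => (g z).re := ⟨_, rfl⟩
  obtain ⟨b, hb⟩ : ∃ b : ℂ → ℝ, b = fun z => (g z).im := ⟨_, rfl⟩
  have hac : ContDiff ℝ ∞ a := by rw [ha]; exact Complex.reCLM.contDiff.comp hg
  have hbc : ContDiff ℝ ∞ b := by rw [hb]; exact Complex.imCLM.contDiff.comp hg
  have hbs : HasCompactSupport b := hgc.mono fun z hz => by
    rw [Function.mem_support] at hz ⊢
    intro h0
    apply hz
    rw [hb]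
    simp only [h0, Complex.zero_im]
  have hgd : ∀ z v, fderiv ℝ g z v = (fderiv ℝ a z v : ℂ) + (fderiv ℝ b z v : ℂ) * Complex.I := by
    intro z v
    have h1 : HasFDerivAt g (fderiv ℝ g z) z := ((hg.differentiable (by simp)) z).hasFDerivAt
    have h2 : HasFDerivAt a (Complex.reCLM.comp (fderiv ℝ g z)) z := by
      rw [ha]
      exact Complex.reCLM.hasFDerivAt.comp z h1
    have h3 : HasFDerivAt b (Complex.imCLM.comp (fderiv ℝ g z)) z := by
      rw [hb]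
      exact Complex.imCLM.hasFDerivAt.comp z h1
    rw [h2.fderiv, h3.fderiv]
    exact (Complex.re_add_im _).symm
  -- the divergence
  have hX : ∀ v : ℂ, ContDiff ℝ 1 fun z => b z * fderiv ℝ a z v := by
    intro v
    have h1 : ContDiff ℝ 1 (fderiv ℝ a) := hac.fderiv_right (by norm_cast)
    exact (hbc.of_le (by norm_cast)).mul (h1.clm_apply contDiff_const)
  have hXc : ∀ v : ℂ, HasCompactSupport fun z => b z * fderiv ℝ a z v := fun v => hbs.mul_right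
  obtain ⟨i1, i1'⟩ := Pool.Agent.Q73.NL.int_der (hX Complex.I) (hXc Complex.I) 1
  obtain ⟨i2, i2'⟩ := Pool.Agent.Q73.NL.int_der (hX 1) (hXc 1) Complex.I
  have hXd : ∀ z v w, fderiv ℝ (fun z => b z * fderiv ℝ a z v) z w =
      fderiv ℝ b z w * fderiv ℝ a z v + b z * fderiv ℝ (fun x => fderiv ℝ a x v) z w := by
    intro z v w
    have h1 : ContDiff ℝ 1 (fderiv ℝ a) := hac.fderiv_right (by norm_cast)
    have h2 : HasFDerivAt (fun x => fderiv ℝ a x v) (fderiv ℝ (fun x => fderiv ℝ a x v) z) z :=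
      (((h1.differentiable one_ne_zero) z).clm_apply (differentiableAt_const _)).hasFDerivAt
    have h3 : HasFDerivAt (fun z => b z * fderiv ℝ a z v) _ z :=
      ((hbc.differentiable (by simp)) z).hasFDerivAt.mul h2
    rw [h3.fderiv]
    simp
    ring
  have hpt : ∀ z, ‖fderiv ℝ g z 1‖ ^ 2 + ‖fderiv ℝ g z Complex.I‖ ^ 2 = 4 * ‖db g z‖ ^ 2 -
      2 * (fderiv ℝ (fun z => b z * fderiv ℝ a z Complex.I) z 1 -
        fderiv ℝ (fun z => b z * fderiv ℝ a z 1) z Complex.I) := by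
    intro z
    have h1 : db g z = (((fderiv ℝ a z 1 - fderiv ℝ b z Complex.I) / 2 : ℝ) : ℂ) +
        (((fderiv ℝ b z 1 + fderiv ℝ a z Complex.I) / 2 : ℝ) : ℂ) * Complex.I := by
      unfold db
      rw [hgd, hgd]
      push_cast
      linear_combination (fderiv ℝ b z Complex.I : ℂ) / 2 * Complex.I_sq
    rw [h1, hgd, hgd, ← Complex.normSq_eq_norm_sq, ← Complex.normSq_eq_norm_sq,
      ← Complex.normSq_eq_norm_sq, Complex.normSq_add_mul_I, Complex.normSq_add_mul_I,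
      Complex.normSq_add_mul_I, hXd, hXd, Pool.Agent.Q73.NL.dd_symm hac z Complex.I 1]
    ring
  have hcd : Continuous (fderiv ℝ g) := hg.continuous_fderiv (by simp)
  have isq : ∀ {k : ℂ → ℂ}, Continuous k → HasCompactSupport k →
      Integrable fun z => ‖k z‖ ^ 2 := by
    intro k hk hkc
    refine (hk.norm.pow 2).integrable_of_hasCompactSupport (hkc.mono fun z hz => ?_)
    rw [Function.mem_support] at hz ⊢
    intro h0
    apply hz
    simp [h0]
  have c1 := hgc.fderiv_apply ℝ (1 : ℂ)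
  have c2 := hgc.fderiv_apply ℝ Complex.I
  have k1 : Continuous fun z => fderiv ℝ g z 1 := by fun_prop
  have k2 : Continuous fun z => fderiv ℝ g z Complex.I := by fun_prop
  have h1 : (∫ z, ‖fderiv ℝ g z 1‖ ^ 2) + ∫ z, ‖fderiv ℝ g z Complex.I‖ ^ 2 =
      4 * ∫ z, ‖db g z‖ ^ 2 := by
    have i3 : Integrable fun z => fderiv ℝ (fun z => b z * fderiv ℝ a z Complex.I) z 1 -
        fderiv ℝ (fun z => b z * fderiv ℝ a z 1) z Complex.I := i1.sub i2
    rw [← integral_add (isq k1 c1) (isq k2 c2)]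
    simp only [hpt]
    rw [integral_sub ((isq (db_cont hg) (db_hcs hgc)).const_mul 4) (i3.const_mul 2),
      integral_const_mul, integral_const_mul, integral_sub i1 i2, i1', i2']
    ring
  rw [← sq_lint k1 c1, ← sq_lint k2 c2, ← sq_lint (db_cont hg) (db_hcs hgc),
    ← ENNReal.ofReal_add (by positivity) (by positivity), h1,
    ENNReal.ofReal_mul (by norm_num)]
  norm_num

lemma dir {e : ℝ × ℝ →L[ℝ] ℂ} (he : ∀ F : ℂ → ℝ≥0∞, Measurable F → ∫⁻ p, F (e p) = ∫⁻ z, F z)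
    {u : ℂ → ℝ} (hu : ContDiff ℝ ∞ u) (hc : HasCompactSupport fun p => u (e p)) {s t₀ : ℝ}
    (hs : ∀ p, u (e p) ≠ 0 → |p.2 - t₀| ≤ s) {w : ℂ → ℝ} (hw : ContDiff ℝ ∞ w)
    (hw1 : ∀ z, fderiv ℝ u z (e (0, 1)) = w z) {k : ℂ → ℂ} (hk : Continuous k)
    (hw2 : ∀ z, |fderiv ℝ w z (e (1, 0))| ≤ 2 * ‖k z‖) (x x' y : ℝ) :
    ‖u (e (x, y)) - u (e (x', y))‖ₑ ^ 2 ≤ ENNReal.ofReal (2 * s * |x - x'|) *
      (4 * ∫⁻ z, ‖k z‖ₑ ^ 2) := by
  have hcomp : ContDiff ℝ 2 fun p => u (e p) := (hu.of_le (by norm_cast)).comp e.contDiff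
  have hf1 : ∀ q, fderiv ℝ (fun p => u (e p)) q (0, 1) = w (e q) := by
    intro q
    have h1 : HasFDerivAt (fun p => u (e p)) ((fderiv ℝ u (e q)).comp e) q :=
      ((hu.differentiable (by simp)) (e q)).hasFDerivAt.comp q e.hasFDerivAt
    rw [h1.fderiv, ContinuousLinearMap.comp_apply, hw1]
  have hf2 : ∀ p, fderiv ℝ (fun q => fderiv ℝ (fun p => u (e p)) q (0, 1)) p (1, 0) =
      fderiv ℝ w (e p) (e (1, 0)) := by
    intro p
    have h1 : HasFDerivAt (fun p => w (e p)) ((fderiv ℝ w (e p)).comp e) p :=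
      ((hw.differentiable (by simp)) (e p)).hasFDerivAt.comp p e.hasFDerivAt
    simp only [hf1]
    rw [h1.fderiv, ContinuousLinearMap.comp_apply]
  have hJ : ∫⁻ p, ‖fderiv ℝ (fun q => fderiv ℝ (fun p => u (e p)) q (0, 1)) p (1, 0)‖ₑ ^ 2 ≤
      4 * ∫⁻ z, ‖k z‖ₑ ^ 2 := by
    rw [← lintegral_const_mul' _ _ (by norm_num), ← he _ (by fun_prop)]
    refine lintegral_mono fun p => ?_
    simp only [hf2]
    have h1 : (4 : ℝ≥0∞) = 2 ^ 2 := by norm_num
    rw [h1, ← mul_pow]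
    refine pow_le_pow_left' ?_ 2
    have h2 : (2 : ℝ≥0∞) = ENNReal.ofReal 2 := by norm_num
    rw [h2, ← ofReal_norm, ← ofReal_norm, ← ENNReal.ofReal_mul (by norm_num)]
    exact ENNReal.ofReal_le_ofReal (hw2 _)
  rcases le_total x' x with h | h
  · refine (strip hcomp hc hs h y).trans ?_
    rw [abs_of_nonneg (sub_nonneg.2 h)]
    exact mul_le_mul_right hJ _
  · have h1 := strip hcomp hc hs h y
    have h2 : ‖u (e (x, y)) - u (e (x', y))‖ₑ = ‖u (e (x', y)) - u (e (x, y))‖ₑ := by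
      rw [← enorm_neg, neg_sub]
    rw [h2]
    refine h1.trans ?_
    rw [abs_of_nonpos (sub_nonpos.2 h), neg_sub]
    exact mul_le_mul_right hJ _

/-- a Hölder estimate -/
lemma hol {u : ℂ → ℝ} {v : ℂ → ℂ} (hu : ContDiff ℝ ∞ u) (hv : ContDiff ℝ ∞ v)
    (hvc : HasCompactSupport v) {c : ℂ} {s : ℝ} (hs0 : 0 ≤ s) (hs : ∀ z, u z ≠ 0 → ‖z - c‖ ≤ s)
    (h1 : ∀ z, fderiv ℝ u z 1 = 2 * (v z).re) (h2 : ∀ z, fderiv ℝ u z Complex.I = -2 * (v z).im)
    (z z' : ℂ) : ‖u z - u z'‖ₑ ^ 2 ≤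
      ENNReal.ofReal (64 * s * ‖z - z'‖) * ∫⁻ z, ‖db v z‖ₑ ^ 2 := by
  have hmp := Complex.volume_preserving_equiv_real_prod.symm
  obtain ⟨e₁, he₁⟩ : ∃ e₁ : ℝ × ℝ →L[ℝ] ℂ, ∀ p, e₁ p = ⟨p.1, p.2⟩ :=
    ⟨(Complex.equivRealProdCLM.symm : ℝ × ℝ →L[ℝ] ℂ), fun p => rfl⟩
  obtain ⟨e₂, he₂⟩ : ∃ e₂ : ℝ × ℝ →L[ℝ] ℂ, ∀ p, e₂ p = ⟨p.2, p.1⟩ :=
    ⟨e₁.comp ((ContinuousLinearMap.snd ℝ ℝ ℝ).prod (ContinuousLinearMap.fst ℝ ℝ ℝ)), fun p => by
      rw [ContinuousLinearMap.comp_apply, he₁]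
      rfl⟩
  have m₁ : ∀ F : ℂ → ℝ≥0∞, Measurable F → ∫⁻ p, F (e₁ p) = ∫⁻ z, F z := by
    intro F hF
    rw [← hmp.lintegral_comp hF]
    refine lintegral_congr fun p => ?_
    rw [he₁]
    rfl
  have m₂ : ∀ F : ℂ → ℝ≥0∞, Measurable F → ∫⁻ p, F (e₂ p) = ∫⁻ z, F z := by
    intro F hF
    have h3 : Measurable fun p : ℝ × ℝ => F (e₁ p) := hF.comp e₁.continuous.measurable
    rw [← m₁ F hF, Measure.volume_eq_prod]
    have h4 := (Measure.measurePreserving_swap (μ := (volume : Measure ℝ))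
      (ν := (volume : Measure ℝ))).lintegral_comp h3
    rw [← h4]
    refine lintegral_congr fun p => ?_
    rw [he₁, he₂]
    rfl
  have huc : HasCompactSupport u := (isCompact_closedBall c s).of_isClosed_subset
    (isClosed_tsupport u) (closure_minimal (fun z hz => by
      rw [mem_closedBall_iff_norm]
      exact hs z hz) Metric.isClosed_closedBall)
  have hc₁ : HasCompactSupport fun p => u (e₁ p) := by
    have h3 := huc.comp_homeomorph Complex.equivRealProdCLM.symm.toHomeomorph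
    have h4 : (fun p => u (e₁ p)) = u ∘ Complex.equivRealProdCLM.symm.toHomeomorph := by
      funext p
      rw [he₁]
      rfl
    rw [h4]
    exact h3
  have hc₂ : HasCompactSupport fun p => u (e₂ p) := by
    have h3 := hc₁.comp_homeomorph (Homeomorph.prodComm ℝ ℝ)
    have h4 : (fun p => u (e₂ p)) = (fun p => u (e₁ p)) ∘ Homeomorph.prodComm ℝ ℝ := by
      funext p
      show u (e₂ p) = u (e₁ _)
      rw [he₁, he₂]
      rfl
    rw [h4]
    exact h3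
  have hdv : ∀ z, HasFDerivAt v (fderiv ℝ v z) z := fun z =>
    ((hv.differentiable (by simp)) z).hasFDerivAt
  have hcv : Continuous (fderiv ℝ v) := hv.continuous_fderiv (by simp)
  have s₁ : ∀ p, u (e₁ p) ≠ 0 → |p.2 - c.im| ≤ s := by
    intro p hp
    have h3 := hs _ hp
    refine le_trans ?_ h3
    have h4 := Complex.abs_im_le_norm (e₁ p - c)
    rw [he₁] at h4 ⊢
    exact h4
  have s₂ : ∀ p, u (e₂ p) ≠ 0 → |p.2 - c.re| ≤ s := by
    intro p hp
    have h3 := hs _ hp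
    refine le_trans ?_ h3
    have h4 := Complex.abs_re_le_norm (e₂ p - c)
    rw [he₂] at h4 ⊢
    exact h4
  have d₁ : ∀ x x' y : ℝ, ‖u ⟨x, y⟩ - u ⟨x', y⟩‖ₑ ^ 2 ≤ ENNReal.ofReal (2 * s * |x - x'|) *
      (4 * ∫⁻ z, ‖fderiv ℝ v z 1‖ₑ ^ 2) := by
    intro x x' y
    have h3 := dir m₁ hu hc₁ s₁ (w := fun z => -2 * (v z).im)
      (contDiff_const.mul (Complex.imCLM.contDiff.comp hv)) (fun z => by
        rw [← h2, he₁]
        rfl) (k := fun z => fderiv ℝ v z 1) (by fun_prop) (fun z => by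
        have h4 : HasFDerivAt (fun z => -2 * (v z).im)
            ((-2 : ℝ) • (Complex.imCLM.comp (fderiv ℝ v z))) z :=
          (Complex.imCLM.hasFDerivAt.comp z (hdv z)).const_mul (-2 : ℝ)
        have h5 : e₁ (1, 0) = 1 := by rw [he₁]; rfl
        rw [h4.fderiv, h5]
        simp only [_root_.smul_apply, ContinuousLinearMap.comp_apply, Complex.imCLM_apply,
          smul_eq_mul, abs_mul, abs_neg, Nat.abs_ofNat]
        exact mul_le_mul_of_nonneg_left (Complex.abs_im_le_norm _) (by norm_num)) x x' y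
    rw [he₁, he₁] at h3
    exact h3
  have d₂ : ∀ x x' y : ℝ, ‖u ⟨y, x⟩ - u ⟨y, x'⟩‖ₑ ^ 2 ≤ ENNReal.ofReal (2 * s * |x - x'|) *
      (4 * ∫⁻ z, ‖fderiv ℝ v z Complex.I‖ₑ ^ 2) := by
    intro x x' y
    have h3 := dir m₂ hu hc₂ s₂ (w := fun z => 2 * (v z).re)
      (contDiff_const.mul (Complex.reCLM.contDiff.comp hv)) (fun z => by
        rw [← h1, he₂]
        rfl) (k := fun z => fderiv ℝ v z Complex.I) (by fun_prop) (fun z => by
        have h4 : HasFDerivAt (fun z => 2 * (v z).re)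
            ((2 : ℝ) • (Complex.reCLM.comp (fderiv ℝ v z))) z :=
          (Complex.reCLM.hasFDerivAt.comp z (hdv z)).const_mul (2 : ℝ)
        have h5 : e₂ (1, 0) = Complex.I := by rw [he₂]; rfl
        rw [h4.fderiv, h5]
        simp only [_root_.smul_apply, ContinuousLinearMap.comp_apply, Complex.reCLM_apply,
          smul_eq_mul, abs_mul, Nat.abs_ofNat]
        exact mul_le_mul_of_nonneg_left (Complex.abs_re_le_norm _) (by norm_num)) x x' y
    rw [he₂, he₂] at h3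
    exact h3
  have h3 := d₁ z.re z'.re z.im
  have h4 := d₂ z.im z'.im z'.re
  have h5 := grad_le hv hvc
  have hre : |z.re - z'.re| ≤ ‖z - z'‖ := Complex.abs_re_le_norm (z - z')
  have him : |z.im - z'.im| ≤ ‖z - z'‖ := Complex.abs_im_le_norm (z - z')
  have h6 : ‖u z - u z'‖ₑ ^ 2 ≤ 2 * ‖u z - u ⟨z'.re, z.im⟩‖ₑ ^ 2 +
      2 * ‖u ⟨z'.re, z.im⟩ - u z'‖ₑ ^ 2 := by
    have h7 : ∀ x : ℝ, ‖x‖ₑ ^ 2 = ENNReal.ofReal (x ^ 2) := fun x => by
      rw [← ofReal_norm, ← ENNReal.ofReal_pow (norm_nonneg _), Real.norm_eq_abs, sq_abs]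
    rw [h7, h7, h7]
    have h8 : (2 : ℝ≥0∞) = ENNReal.ofReal 2 := by norm_num
    rw [h8, ← ENNReal.ofReal_mul (by norm_num), ← ENNReal.ofReal_mul (by norm_num),
      ← ENNReal.ofReal_add (by positivity) (by positivity)]
    refine ENNReal.ofReal_le_ofReal ?_
    nlinarith [sq_nonneg ((u z - u ⟨z'.re, z.im⟩) - (u ⟨z'.re, z.im⟩ - u z'))]
  refine h6.trans ?_
  obtain ⟨J₁, hJ₁⟩ : ∃ J₁ : ℝ≥0∞, J₁ = ∫⁻ z, ‖fderiv ℝ v z 1‖ₑ ^ 2 := ⟨_, rfl⟩
  obtain ⟨J₂, hJ₂⟩ : ∃ J₂ : ℝ≥0∞, J₂ = ∫⁻ z, ‖fderiv ℝ v z Complex.I‖ₑ ^ 2 := ⟨_, rfl⟩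
  rw [← hJ₁] at h3 h5
  rw [← hJ₂] at h4 h5
  have h7 : ENNReal.ofReal (64 * s * ‖z - z'‖) = 2 * (ENNReal.ofReal (2 * s * ‖z - z'‖) * 16) := by
    have h8 : (2 : ℝ≥0∞) = ENNReal.ofReal 2 := by norm_num
    have h9 : (16 : ℝ≥0∞) = ENNReal.ofReal 16 := by norm_num
    rw [h8, h9, ← ENNReal.ofReal_mul (by positivity), ← ENNReal.ofReal_mul (by norm_num)]
    congr 1
    ring
  have e1 : ENNReal.ofReal (2 * s * |z.re - z'.re|) ≤ ENNReal.ofReal (2 * s * ‖z - z'‖) :=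
    ENNReal.ofReal_le_ofReal (mul_le_mul_of_nonneg_left hre (by positivity))
  have e2 : ENNReal.ofReal (2 * s * |z.im - z'.im|) ≤ ENNReal.ofReal (2 * s * ‖z - z'‖) :=
    ENNReal.ofReal_le_ofReal (mul_le_mul_of_nonneg_left him (by positivity))
  calc 2 * ‖u z - u ⟨z'.re, z.im⟩‖ₑ ^ 2 + 2 * ‖u ⟨z'.re, z.im⟩ - u z'‖ₑ ^ 2
      ≤ 2 * (ENNReal.ofReal (2 * s * ‖z - z'‖) * (4 * J₁)) +
        2 * (ENNReal.ofReal (2 * s * ‖z - z'‖) * (4 * J₂)) := by
        gcongr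
        · exact h3.trans (by gcongr)
        · exact h4.trans (by gcongr)
    _ = 2 * (ENNReal.ofReal (2 * s * ‖z - z'‖) * 4) * (J₁ + J₂) := by ring
    _ ≤ 2 * (ENNReal.ofReal (2 * s * ‖z - z'‖) * 4) * (4 * ∫⁻ z, ‖db v z‖ₑ ^ 2) := by gcongr
    _ = _ := by
      rw [h7]
      ring

end Pool.Agent.L5helper74.UC
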