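import Pool.Agent.L5helper74.UC.Hol
import Pool.Agent.L5helper74.UC.Car

/-!
# Unique continuation: weak solutions are continuous
-/

set_option autoImplicit false

open Set Filter Topology MeasureTheory
open scoped ContDiff ENNReal ComplexConjugate

noncomputable section

namespace Pool.Agent.L5helper74.UC

open Pool.Agent.Q73.NL (db)

lemma Wk_add {F F' G G' : ℂ → ℂ} (hF : LocallyIntegrable F volume)
    (hF' : LocallyIntegrable F' volume) (hG : LocallyIntegrable G volume)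
    (hG' : LocallyIntegrable G' volume) (h : Wk univ F G) (h' : Wk univ F' G') :
    Wk univ (fun z => F z + F' z) (fun z => G z + G' z) := by
  intro η hη hηc hηO
  have hi : ∀ {F k : ℂ → ℂ}, LocallyIntegrable F volume → Continuous k → HasCompactSupport k →
      Integrable fun z => F z * k z := fun hF hk hkc =>
    hF.integrable_smul_right_of_hasCompactSupport hk hkc
  have h1 := h η hη hηc hηO
  have h2 := h' η hη hηc hηO
  simp only [add_mul]
  rw [integral_add (hi hF (db_cont hη) (db_hcs hηc)) (hi hF' (db_cont hη) (db_hcs hηc)),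
    integral_add (hi hG hη.continuous hηc) (hi hG' hη.continuous hηc), h1, h2]
  ring

/-- the convolution of a function supported in a disc -/
lemma cv_supp {φ : ℂ → ℝ} {F : ℂ → ℂ} {c : ℂ} {r s : ℝ} (hφ : ∀ z, φ z ≠ 0 → ‖z‖ < r)
    (hs : ∀ z, F z ≠ 0 → ‖z - c‖ ≤ s) (z : ℂ) (hz : (∫ t, φ t • F (z - t)) ≠ 0) :
    ‖z - c‖ ≤ s + r := by
  by_contra hlt
  apply hz
  refine integral_eq_zero_of_ae (Eventually.of_forall fun t => ?_)
  by_cases ht : φ t = 0
  · simp [ht]
  · have h10 := hφ t ht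
    have h11 : F (z - t) = 0 := by
      by_contra hne
      have h12 := hs _ hne
      apply hlt
      calc ‖z - c‖ = ‖(z - t - c) + t‖ := by congr 1; ring
        _ ≤ ‖z - t - c‖ + ‖t‖ := norm_add_le _ _
        _ ≤ s + r := add_le_add h12 h10.le
    simp [h11]

theorem hold {c : ℂ} {r : ℝ} (hr : 0 < r) {U : ℂ → ℝ} {F₂ G₂ : ℂ → ℂ}
    (hU : MemLp (fun z => (U z : ℂ)) 2 (volume.restrict (Metric.ball c (2 * r))))
    (hF₂ : MemLp F₂ 2 (volume.restrict (Metric.ball c (2 * r))))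
    (hG₂ : MemLp G₂ 2 (volume.restrict (Metric.ball c (2 * r))))
    (hW₁ : Wk (Metric.ball c (2 * r)) (fun z => (U z : ℂ)) (fun z => conj (F₂ z)))
    (hW₂ : Wk (Metric.ball c (2 * r)) F₂ G₂) :
    ∃ E : Set ℂ, (∀ᵐ z, z ∈ E) ∧ ∀ z ∈ E, ‖z - c‖ < r → U z ≠ 0 →
      ∃ δ : ℝ, 0 < δ ∧ ∀ z' ∈ E, ‖z' - z‖ < δ → U z' ≠ 0 := by
  obtain ⟨O, hO⟩ : ∃ O : Set ℂ, O = Metric.ball c (2 * r) := ⟨_, rfl⟩
  rw [← hO] at hU hF₂ hG₂ hW₁ hW₂
  have hOm : MeasurableSet O := by rw [hO]; exact measurableSet_ball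
  have hfin : IsFiniteMeasure (volume.restrict O) := by
    rw [hO]
    exact ⟨by rw [Measure.restrict_apply_univ]; exact measure_ball_lt_top⟩
  -- the cutoff
  obtain ⟨χ, hχ1, hχ2, hχ3⟩ : ∃ χ : ℂ → ℝ, ContDiff ℝ ∞ χ ∧ (∀ z, ‖z - c‖ ≤ r → χ z = 1) ∧
      ∀ z, χ z ≠ 0 → ‖z - c‖ ≤ 3 / 2 * r := by
    obtain ⟨b, hb1, hb2⟩ : ∃ b : ContDiffBump c, b.rIn = r ∧ b.rOut = 3 / 2 * r :=
      ⟨⟨r, 3 / 2 * r, hr, by linarith⟩, rfl, rfl⟩
    refine ⟨b, b.contDiff, fun z hz => b.one_of_mem_closedBall ?_, fun z hz => ?_⟩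
    · rwa [mem_closedBall_iff_norm, hb1]
    · have h1 : z ∈ Function.support b := hz
      rw [b.support_eq, mem_ball_iff_norm, hb2] at h1
      exact h1.le
  obtain ⟨m, hm⟩ : ∃ m : ℂ → ℂ, m = fun z => (χ z : ℂ) := ⟨_, rfl⟩
  have hm1 : ContDiff ℝ ∞ m := by rw [hm]; exact Complex.ofRealCLM.contDiff.comp hχ1
  have hms : ∀ z, m z ≠ 0 → ‖z - c‖ ≤ 3 / 2 * r := fun z hz => hχ3 z (by
    intro h0
    rw [hm] at hz
    simp only [h0, Complex.ofReal_zero, ne_eq, not_true_eq_false] at hz)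
  have hmc := hcs hms
  have htO : tsupport m ⊆ O := (tsup hms).trans (by
    rw [hO]
    exact Metric.closedBall_subset_ball (by linarith))
  obtain ⟨d, hd⟩ : ∃ d : ℂ → ℂ, d = fun z => conj (db m z) := ⟨_, rfl⟩
  have hdm : ContDiff ℝ ∞ (db m) := by
    unfold Pool.Agent.Q73.NL.db
    have h1 : ContDiff ℝ ∞ (fderiv ℝ m) := hm1.fderiv_right (by norm_cast)
    exact ((h1.clm_apply contDiff_const).add
      (contDiff_const.mul (h1.clm_apply contDiff_const))).div_const 2
  have hd1 : ContDiff ℝ ∞ d := by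
    rw [hd]
    exact Complex.conjCLE.contDiff.comp hdm
  have hdb0 : ∀ z, db m z ≠ 0 → z ∈ tsupport m := fun z hz => by
    by_contra hn
    apply hz
    have h1 : fderiv ℝ m z = 0 := by
      by_contra hne
      exact hn (support_fderiv_subset ℝ hne)
    unfold Pool.Agent.Q73.NL.db
    rw [h1]
    simp
  have hds : ∀ z, d z ≠ 0 → ‖z - c‖ ≤ 3 / 2 * r := fun z hz => by
    have h1 : db m z ≠ 0 := by
      intro h0
      rw [hd] at hz
      simp only [h0, map_zero, ne_eq, not_true_eq_false] at hz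
    have := tsup hms (hdb0 z h1)
    rwa [mem_closedBall_iff_norm] at this
  have hdc := hcs hds
  have htdO : tsupport d ⊆ O := (tsup hds).trans (by
    rw [hO]
    exact Metric.closedBall_subset_ball (by linarith))
  have hsO : ∀ {k : ℂ → ℂ}, tsupport k ⊆ O → ∀ z, k z ≠ 0 → z ∈ O := fun hk z hz =>
    hk (subset_tsupport _ hz)
  have hon : ∀ {F k : ℂ → ℂ}, MemLp F 2 (volume.restrict O) → tsupport k ⊆ O →
      IntegrableOn F (tsupport k) := fun hF hk =>
    (hF.integrable one_le_two).mono_measure (Measure.restrict_mono hk le_rfl)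
  have hcF : MemLp (fun z => conj (F₂ z)) 2 (volume.restrict O) := by
    refine hF₂.of_le (Complex.continuous_conj.comp_aestronglyMeasurable hF₂.1)
      (Eventually.of_forall fun z => ?_)
    rw [RCLike.norm_conj]
  have hmO := hsO htO
  have hdO := hsO htdO
  have hddO : ∀ z, db d z ≠ 0 → z ∈ O := fun z hz => htdO (by
    by_contra hn
    apply hz
    have h1 : fderiv ℝ d z = 0 := by
      by_contra hne
      exact hn (support_fderiv_subset ℝ hne)
    unfold Pool.Agent.Q73.NL.db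
    rw [h1]
    simp)
  -- the localized functions
  obtain ⟨V, hV⟩ : ∃ V : ℂ → ℝ, V = fun z => χ z * U z := ⟨_, rfl⟩
  have hVm : (fun z => (V z : ℂ)) = fun z => m z * (U z : ℂ) := by
    funext z
    rw [hV, hm]
    push_cast
    rfl
  obtain ⟨F, hF⟩ : ∃ F : ℂ → ℂ, F = fun z => m z * F₂ z + d z * (U z : ℂ) := ⟨_, rfl⟩
  obtain ⟨G, hG⟩ : ∃ G : ℂ → ℂ, G = fun z => (m z * G₂ z + db m z * F₂ z) +
    (d z * conj (F₂ z) + db d z * (U z : ℂ)) := ⟨_, rfl⟩
  have hWV : Wk univ (fun z => (V z : ℂ)) (fun z => conj (F z)) := by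
    have h1 := Wk_mul hW₁ hm1 hmc htO (hon hU htO) (hon hcF htO)
    rw [← hVm] at h1
    have h2 : (fun z => conj (F z)) = fun z => m z * conj (F₂ z) + db m z * (U z : ℂ) := by
      funext z
      rw [hF, hd, hm]
      simp only [map_add, map_mul, Complex.conj_ofReal, Complex.conj_conj]
    rw [h2]
    exact h1
  have p1 : MemLp (fun z => m z * F₂ z) 2 volume := mul_mem hOm hF₂ hm1.continuous hmc hmO
  have p2 : MemLp (fun z => d z * (U z : ℂ)) 2 volume := mul_mem hOm hU hd1.continuous hdc hdO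
  have p3 : MemLp (fun z => m z * G₂ z + db m z * F₂ z) 2 volume :=
    (mul_mem hOm hG₂ hm1.continuous hmc hmO).add
      (mul_mem hOm hF₂ (db_cont hm1) (db_hcs hmc) fun z hz => htO (hdb0 z hz))
  have p4 : MemLp (fun z => d z * conj (F₂ z) + db d z * (U z : ℂ)) 2 volume :=
    (mul_mem hOm hcF hd1.continuous hdc hdO).add
      (mul_mem hOm hU (db_cont hd1) (db_hcs hdc) hddO)
  have hl : ∀ {K : ℂ → ℂ}, MemLp K 2 volume → LocallyIntegrable K volume := fun hK =>
    hK.locallyIntegrable (by norm_num)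
  have hWF : Wk univ F G := by
    rw [hF, hG]
    exact Wk_add (hl p1) (hl p2) (hl p3) (hl p4)
      (Wk_mul hW₂ hm1 hmc htO (hon hF₂ htO) (hon hG₂ htO))
      (Wk_mul hW₁ hd1 hdc htdO (hon hU htdO) (hon hcF htdO))
  have hFm : MemLp F 2 volume := by rw [hF]; exact p1.add p2
  have hGm : MemLp G 2 volume := by rw [hG]; exact p3.add p4
  have hVL : MemLp (fun z => (V z : ℂ)) 2 volume := by
    rw [hVm]
    exact mul_mem hOm hU hm1.continuous hmc hmO
  have hFs : ∀ z, F z ≠ 0 → ‖z - c‖ ≤ 3 / 2 * r := by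
    intro z hz
    by_contra hn
    apply hz
    have h1 : m z = 0 := by
      by_contra hne
      exact hn (hms z hne)
    have h2 : d z = 0 := by
      by_contra hne
      exact hn (hds z hne)
    rw [hF]
    simp only [h1, h2, zero_mul, add_zero]
  have hVs : ∀ z, (V z : ℂ) ≠ 0 → ‖z - c‖ ≤ 3 / 2 * r := by
    intro z hz
    refine hms z ?_
    have := congrFun hVm z
    rw [this] at hz
    exact left_ne_zero_of_mul hz
  -- mollification
  obtain ⟨φ, h1, h2, h3, h4, h5, h6⟩ := mollifier hr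
  obtain ⟨N, hN⟩ : ∃ N : ℝ, N = (∫⁻ z, ‖G z‖ₑ ^ 2).toReal := ⟨_, rfl⟩
  have hNt : ∫⁻ z, ‖G z‖ₑ ^ 2 = ENNReal.ofReal N := by
    rw [hN, ENNReal.ofReal_toReal]
    have h7 := hGm.2
    rw [eLpNorm_lt_top_iff_lintegral_rpow_enorm_lt_top (by norm_num) (by norm_num)] at h7
    simpa using h7.ne
  have hN0 : 0 ≤ N := by rw [hN]; exact ENNReal.toReal_nonneg
  have key : ∀ k z z', ‖(∫ t, φ k t • ((V (z - t) : ℝ) : ℂ)) - ∫ t, φ k t • ((V (z' - t) : ℝ) : ℂ)‖ ^ 2 ≤
        128 * r * ‖z - z'‖ * N := by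
    intro k z z'
    obtain ⟨u, hu⟩ : ∃ u : ℂ → ℝ, u = fun z => ∫ t, φ k t * V (z - t) := ⟨_, rfl⟩
    have hW : (fun z => ∫ t, φ k t • ((V (z - t) : ℝ) : ℂ)) = fun z => (u z : ℂ) := by
      funext z
      rw [hu]
      simp only
      rw [← integral_complex_ofReal]
      refine integral_congr_ae (Eventually.of_forall fun t => ?_)
      simp only [Complex.real_smul]
      push_cast
      rfl
    obtain ⟨q1, q2⟩ := cv_db (h1 k) (h2 k) (hl hVL)
    rw [hW] at q1 q2
    have q3 := q2 _ hWV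
    obtain ⟨v, hv⟩ : ∃ v : ℂ → ℂ, v = fun z => ∫ t, φ k t • F (z - t) := ⟨_, rfl⟩
    obtain ⟨q4, q5⟩ := cv_db (h1 k) (h2 k) (hl hFm)
    rw [← hv] at q4 q5
    have hu1 : ContDiff ℝ ∞ u := by
      have h7 : u = fun z => ((u z : ℂ)).re := by
        funext z
        rw [Complex.ofReal_re]
      rw [h7]
      exact Complex.reCLM.contDiff.comp q1
    have q6 : ∀ z, db (fun z => (u z : ℂ)) z = conj (v z) := by
      intro z
      rw [q3 z, hv]
      simp only
      rw [← integral_conj]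
      refine integral_congr_ae (Eventually.of_forall fun t => ?_)
      simp only [Complex.real_smul, map_mul, Complex.conj_ofReal]
    have q7 : ∀ z w, fderiv ℝ (fun z => (u z : ℂ)) z w = ((fderiv ℝ u z w : ℝ) : ℂ) := by
      intro z w
      have h7 : HasFDerivAt (fun z => (u z : ℂ)) (Complex.ofRealCLM.comp (fderiv ℝ u z)) z :=
        Complex.ofRealCLM.hasFDerivAt.comp z ((hu1.differentiable (by simp)) z).hasFDerivAt
      rw [h7.fderiv]
      rfl
    have q8 : ∀ z, fderiv ℝ u z 1 = 2 * (v z).re ∧ fderiv ℝ u z Complex.I = -2 * (v z).im := by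
      intro z
      have h7 := q6 z
      unfold Pool.Agent.Q73.NL.db at h7
      rw [q7, q7] at h7
      have h8 := congrArg Complex.re h7
      have h9 := congrArg Complex.im h7
      simp only [Complex.div_ofNat_re, Complex.add_re, Complex.ofReal_re, Complex.mul_re,
        Complex.I_re, Complex.I_im, Complex.ofReal_im, Complex.conj_re, Complex.conj_im,
        Complex.div_ofNat_im, Complex.add_im, Complex.mul_im] at h8 h9
      constructor <;> linarith
    have hus : ∀ z, u z ≠ 0 → ‖z - c‖ ≤ 2 * r := by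
      intro z hz
      have h7 : (∫ t, φ k t • ((V (z - t) : ℝ) : ℂ)) ≠ 0 := by
        have := congrFun hW z
        rw [this]
        exact_mod_cast hz
      have h8 := cv_supp (h5 k) hVs z h7
      linarith
    have hvs : ∀ z, v z ≠ 0 → ‖z - c‖ ≤ 2 * r := by
      intro z hz
      rw [hv] at hz
      have h8 := cv_supp (h5 k) hFs z hz
      linarith
    have h7 := hol hu1 q4 (hcs hvs) (by positivity) hus (fun z => (q8 z).1) (fun z => (q8 z).2) z z'
    have h8 : ∫⁻ z, ‖db v z‖ₑ ^ 2 ≤ ENNReal.ofReal N := by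
      simp only [q5 G hWF]
      rw [← hNt]
      exact young (h1 k).continuous (h3 k) (h4 k) hGm.1
    have h9 := h7.trans (mul_le_mul_right h8 _)
    rw [← ofReal_norm, ← ENNReal.ofReal_pow (norm_nonneg _), ← ENNReal.ofReal_mul (by positivity),
      ENNReal.ofReal_le_ofReal_iff (by positivity)] at h9
    have h10 := congrFun hW z
    have h11 := congrFun hW z'
    rw [h10, h11, ← Complex.ofReal_sub, Complex.norm_real]
    refine h9.trans (le_of_eq ?_)
    ring
  refine ⟨{z | Tendsto (fun k => ∫ t, φ k t • ((V (z - t) : ℝ) : ℂ)) atTop (𝓝 (V z : ℂ))},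
    h6 _ (hl hVL), fun z hz hzr hUz => ?_⟩
  have hlim : ∀ z', Tendsto (fun k => ∫ t, φ k t • ((V (z' - t) : ℝ) : ℂ)) atTop (𝓝 (V z' : ℂ)) →
      (V z - V z') ^ 2 ≤ 128 * r * ‖z - z'‖ * N := by
    intro z' hz'
    have hz2 : Tendsto (fun k => ∫ t, φ k t • ((V (z - t) : ℝ) : ℂ)) atTop (𝓝 (V z : ℂ)) := hz
    have h7 := ((hz2.sub hz').norm.pow 2)
    have h8 := le_of_tendsto' h7 fun k => key k z z'
    rw [← Complex.ofReal_sub, Complex.norm_real, Real.norm_eq_abs, sq_abs] at h8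
    exact h8
  have hVz : V z = U z := by
    rw [hV]
    simp only [hχ2 z hzr.le, one_mul]
  refine ⟨(U z) ^ 2 / (128 * r * (N + 1)), by positivity, fun z' hz' hd' h0 => ?_⟩
  have h7 := hlim z' hz'
  have h8 : V z' = 0 := by
    rw [hV]
    simp only [h0, mul_zero]
  rw [hVz, h8, sub_zero] at h7
  rw [lt_div_iff₀ (by positivity), norm_sub_rev] at hd'
  have h9 : 0 ≤ ‖z - z'‖ := norm_nonneg _
  have h10 : 128 * r * ‖z - z'‖ * N ≤ ‖z - z'‖ * (128 * r * (N + 1)) := by
    have : 0 ≤ ‖z - z'‖ * (128 * r) := by positivity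
    nlinarith
  linarith

end Pool.Agent.L5helper74.UC
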