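import Pool.Agent.L5helper74.UC.Chart

/-!
# Unique continuation: eigenfunctions in an isothermal chart solve a first order system
-/

set_option autoImplicit false
set_option linter.unusedSectionVars false
set_option synthInstance.maxHeartbeats 400000

open Set Filter Topology MeasureTheory
open scoped ContDiff ENNReal ComplexConjugate
open Pool.Agent.Y262.QE Pool.Agent.Y264.QR Pool.Agent.Q233.GLV Pool.Agent.Q233

noncomputable section

namespace Pool.Agent.L5helper74.UC

open Pool.Agent.Q73.NL (db)

lemma db_real {η : ℂ → ℝ} (hη : ContDiff ℝ ∞ η) (z : ℂ) : db (fun z => (η z : ℂ)) z =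
    (((fderiv ℝ η z 1 : ℝ) : ℂ) + Complex.I * ((fderiv ℝ η z Complex.I : ℝ) : ℂ)) / 2 := by
  have h7 : HasFDerivAt (fun z => (η z : ℂ)) (Complex.ofRealCLM.comp (fderiv ℝ η z)) z :=
    Complex.ofRealCLM.hasFDerivAt.comp z ((hη.differentiable (by simp)) z).hasFDerivAt
  unfold Pool.Agent.Q73.NL.db
  rw [h7.fderiv]
  rfl

/-- it is enough to test with real functions -/
lemma Wk_real {O : Set ℂ} {F G : ℂ → ℂ}
    (hF : ∀ k : ℂ → ℂ, Continuous k → HasCompactSupport k → tsupport k ⊆ O →
      Integrable fun z => F z * k z)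
    (hG : ∀ k : ℂ → ℂ, Continuous k → HasCompactSupport k → tsupport k ⊆ O →
      Integrable fun z => G z * k z)
    (h : ∀ η : ℂ → ℝ, ContDiff ℝ ∞ η → HasCompactSupport η → tsupport η ⊆ O →
      ∫ z, F z * db (fun z => (η z : ℂ)) z = -∫ z, G z * (η z : ℂ)) : Wk O F G := by
  intro η hη hηc hηO
  obtain ⟨a, ha⟩ : ∃ a : ℂ → ℝ, a = fun z => (η z).re := ⟨_, rfl⟩
  obtain ⟨b, hb⟩ : ∃ b : ℂ → ℝ, b = fun z => (η z).im := ⟨_, rfl⟩
  have hac : ContDiff ℝ ∞ a := by rw [ha]; exact Complex.reCLM.contDiff.comp hη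
  have hbc : ContDiff ℝ ∞ b := by rw [hb]; exact Complex.imCLM.contDiff.comp hη
  have has : Function.support a ⊆ Function.support η := fun z hz => by
    rw [Function.mem_support] at hz ⊢
    intro h0
    apply hz
    rw [ha]
    simp only [h0, Complex.zero_re]
  have hbs : Function.support b ⊆ Function.support η := fun z hz => by
    rw [Function.mem_support] at hz ⊢
    intro h0
    apply hz
    rw [hb]
    simp only [h0, Complex.zero_im]
  have h1 := h a hac (hηc.mono has) ((closure_mono has).trans hηO)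
  have h2 := h b hbc (hηc.mono hbs) ((closure_mono hbs).trans hηO)
  have hcx : ∀ {a : ℂ → ℝ}, ContDiff ℝ ∞ a → Function.support a ⊆ Function.support η →
      ContDiff ℝ ∞ (fun z => (a z : ℂ)) ∧ HasCompactSupport (fun z => (a z : ℂ)) ∧
        tsupport (fun z => (a z : ℂ)) ⊆ O := by
    intro a ha has
    have h3 : Function.support (fun z => (a z : ℂ)) ⊆ Function.support η := fun z hz => by
      refine has ?_
      rw [Function.mem_support] at hz ⊢
      intro h0
      apply hz
      simp only [h0, Complex.ofReal_zero]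
    exact ⟨Complex.ofRealCLM.contDiff.comp ha, hηc.mono h3, (closure_mono h3).trans hηO⟩
  obtain ⟨a1, a2, a3⟩ := hcx hac has
  obtain ⟨b1, b2, b3⟩ := hcx hbc hbs
  have hts : ∀ {k : ℂ → ℂ}, tsupport k ⊆ O → tsupport (db k) ⊆ O := fun {k} hk => by
    refine (closure_minimal (fun z hz => ?_) (isClosed_tsupport k)).trans hk
    by_contra hn
    apply hz
    have h3 : fderiv ℝ k z = 0 := by
      by_contra hne
      exact hn (support_fderiv_subset ℝ hne)
    unfold Pool.Agent.Q73.NL.db
    rw [h3]
    simp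
  have he : ∀ z, η z = (a z : ℂ) + Complex.I * (b z : ℂ) := by
    intro z
    rw [ha, hb]
    simp only
    rw [mul_comm]
    exact (Complex.re_add_im _).symm
  have hde : ∀ z, db η z = db (fun z => (a z : ℂ)) z + Complex.I * db (fun z => (b z : ℂ)) z := by
    intro z
    have h3 : HasFDerivAt η (fderiv ℝ (fun z => (a z : ℂ)) z +
        Complex.I • fderiv ℝ (fun z => (b z : ℂ)) z) z := by
      have h4 : η = fun z => (a z : ℂ) + Complex.I * (b z : ℂ) := funext he
      rw [h4]
      exact ((a1.differentiable (by simp)) z).hasFDerivAt.add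
        (((b1.differentiable (by simp)) z).hasFDerivAt.const_mul Complex.I)
    unfold Pool.Agent.Q73.NL.db
    rw [h3.fderiv]
    simp
    ring
  have i1 := hF _ (db_cont a1) (db_hcs a2) (hts a3)
  have i2 := hF _ (db_cont b1) (db_hcs b2) (hts b3)
  have i3 := hG _ a1.continuous a2 a3
  have i4 := hG _ b1.continuous b2 b3
  have e1 : ∫ z, F z * db η z = (∫ z, F z * db (fun z => (a z : ℂ)) z) +
      Complex.I * ∫ z, F z * db (fun z => (b z : ℂ)) z := by
    rw [← integral_const_mul, ← integral_add i1 (i2.const_mul _)]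
    refine integral_congr_ae (Eventually.of_forall fun z => ?_)
    simp only [hde]
    ring
  have e2 : ∫ z, G z * η z = (∫ z, G z * (a z : ℂ)) + Complex.I * ∫ z, G z * (b z : ℂ) := by
    rw [← integral_const_mul, ← integral_add i3 (i4.const_mul _)]
    refine integral_congr_ae (Eventually.of_forall fun z => ?_)
    simp only [he]
    ring
  rw [e1, e2, h1, h2]
  ring

variable {M : Type} [MetricSpace M] [CompactSpace M] [MeasurableSpace M] [BorelSpace M]
  {μ : Measure M} [IsFiniteMeasure μ] {D : Data M}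

/-- the local system of an eigenfunction -/
structure Sys (U : ℂ → ℝ) (F₂ G₂ : ℂ → ℂ) (c : ℂ) (R K : ℝ) : Prop where
  mU : MemLp (fun z => (U z : ℂ)) 2 (volume.restrict (Metric.ball c R))
  mF : MemLp F₂ 2 (volume.restrict (Metric.ball c R))
  mG : MemLp G₂ 2 (volume.restrict (Metric.ball c R))
  W₁ : Wk (Metric.ball c R) (fun z => (U z : ℂ)) (fun z => conj (F₂ z))
  W₂ : Wk (Metric.ball c R) F₂ G₂
  le : ∀ z, ‖z - c‖ < R → ‖G₂ z‖ ≤ K * |U z|

theorem loc (hD : D.IsSurf μ) {l : Fin D.N}
    (hc : ∀ z ∈ D.T l, ∃ c : ℝ, ∀ v, ‖D.A l z v‖ = c * ‖v‖) {c : ℂ} {R : ℝ}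
    (hs : Metric.closedBall c R ⊆ D.T l) {i : HF D μ →L[ℝ] Lp ℝ 2 μ}
    {a : HF D μ →L[ℝ] HF D μ →L[ℝ] ℝ}
    {b : C(M, ℝ) → HF D μ →L[ℝ] HF D μ →L[ℝ] ℝ} (hi : ∀ v, i v = v.1.fst)
    (ha : ∀ u v, a u v = inner ℝ u.1.snd v.1.snd) (hB : IsB μ i b) {φ : C(M, ℝ)} {v : HF D μ}
    {lam : ℝ} (hv : ∀ w, a v w = lam * b φ v w) :
    ∃ (F₂ G₂ : ℂ → ℂ) (K : ℝ), Sys (fun z => (i v : M → ℝ) (D.ψ l z)) F₂ G₂ c R K := by
  obtain ⟨K, hKe⟩ : ∃ K : Set ℂ, K = Metric.closedBall c R := ⟨_, rfl⟩
  have hK : IsCompact K := by rw [hKe]; exact isCompact_closedBall _ _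
  have hKm : MeasurableSet K := hK.isClosed.measurableSet
  rw [← hKe] at hs
  obtain ⟨hU, P, hP, hsys⟩ := chart hD hc hK hs hi ha hB hv
  obtain ⟨U, hUe⟩ : ∃ U : ℂ → ℝ, U = fun z => (i v : M → ℝ) (D.ψ l z) := ⟨_, rfl⟩
  have hUe' : ∀ z, (i v : M → ℝ) (D.ψ l z) = U z := fun z => by rw [hUe]
  simp only [hUe'] at hU hsys ⊢
  have hbK : Metric.ball c R ⊆ K := by rw [hKe]; exact Metric.ball_subset_closedBall
  have hmono : volume.restrict (Metric.ball c R) ≤ volume.restrict K :=
    Measure.restrict_mono hbK le_rfl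
  have hUc : MemLp (fun z => (U z : ℂ)) 2 (volume.restrict K) := hU.ofReal
  -- the density
  obtain ⟨ρ, hρ⟩ : ∃ ρ : ℂ → ℝ, ρ = fun z => Real.exp (φ (D.ψ l z)) * |(D.A l z).det| := ⟨_, rfl⟩
  have hρc : ContinuousOn ρ (D.T l) := by
    rw [hρ]
    exact (Real.continuous_exp.comp_continuousOn
      (φ.continuous.comp_continuousOn (hD.contψ l))).mul (Pool.Agent.Y960.QE.contDet hD l)
  obtain ⟨B, hB'⟩ := hK.exists_bound_of_continuousOn (hρc.mono hs)
  obtain ⟨G, hG⟩ : ∃ G : ℂ → ℂ, G = fun z => ((-(lam / 4) * ρ z * U z : ℝ) : ℂ) := ⟨_, rfl⟩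
  have hρm : AEStronglyMeasurable ρ (volume.restrict K) :=
    (hρc.mono hs).aestronglyMeasurable hKm
  have hGb : ∀ z ∈ K, ‖G z‖ ≤ |lam| / 4 * B * |U z| := by
    intro z hz
    rw [hG]
    simp only
    rw [Complex.norm_real, Real.norm_eq_abs, abs_mul, abs_mul, abs_neg, abs_div]
    have h1 := hB' z hz
    rw [Real.norm_eq_abs] at h1
    have h4 : |(4 : ℝ)| = 4 := by norm_num
    rw [h4]
    gcongr
  have hGm : MemLp G 2 (volume.restrict K) := by
    refine hUc.of_le_mul (c := |lam| / 4 * B) ?_ ?_
    · rw [hG]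
      exact Complex.continuous_ofReal.comp_aestronglyMeasurable
        ((aestronglyMeasurable_const.mul hρm).mul hU.1)
    · filter_upwards [ae_restrict_mem hKm] with z hz
      rw [Complex.norm_real]
      exact hGb z hz
  obtain ⟨F, hF⟩ : ∃ F : ℂ → ℂ, F = fun z => conj (P z) / 2 := ⟨_, rfl⟩
  have hFm : MemLp F 2 (volume.restrict K) := by
    rw [hF]
    refine hP.of_le_mul (c := 1) ?_ (Eventually.of_forall fun z => ?_)
    · have h1 : Continuous fun w : ℂ => conj w / 2 := by fun_prop
      exact h1.comp_aestronglyMeasurable hP.1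
    · rw [norm_div, RCLike.norm_conj, one_mul, Complex.norm_ofNat]
      have := norm_nonneg (P z)
      linarith
  have hFc : (fun z => conj (F z)) = fun z => P z / 2 := by
    funext z
    rw [hF]
    simp only [map_div₀, Complex.conj_conj, map_ofNat]
  -- integrability
  have hint : ∀ {X : ℂ → ℂ}, MemLp X 2 (volume.restrict K) → ∀ k : ℂ → ℂ, Continuous k →
      HasCompactSupport k → tsupport k ⊆ Metric.ball c R → Integrable fun z => X z * k z := by
    intro X hX k hk hkc hkO
    have hfin : IsFiniteMeasure (volume.restrict K) :=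
      ⟨by rw [Measure.restrict_apply_univ]; exact hK.measure_lt_top⟩
    obtain ⟨C, hC⟩ := hk.bounded_above_of_compact_support hkc
    have h1 : Integrable (fun z => X z * k z) (volume.restrict K) :=
      Integrable.mul_bdd (c := C) (hX.integrable one_le_two) hk.aestronglyMeasurable
        (Eventually.of_forall hC)
    refine (integrableOn_iff_integrable_of_support_subset fun z hz => ?_).1 h1
    rw [Function.mem_support] at hz
    refine hbK (hkO (subset_tsupport k ?_))
    rw [Function.mem_support]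
    exact right_ne_zero_of_mul hz
  have hreal : ∀ {X : ℂ → ℝ}, IntegrableOn X K → ∀ k : ℂ → ℝ, Continuous k →
      IntegrableOn (fun z => X z * k z) K := by
    intro X hX k hk
    obtain ⟨C, hC⟩ := hK.exists_bound_of_continuousOn hk.continuousOn
    refine Integrable.mul_bdd (c := C) hX hk.aestronglyMeasurable ?_
    filter_upwards [ae_restrict_mem hKm] with z hz
    exact hC z hz
  have hfin : IsFiniteMeasure (volume.restrict K) :=
    ⟨by rw [Measure.restrict_apply_univ]; exact hK.measure_lt_top⟩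
  have hPi := hP.integrable one_le_two
  have hUi : IntegrableOn U K := hU.integrable one_le_two
  have hPr : IntegrableOn (fun z => (P z).re) K := hPi.re
  have hPm : IntegrableOn (fun z => (P z).im) K := hPi.im
  refine ⟨F, G, |lam| / 4 * B, hUc.mono_measure hmono, hFm.mono_measure hmono,
    hGm.mono_measure hmono, ?_, ?_, fun z hz => hGb z (hbK (by rwa [mem_ball_iff_norm]))⟩
  · rw [hFc]
    refine Wk_real (hint hUc) (fun k hk hkc hkO => ?_) fun η hη hηc hηO => ?_
    · have h1 := (hint hP k hk hkc hkO).div_const 2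
      refine h1.congr (Eventually.of_forall fun z => ?_)
      ring
    · have hη0 : ∀ z, z ∉ K → η z = 0 := fun z hz =>
        image_eq_zero_of_notMem_tsupport fun h => hz (hbK (hηO h))
      obtain ⟨h1, h2, -⟩ := hsys η hη hη0
      have hd0 : ∀ v : ℂ, ∀ z, z ∉ K → fderiv ℝ η z v = 0 := fun v z hz => by
        rw [off_fderiv hK.isClosed hη0 hz]
        simp
      have hηd : ∀ v : ℂ, Continuous fun z => fderiv ℝ η z v := fun v =>
        (hη.continuous_fderiv (by simp)).clm_apply continuous_const
      have e1 : ∫ z, (U z : ℂ) * db (fun z => (η z : ℂ)) z =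
          (((∫ z in K, U z * fderiv ℝ η z 1 : ℝ) : ℂ) +
            Complex.I * ((∫ z in K, U z * fderiv ℝ η z Complex.I : ℝ) : ℂ)) / 2 := by
        rw [← setIntegral_eq_integral_of_forall_compl_eq_zero (s := K) (fun z hz => by
          rw [db_real hη, hd0 1 z hz, hd0 Complex.I z hz]
          simp), ← integral_complex_ofReal, ← integral_complex_ofReal, ← integral_const_mul,
          ← integral_add (hreal hUi _ (hηd 1)).ofReal
            ((hreal hUi _ (hηd Complex.I)).ofReal.const_mul _), ← integral_div]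
        refine integral_congr_ae (Eventually.of_forall fun z => ?_)
        simp only [db_real hη]
        push_cast
        ring
      have e2 : ∫ z, P z / 2 * (η z : ℂ) =
          (((∫ z in K, (P z).re * η z : ℝ) : ℂ) +
            Complex.I * ((∫ z in K, (P z).im * η z : ℝ) : ℂ)) / 2 := by
        rw [← setIntegral_eq_integral_of_forall_compl_eq_zero (s := K) (fun z hz => by
          rw [hη0 z hz]
          simp), ← integral_complex_ofReal, ← integral_complex_ofReal, ← integral_const_mul,
          ← integral_add (hreal hPr _ hη.continuous).ofReal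
            ((hreal hPm _ hη.continuous).ofReal.const_mul _), ← integral_div]
        refine integral_congr_ae (Eventually.of_forall fun z => ?_)
        simp only
        push_cast
        conv_lhs => rw [← Complex.re_add_im (P z)]
        ring
      rw [e1, e2, h1, h2]
      push_cast
      ring
  · refine Wk_real (hint hFm) (hint hGm) fun η hη hηc hηO => ?_
    have hη0 : ∀ z, z ∉ K → η z = 0 := fun z hz =>
      image_eq_zero_of_notMem_tsupport fun h => hz (hbK (hηO h))
    have hd0 : ∀ v : ℂ, ∀ z, z ∉ K → fderiv ℝ η z v = 0 := fun v z hz => by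
      rw [off_fderiv hK.isClosed hη0 hz]
      simp
    have hηs : ∀ v : ℂ, ContDiff ℝ ∞ fun z => fderiv ℝ η z v := fun v => dir_smooth hη v
    have hηd : ∀ v : ℂ, Continuous fun z => fderiv ℝ η z v := fun v => (hηs v).continuous
    obtain ⟨-, -, h3⟩ := hsys η hη hη0
    obtain ⟨h4, -, -⟩ := hsys _ (hηs Complex.I) (hd0 Complex.I)
    obtain ⟨-, h5, -⟩ := hsys _ (hηs 1) (hd0 1)
    have h6 : ∫ z in K, (P z).re * fderiv ℝ η z Complex.I =
        ∫ z in K, (P z).im * fderiv ℝ η z 1 := by
      have h7 : ∫ z in K, U z * fderiv ℝ (fun z => fderiv ℝ η z Complex.I) z 1 =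
          ∫ z in K, U z * fderiv ℝ (fun z => fderiv ℝ η z 1) z Complex.I := by
        refine integral_congr_ae (Eventually.of_forall fun z => ?_)
        simp only
        rw [Pool.Agent.Q73.NL.dd_symm hη z Complex.I 1]
      rw [h4, h5] at h7
      linarith
    have j1 := hreal hPr _ (hηd 1)
    have j2 := hreal hPm _ (hηd Complex.I)
    have j3 := hreal hPr _ (hηd Complex.I)
    have j4 := hreal hPm _ (hηd 1)
    have e1 : ∫ z, F z * db (fun z => (η z : ℂ)) z =
        (((∫ z in K, ((P z).re * fderiv ℝ η z 1 + (P z).im * fderiv ℝ η z Complex.I) : ℝ) : ℂ) +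
          Complex.I * ((∫ z in K, ((P z).re * fderiv ℝ η z Complex.I -
            (P z).im * fderiv ℝ η z 1) : ℝ) : ℂ)) / 4 := by
      rw [← setIntegral_eq_integral_of_forall_compl_eq_zero (s := K) (fun z hz => by
        rw [db_real hη, hd0 1 z hz, hd0 Complex.I z hz]
        simp), ← integral_complex_ofReal, ← integral_complex_ofReal, ← integral_const_mul,
        ← integral_add (j1.add j2).ofReal ((j3.sub j4).ofReal.const_mul _), ← integral_div]
      refine integral_congr_ae (Eventually.of_forall fun z => ?_)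
      simp only [db_real hη, hF]
      have h7 : conj (P z) = ((P z).re : ℂ) - ((P z).im : ℂ) * Complex.I := by
        apply Complex.ext <;> simp
      rw [h7]
      push_cast
      linear_combination (-((P z).im : ℂ) * ((fderiv ℝ η z Complex.I : ℝ) : ℂ) / 4) * Complex.I_sq
    have e2 : ∫ z, G z * (η z : ℂ) =
        ((-(lam / 4) * ∫ z in K, ρ z * (U z * η z) : ℝ) : ℂ) := by
      rw [← setIntegral_eq_integral_of_forall_compl_eq_zero (s := K) (fun z hz => by
        rw [hη0 z hz]
        simp), ← integral_const_mul, ← integral_complex_ofReal]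
      refine integral_congr_ae (Eventually.of_forall fun z => ?_)
      simp only [hG]
      push_cast
      ring
    have h8 : ∫ z in K, ((P z).re * fderiv ℝ η z Complex.I -
            (P z).im * fderiv ℝ η z 1) = 0 := by
      rw [integral_sub j3 j4, h6, sub_self]
    rw [e1, e2, h8, h3]
    have h9 : ∫ z in K, Real.exp (φ (D.ψ l z)) * |(D.A l z).det| * (U z * η z) =
        ∫ z in K, ρ z * (U z * η z) := by rw [hρ]
    rw [h9]
    push_cast
    ring

end Pool.Agent.L5helper74.UC
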