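import Pool.Agent.Q73.NL.TU1

/-!
# Unique continuation: mollification
-/

set_option autoImplicit false

open Set Filter Topology MeasureTheory
open scoped ContDiff ENNReal Convolution

noncomputable section

namespace Pool.Agent.L5helper74.UC

open Pool.Agent.Q73.NL (db)

/-- `∂̄ F = G` in the open set `O`, in the weak sense -/
def Wk (O : Set ℂ) (F G : ℂ → ℂ) : Prop :=
  ∀ η : ℂ → ℂ, ContDiff ℝ ∞ η → HasCompactSupport η → tsupport η ⊆ O →
    ∫ z, F z * db η z = - ∫ z, G z * η z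

/-- Jensen's inequality -/
lemma jens {Ω : Type} [MeasurableSpace Ω] {ν : Measure Ω} (hν : ν univ = 1) {f : Ω → ℝ≥0∞}
    (hf : AEMeasurable f ν) : (∫⁻ x, f x ∂ν) ^ 2 ≤ ∫⁻ x, f x ^ 2 ∂ν := by
  have h1 := ENNReal.lintegral_mul_le_Lp_mul_Lq ν Real.HolderConjugate.two_two
    (f := fun _ => (1 : ℝ≥0∞)) (g := f) aemeasurable_const hf
  simp only [Pi.mul_apply, one_mul, ENNReal.one_rpow, lintegral_const, hν, one_mul] at h1
  calc (∫⁻ x, f x ∂ν) ^ 2 ≤ ((∫⁻ x, f x ^ (2 : ℝ) ∂ν) ^ (1 / (2 : ℝ))) ^ 2 :=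
        pow_le_pow_left' h1 2
    _ = ∫⁻ x, f x ^ 2 ∂ν := by
        rw [← ENNReal.rpow_natCast, ← ENNReal.rpow_mul]
        norm_num

/-- Young's inequality for the convolution with a probability density -/
lemma young {φ : ℂ → ℝ} (hφ : Continuous φ) (h0 : ∀ z, 0 ≤ φ z) (h1 : ∫⁻ z, ENNReal.ofReal (φ z) = 1)
    {G : ℂ → ℂ} (hG : AEStronglyMeasurable G volume) :
    ∫⁻ z, ‖∫ t, φ t • G (z - t)‖ₑ ^ 2 ≤ ∫⁻ z, ‖G z‖ₑ ^ 2 := by
  obtain ⟨G', hG', hGG⟩ := hG
  have h2 : ∀ z, ∫ t, φ t • G (z - t) = ∫ t, φ t • G' (z - t) := by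
    intro z
    refine integral_congr_ae ?_
    have h3 : ∀ᵐ t, G (z - t) = G' (z - t) :=
      (quasiMeasurePreserving_sub_left volume z).ae hGG
    filter_upwards [h3] with t ht
    rw [ht]
  have h3 : ∫⁻ z, ‖G z‖ₑ ^ 2 = ∫⁻ z, ‖G' z‖ₑ ^ 2 :=
    lintegral_congr_ae (hGG.mono fun z hz => by
      show ‖G z‖ₑ ^ 2 = ‖G' z‖ₑ ^ 2
      rw [hz])
  simp only [h2]
  rw [h3]
  have hm : Measurable G' := hG'.measurable
  have hφm : Measurable φ := hφ.measurable
  have hp : ∀ z, ‖∫ t, φ t • G' (z - t)‖ₑ ^ 2 ≤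
      ∫⁻ t, ENNReal.ofReal (φ t) * ‖G' (z - t)‖ₑ ^ 2 := by
    intro z
    have h4 : ‖∫ t, φ t • G' (z - t)‖ₑ ≤
        ∫⁻ t, ‖G' (z - t)‖ₑ ∂(volume.withDensity fun t => ENNReal.ofReal (φ t)) := by
      rw [lintegral_withDensity_eq_lintegral_mul _ (by fun_prop) (by fun_prop)]
      refine (enorm_integral_le_lintegral_enorm _).trans (le_of_eq ?_)
      refine lintegral_congr fun t => ?_
      rw [enorm_smul, Real.enorm_eq_ofReal (h0 t)]
      rfl
    have h5 := jens (ν := volume.withDensity fun t => ENNReal.ofReal (φ t)) (by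
      rw [withDensity_apply _ MeasurableSet.univ, Measure.restrict_univ, h1])
      (f := fun t => ‖G' (z - t)‖ₑ) (by fun_prop)
    refine (pow_le_pow_left' h4 2).trans (h5.trans (le_of_eq ?_))
    rw [lintegral_withDensity_eq_lintegral_mul _ (by fun_prop) (by fun_prop)]
    rfl
  calc ∫⁻ z, ‖∫ t, φ t • G' (z - t)‖ₑ ^ 2
      ≤ ∫⁻ z, ∫⁻ t, ENNReal.ofReal (φ t) * ‖G' (z - t)‖ₑ ^ 2 := lintegral_mono hp
    _ = ∫⁻ t, ∫⁻ z, ENNReal.ofReal (φ t) * ‖G' (z - t)‖ₑ ^ 2 :=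
        lintegral_lintegral_swap (by fun_prop)
    _ = ∫⁻ t, ENNReal.ofReal (φ t) * ∫⁻ z, ‖G' z‖ₑ ^ 2 := by
        refine lintegral_congr fun t => ?_
        rw [lintegral_const_mul _ (by fun_prop)]
        congr 1
        exact lintegral_sub_right_eq_self (fun z => ‖G' z‖ₑ ^ 2) t
    _ = ∫⁻ z, ‖G' z‖ₑ ^ 2 := by
        rw [lintegral_mul_const _ (by fun_prop), h1, one_mul]

/-- mollifiers -/
lemma mollifier {r : ℝ} (hr : 0 < r) : ∃ φ : ℕ → ℂ → ℝ, (∀ k, ContDiff ℝ ∞ (φ k)) ∧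
    (∀ k, HasCompactSupport (φ k)) ∧ (∀ k z, 0 ≤ φ k z) ∧
    (∀ k, ∫⁻ z, ENNReal.ofReal (φ k z) = 1) ∧ (∀ k z, φ k z ≠ 0 → ‖z‖ < r / 2) ∧
    ∀ F : ℂ → ℂ, LocallyIntegrable F volume →
      ∀ᵐ z, Tendsto (fun k => ∫ t, φ k t • F (z - t)) atTop (𝓝 (F z)) := by
  obtain ⟨ρ, hρ⟩ : ∃ ρ : ℕ → ContDiffBump (0 : ℂ), ∀ k,
      (ρ k).rOut = r / (k + 2) ∧ (ρ k).rIn = r / (k + 2) / 2 := by
    refine ⟨fun k => ⟨r / (k + 2) / 2, r / (k + 2), by positivity, ?_⟩, fun k => ⟨rfl, rfl⟩⟩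
    have : 0 < r / ((k : ℝ) + 2) := by positivity
    linarith
  refine ⟨fun k => (ρ k).normed volume, fun k => (ρ k).contDiff_normed, fun k =>
    (ρ k).hasCompactSupport_normed, fun k z => (ρ k).nonneg_normed z, fun k => ?_, fun k z hz => ?_,
    fun F hF => ?_⟩
  · rw [← ofReal_integral_eq_lintegral_ofReal
      ((ρ k).integrable_normed) (Eventually.of_forall fun z => (ρ k).nonneg_normed z),
      (ρ k).integral_normed, ENNReal.ofReal_one]
  · have h1 : z ∈ Function.support ((ρ k).normed volume) := hz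
    rw [(ρ k).support_normed_eq, mem_ball_zero_iff, (hρ k).1] at h1
    refine h1.trans_le ?_
    exact div_le_div_of_nonneg_left hr.le (by norm_num) (by
      have : (0 : ℝ) ≤ k := Nat.cast_nonneg k
      linarith)
  · have h1 : Tendsto (fun k => (ρ k).rOut) atTop (𝓝 0) := by
      simp only [fun k => (hρ k).1]
      exact Tendsto.div_atTop tendsto_const_nhds
        (tendsto_atTop_add_const_right _ _ tendsto_natCast_atTop_atTop)
    exact ContDiffBump.ae_convolution_tendsto_right_of_locallyIntegrable h1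
      (K := 2) (Eventually.of_forall fun k => by rw [(hρ k).1, (hρ k).2]; linarith) hF

/-- convolutions and the operator `∂̄` -/
lemma cv_db {φ : ℂ → ℝ} (hφ : ContDiff ℝ ∞ φ) (hc : HasCompactSupport φ) {F : ℂ → ℂ}
    (hF : LocallyIntegrable F volume) :
    ContDiff ℝ ∞ (fun z => ∫ t, φ t • F (z - t)) ∧
      ∀ G : ℂ → ℂ, Wk univ F G → ∀ z, db (fun z => ∫ t, φ t • F (z - t)) z =
        ∫ t, φ t • G (z - t) := by
  obtain ⟨L, hL⟩ : ∃ L : ℂ →L[ℝ] ℝ →L[ℝ] ℂ, L = (ContinuousLinearMap.lsmul ℝ ℝ).flip := ⟨_, rfl⟩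
  have hL2 : ∀ (w : ℂ) (s : ℝ), L w s = s • w := fun w s => by rw [hL]; rfl
  have h0 : (fun z => ∫ t, φ t • F (z - t)) = (F ⋆[L, volume] φ) := by
    have h1 : (F ⋆[L, volume] φ) = (φ ⋆[ContinuousLinearMap.lsmul ℝ ℝ, volume] F) := by
      rw [hL]
      exact convolution_flip _
    rw [h1]
    rfl
  rw [h0]
  refine ⟨hc.contDiff_convolution_right L hF hφ, fun G hG z => ?_⟩
  have hd := hc.hasFDerivAt_convolution_right L hF (hφ.of_le (by norm_cast)) z
  have hcd : Continuous (fderiv ℝ φ) := hφ.continuous_fderiv (by simp)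
  have hv : ∀ v : ℂ, fderiv ℝ (F ⋆[L, volume] φ) z v =
      ∫ t, F t * ((fderiv ℝ φ (z - t) v : ℝ) : ℂ) := by
    intro v
    rw [hd.fderiv, convolution_precompR_apply L hF (hc.fderiv ℝ) hcd]
    rw [convolution_def]
    refine integral_congr_ae (Eventually.of_forall fun t => ?_)
    simp only [hL2, Complex.real_smul]
    ring
  have hint : ∀ v : ℂ, Integrable (fun t => F t * ((fderiv ℝ φ (z - t) v : ℝ) : ℂ)) := by
    intro v
    have h1 : Continuous fun t : ℂ => ((fderiv ℝ φ (z - t) v : ℝ) : ℂ) := by fun_prop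
    have h2 : HasCompactSupport fun t : ℂ => ((fderiv ℝ φ (z - t) v : ℝ) : ℂ) := by
      have h3 : HasCompactSupport fun t : ℂ => fderiv ℝ φ (z - t) v := by
        have h4 := (hc.fderiv_apply ℝ v).comp_homeomorph (Homeomorph.subLeft z)
        exact h4
      exact h3.comp_left Complex.ofReal_zero
    have h3 := hF.integrable_smul_right_of_hasCompactSupport h1 h2
    exact h3
  obtain ⟨η, hη⟩ : ∃ η : ℂ → ℂ, η = fun t => ((φ (z - t) : ℝ) : ℂ) := ⟨_, rfl⟩
  have hη1 : ContDiff ℝ ∞ η := by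
    rw [hη]
    exact Complex.ofRealCLM.contDiff.comp (hφ.comp (contDiff_const.sub contDiff_id))
  have hη2 : HasCompactSupport η := by
    rw [hη]
    have h4 := hc.comp_homeomorph (Homeomorph.subLeft z)
    exact h4.comp_left Complex.ofReal_zero
  have hη3 : ∀ t v, fderiv ℝ η t v = -((fderiv ℝ φ (z - t) v : ℝ) : ℂ) := by
    intro t v
    have h1 : HasFDerivAt (fun t : ℂ => φ (z - t))
        ((fderiv ℝ φ (z - t)).comp (-ContinuousLinearMap.id ℝ ℂ)) t :=
      ((hφ.differentiable (by simp)) (z - t)).hasFDerivAt.comp t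
        ((hasFDerivAt_id t).const_sub z)
    have h2 : HasFDerivAt η (Complex.ofRealCLM.comp
        ((fderiv ℝ φ (z - t)).comp (-ContinuousLinearMap.id ℝ ℂ))) t := by
      rw [hη]
      exact Complex.ofRealCLM.hasFDerivAt.comp t h1
    rw [h2.fderiv]
    simp
  have h3 := hG η hη1 hη2 (subset_univ _)
  have h4 : ∫ t, F t * db η t = -(db (F ⋆[L, volume] φ) z) := by
    unfold db
    rw [hv, hv, ← integral_const_mul, ← integral_add (hint 1) ((hint Complex.I).const_mul _),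
      ← integral_div, ← integral_neg]
    refine integral_congr_ae (Eventually.of_forall fun t => ?_)
    simp only [hη3]
    ring
  have h5 : ∫ t, G t * η t = ∫ t, φ t • G (z - t) := by
    rw [← integral_sub_left_eq_self _ volume z, hη]
    refine integral_congr_ae (Eventually.of_forall fun t => ?_)
    simp only [sub_sub_cancel, Complex.real_smul]
    ring
  rw [h4, h5] at h3
  exact neg_injective h3

end Pool.Agent.L5helper74.UC
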