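import Pool.Agent.L5helper74.UC.Pos

/-!
# Products of functions with weak derivatives
-/

set_option autoImplicit false
set_option linter.unusedSectionVars false
set_option synthInstance.maxHeartbeats 400000

open Set Filter Topology MeasureTheory
open scoped ContDiff ENNReal ComplexConjugate

noncomputable section

namespace Pool.Agent.L5helper74.UC

open Pool.Agent.Q73.NL (db)

lemma enorm_fin {g : ℂ → ℂ} (hg : MemLp g 2 volume) : ∫⁻ z, ‖g z‖ₑ ^ 2 ≠ ⊤ := by
  have h7 := hg.2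
  rw [eLpNorm_lt_top_iff_lintegral_rpow_enorm_lt_top (by norm_num) (by norm_num)] at h7
  simpa using h7.ne

lemma mem_of_fin {g : ℂ → ℂ} (hg : AEStronglyMeasurable g volume)
    (h : ∫⁻ z, ‖g z‖ₑ ^ 2 ≠ ⊤) : MemLp g 2 volume := by
  refine ⟨hg, ?_⟩
  rw [eLpNorm_lt_top_iff_lintegral_rpow_enorm_lt_top (by norm_num) (by norm_num)]
  simpa using h.lt_top

/-- convergence almost everywhere and convergence of the norms imply convergence in the mean -/
lemma l2conv {f : ℕ → ℂ → ℂ} {g : ℂ → ℂ} (hf : ∀ k, AEStronglyMeasurable (f k) volume)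
    (hg : MemLp g 2 volume) (hle : ∀ k, ∫⁻ z, ‖f k z‖ₑ ^ 2 ≤ ∫⁻ z, ‖g z‖ₑ ^ 2)
    (hae : ∀ᵐ z, Tendsto (fun k => f k z) atTop (𝓝 (g z))) :
    Tendsto (fun k => ∫⁻ z, ‖f k z - g z‖ₑ ^ 2) atTop (𝓝 0) := by
  obtain ⟨I, hI⟩ : ∃ I : ℝ≥0∞, I = ∫⁻ z, ‖g z‖ₑ ^ 2 := ⟨_, rfl⟩
  have hIt : I ≠ ⊤ := by rw [hI]; exact enorm_fin hg
  have hm1 : ∀ k, AEMeasurable (fun z => ‖f k z‖ₑ ^ 2) volume := fun k => (hf k).enorm.pow_const 2
  have hm2 : AEMeasurable (fun z => ‖g z‖ₑ ^ 2) volume := hg.1.enorm.pow_const 2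
  have hm3 : ∀ k, AEMeasurable (fun z => ‖f k z - g z‖ₑ ^ 2) volume := fun k =>
    ((hf k).sub hg.1).enorm.pow_const 2
  have hm4 : ∀ k, AEMeasurable (fun z => 2 * ‖f k z‖ₑ ^ 2 + 2 * ‖g z‖ₑ ^ 2) volume := fun k =>
    ((hm1 k).const_mul 2).add (hm2.const_mul 2)
  have hsum : ∀ k, ∫⁻ z, (2 * ‖f k z‖ₑ ^ 2 + 2 * ‖g z‖ₑ ^ 2) ≤ 4 * I := by
    intro k
    rw [lintegral_add_right' _ (hm2.const_mul 2), lintegral_const_mul'' _ (hm1 k),
      lintegral_const_mul'' _ hm2, ← hI]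
    have h1 := hle k
    rw [← hI] at h1
    calc (2 * ∫⁻ z, ‖f k z‖ₑ ^ 2) + 2 * I ≤ 2 * I + 2 * I :=
          add_le_add (mul_le_mul_right h1 2) le_rfl
      _ = 4 * I := by ring
  have hle2 : ∀ k z, ‖f k z - g z‖ₑ ^ 2 ≤ 2 * ‖f k z‖ₑ ^ 2 + 2 * ‖g z‖ₑ ^ 2 := by
    intro k z
    have := sq_add_le (f k z) (-g z)
    rwa [enorm_neg, ← sub_eq_add_neg] at this
  have h1 : ∀ k, (∫⁻ z, (2 * ‖f k z‖ₑ ^ 2 + 2 * ‖g z‖ₑ ^ 2 - ‖f k z - g z‖ₑ ^ 2)) +
      ∫⁻ z, ‖f k z - g z‖ₑ ^ 2 ≤ 4 * I := by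
    intro k
    rw [← lintegral_add_right' _ (hm3 k)]
    refine (le_of_eq (lintegral_congr fun z => ?_)).trans (hsum k)
    exact tsub_add_cancel_of_le (hle2 k z)
  have h2 : 4 * I ≤ liminf (fun k => ∫⁻ z, (2 * ‖f k z‖ₑ ^ 2 + 2 * ‖g z‖ₑ ^ 2 -
      ‖f k z - g z‖ₑ ^ 2)) atTop := by
    refine le_trans ?_ (lintegral_liminf_le' fun k => (hm4 k).sub (hm3 k))
    rw [hI, ← lintegral_const_mul'' _ hm2]
    refine lintegral_mono_ae ?_
    filter_upwards [hae] with z hz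
    have hen : Tendsto (fun k => ‖f k z‖ₑ) atTop (𝓝 ‖g z‖ₑ) := (continuous_enorm.tendsto _).comp hz
    have hed : Tendsto (fun k => ‖f k z - g z‖ₑ) atTop (𝓝 0) := by
      have h3 : Tendsto (fun k => f k z - g z) atTop (𝓝 0) := by
        have := hz.sub_const (g z)
        rwa [sub_self] at this
      have h4 := (continuous_enorm.tendsto (0 : ℂ)).comp h3
      rwa [enorm_zero] at h4
    have h5 : Tendsto (fun k => 2 * ‖f k z‖ₑ ^ 2 + 2 * ‖g z‖ₑ ^ 2 - ‖f k z - g z‖ₑ ^ 2) atTop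
        (𝓝 (2 * ‖g z‖ₑ ^ 2 + 2 * ‖g z‖ₑ ^ 2 - 0 ^ 2)) := by
      refine ENNReal.Tendsto.sub ?_ (ENNReal.Tendsto.pow hed) (Or.inr (by simp))
      refine Tendsto.add ?_ tendsto_const_nhds
      exact ENNReal.Tendsto.const_mul (ENNReal.Tendsto.pow hen) (Or.inr (by simp))
    rw [h5.liminf_eq]
    refine le_of_eq ?_
    rw [zero_pow two_ne_zero, tsub_zero]
    ring
  rw [ENNReal.tendsto_nhds_zero]
  intro ε hε
  by_cases hI0 : 4 * I = 0
  · refine Eventually.of_forall fun k => ?_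
    have h3 := (le_add_self (a := ∫⁻ z, ‖f k z - g z‖ₑ ^ 2)).trans (h1 k)
    rw [hI0] at h3
    exact h3.trans zero_le
  · have h4t : 4 * I ≠ ⊤ := ENNReal.mul_ne_top (by norm_num) hIt
    have h3 : 4 * I - ε < 4 * I := ENNReal.sub_lt_self h4t hI0 hε.ne'
    filter_upwards [eventually_lt_of_lt_liminf (h3.trans_le h2)] with k hk
    have h4 := h1 k
    obtain ⟨B, hB⟩ : ∃ B : ℝ≥0∞, B = ∫⁻ z, (2 * ‖f k z‖ₑ ^ 2 + 2 * ‖g z‖ₑ ^ 2 -
      ‖f k z - g z‖ₑ ^ 2) := ⟨_, rfl⟩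
    rw [← hB] at hk h4
    have hBt : B ≠ ⊤ := ((le_self_add.trans h4).trans_lt h4t.lt_top).ne
    refine (ENNReal.add_le_add_iff_left hBt).1 (h4.trans ?_)
    exact tsub_le_iff_right.1 hk.le

/-- the limit of a pairing -/
lemma pair_lim {A : ℂ → ℂ} (hA : MemLp A 2 volume) {f : ℕ → ℂ → ℂ} {g : ℂ → ℂ}
    (hf : ∀ k, MemLp (f k) 2 volume) (hg : MemLp g 2 volume)
    (h : Tendsto (fun k => ∫⁻ z, ‖f k z - g z‖ₑ ^ 2) atTop (𝓝 0)) :
    Tendsto (fun k => ∫ z, A z * f k z) atTop (𝓝 (∫ z, A z * g z)) := by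
  refine tendsto_integral_of_L1 (fun z => A z * g z) (hA.integrable_mul hg).1
    (Eventually.of_forall fun k => hA.integrable_mul (hf k)) ?_
  have hb : ∀ k, ∫⁻ z, ‖A z * f k z - A z * g z‖ₑ ≤ (∫⁻ z, ‖A z‖ₑ ^ 2) ^ (1 / (2 : ℝ)) *
      (∫⁻ z, ‖f k z - g z‖ₑ ^ 2) ^ (1 / (2 : ℝ)) := by
    intro k
    have h1 := ENNReal.lintegral_mul_le_Lp_mul_Lq volume Real.HolderConjugate.two_two
      (f := fun z => ‖A z‖ₑ) (g := fun z => ‖f k z - g z‖ₑ) hA.1.enorm
      ((hf k).1.sub hg.1).enorm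
    simp only [ENNReal.rpow_ofNat] at h1
    refine le_trans (le_of_eq (lintegral_congr fun z => ?_)) h1
    rw [← mul_sub, enorm_mul]
    rfl
  have hlim : Tendsto (fun k => (∫⁻ z, ‖A z‖ₑ ^ 2) ^ (1 / (2 : ℝ)) *
      (∫⁻ z, ‖f k z - g z‖ₑ ^ 2) ^ (1 / (2 : ℝ))) atTop (𝓝 0) := by
    have h1 : Tendsto (fun k => (∫⁻ z, ‖f k z - g z‖ₑ ^ 2) ^ (1 / (2 : ℝ))) atTop (𝓝 0) := by
      have h2 := (ENNReal.continuous_rpow_const (y := 1 / (2 : ℝ))).tendsto (0 : ℝ≥0∞)
      rw [ENNReal.zero_rpow_of_pos (by norm_num)] at h2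
      exact h2.comp h
    have h3 := ENNReal.Tendsto.const_mul (a := (∫⁻ z, ‖A z‖ₑ ^ 2) ^ (1 / (2 : ℝ))) h1 (Or.inr
      (ENNReal.rpow_ne_top_of_nonneg (by norm_num) (enorm_fin hA)))
    rwa [mul_zero] at h3
  exact tendsto_of_tendsto_of_tendsto_of_le_of_le tendsto_const_nhds hlim
    (fun _ => zero_le) hb

/-- the cutoff -/
lemma cutoff (c : ℂ) {r : ℝ} (hr : 0 < r) : ∃ χ : ℂ → ℝ, ContDiff ℝ ∞ χ ∧
    (∀ z, ‖z - c‖ ≤ r → χ z = 1) ∧ ∀ z, χ z ≠ 0 → ‖z - c‖ ≤ 3 / 2 * r := by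
  obtain ⟨b, hb1, hb2⟩ : ∃ b : ContDiffBump c, b.rIn = r ∧ b.rOut = 3 / 2 * r :=
    ⟨⟨r, 3 / 2 * r, hr, by linarith⟩, rfl, rfl⟩
  refine ⟨b, b.contDiff, fun z hz => b.one_of_mem_closedBall ?_, fun z hz => ?_⟩
  · rwa [mem_closedBall_iff_norm, hb1]
  · have h1 : z ∈ Function.support b := hz
    rw [b.support_eq, mem_ball_iff_norm, hb2] at h1
    exact h1.le

/-- localized mollifications -/
lemma moll {c : ℂ} {r : ℝ} (hr : 0 < r) {f F : ℂ → ℂ}
    (hf : MemLp f 2 (volume.restrict (Metric.ball c (2 * r))))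
    (hF : MemLp F 2 (volume.restrict (Metric.ball c (2 * r))))
    (hW : Wk (Metric.ball c (2 * r)) f F) :
    ∃ (φ : ℕ → ℂ → ℝ) (ft Ft : ℂ → ℂ), (∀ k z, 0 ≤ φ k z) ∧ (∀ k, ∫ t, φ k t = 1) ∧
      (∀ k, Continuous (φ k)) ∧ (∀ k, HasCompactSupport (φ k)) ∧
      (∀ k z, φ k z ≠ 0 → ‖z‖ < r / 2) ∧ MemLp ft 2 volume ∧ MemLp Ft 2 volume ∧
      (∀ z, ‖z - c‖ < r → ft z = f z ∧ Ft z = F z) ∧
      (∀ k, ContDiff ℝ ∞ fun z => ∫ t, φ k t • ft (z - t)) ∧
      (∀ k z, db (fun z => ∫ t, φ k t • ft (z - t)) z = ∫ t, φ k t • Ft (z - t)) ∧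
      (∀ k, MemLp (fun z => ∫ t, φ k t • ft (z - t)) 2 volume) ∧
      (∀ k, MemLp (fun z => ∫ t, φ k t • Ft (z - t)) 2 volume) ∧
      Tendsto (fun k => ∫⁻ z, ‖(∫ t, φ k t • ft (z - t)) - ft z‖ₑ ^ 2) atTop (𝓝 0) ∧
      Tendsto (fun k => ∫⁻ z, ‖(∫ t, φ k t • Ft (z - t)) - Ft z‖ₑ ^ 2) atTop (𝓝 0) ∧
      ∀ᵐ z, Tendsto (fun k => ∫ t, φ k t • ft (z - t)) atTop (𝓝 (ft z)) := by
  obtain ⟨O, hO⟩ : ∃ O : Set ℂ, O = Metric.ball c (2 * r) := ⟨_, rfl⟩
  rw [← hO] at hf hF hW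
  have hOm : MeasurableSet O := by rw [hO]; exact measurableSet_ball
  have hfin : IsFiniteMeasure (volume.restrict O) := by
    rw [hO]
    exact ⟨by rw [Measure.restrict_apply_univ]; exact measure_ball_lt_top⟩
  obtain ⟨χ, hχ1, hχ2, hχ3⟩ := cutoff c hr
  obtain ⟨m, hm⟩ : ∃ m : ℂ → ℂ, m = fun z => (χ z : ℂ) := ⟨_, rfl⟩
  have hm1 : ContDiff ℝ ∞ m := by rw [hm]; exact Complex.ofRealCLM.contDiff.comp hχ1
  have hms : ∀ z, m z ≠ 0 → ‖z - c‖ ≤ 3 / 2 * r := fun z hz => hχ3 z (by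
    intro h0
    rw [hm] at hz
    simp only [h0, Complex.ofReal_zero, ne_eq, not_true_eq_false] at hz)
  have hmc := hcs hms
  have htO : tsupport m ⊆ O := (tsup hms).trans (by
    rw [hO]
    exact Metric.closedBall_subset_ball (by linarith))
  have hmO : ∀ z, m z ≠ 0 → z ∈ O := fun z hz => htO (subset_tsupport _ hz)
  have hdbO : ∀ z, db m z ≠ 0 → z ∈ O := fun z hz => htO (by
    by_contra hn
    apply hz
    have h1 : fderiv ℝ m z = 0 := by
      by_contra hne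
      exact hn (support_fderiv_subset ℝ hne)
    unfold Pool.Agent.Q73.NL.db
    rw [h1]
    simp)
  have hdb0 : ∀ z, ‖z - c‖ < r → db m z = 0 := fun z hz => by
    have h1 : m =ᶠ[𝓝 z] fun _ => (1 : ℂ) := by
      filter_upwards [Metric.isOpen_ball.mem_nhds (show z ∈ Metric.ball c r by
        rwa [mem_ball_iff_norm])] with w hw
      rw [mem_ball_iff_norm] at hw
      rw [hm]
      simp only [hχ2 w hw.le, Complex.ofReal_one]
    unfold Pool.Agent.Q73.NL.db
    rw [h1.fderiv_eq]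
    simp
  obtain ⟨ft, hft⟩ : ∃ ft : ℂ → ℂ, ft = fun z => m z * f z := ⟨_, rfl⟩
  obtain ⟨Ft, hFt⟩ : ∃ Ft : ℂ → ℂ, Ft = fun z => m z * F z + db m z * f z := ⟨_, rfl⟩
  have hft2 : MemLp ft 2 volume := by
    rw [hft]
    exact mul_mem hOm hf hm1.continuous hmc hmO
  have hFt2 : MemLp Ft 2 volume := by
    rw [hFt]
    exact (mul_mem hOm hF hm1.continuous hmc hmO).add
      (mul_mem hOm hf (db_cont hm1) (db_hcs hmc) hdbO)
  have hWt : Wk univ ft Ft := by
    rw [hft, hFt]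
    exact Wk_mul hW hm1 hmc htO
      ((hf.integrable one_le_two).mono_measure (Measure.restrict_mono htO le_rfl))
      ((hF.integrable one_le_two).mono_measure (Measure.restrict_mono htO le_rfl))
  have hl : ∀ {K : ℂ → ℂ}, MemLp K 2 volume → LocallyIntegrable K volume := fun hK =>
    hK.locallyIntegrable (by norm_num)
  obtain ⟨φ, h1, h2, h3, h4, h5, h6⟩ := mollifier hr
  have hcd : ∀ {K : ℂ → ℂ}, MemLp K 2 volume → ∀ k,
      ContDiff ℝ ∞ fun z => ∫ t, φ k t • K (z - t) := fun hK k => (cv_db (h1 k) (h2 k) (hl hK)).1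
  have hyo : ∀ {K : ℂ → ℂ}, MemLp K 2 volume → ∀ k,
      ∫⁻ z, ‖∫ t, φ k t • K (z - t)‖ₑ ^ 2 ≤ ∫⁻ z, ‖K z‖ₑ ^ 2 := fun hK k =>
    young (h1 k).continuous (h3 k) (h4 k) hK.1
  have hmem : ∀ {K : ℂ → ℂ}, MemLp K 2 volume → ∀ k,
      MemLp (fun z => ∫ t, φ k t • K (z - t)) 2 volume := fun hK k =>
    mem_of_fin (hcd hK k).continuous.aestronglyMeasurable
      ((hyo hK k).trans_lt (enorm_fin hK).lt_top).ne
  have hconv : ∀ {K : ℂ → ℂ}, MemLp K 2 volume →
      Tendsto (fun k => ∫⁻ z, ‖(∫ t, φ k t • K (z - t)) - K z‖ₑ ^ 2) atTop (𝓝 0) := fun hK =>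
    l2conv (fun k => (hcd hK k).continuous.aestronglyMeasurable) hK (hyo hK) (h6 _ (hl hK))
  refine ⟨φ, ft, Ft, h3, fun k => ?_, fun k => (h1 k).continuous, h2, h5, hft2, hFt2,
    fun z hz => ?_, hcd hft2, fun k z => (cv_db (h1 k) (h2 k) (hl hft2)).2 _ hWt z, hmem hft2,
    hmem hFt2, hconv hft2, hconv hFt2, h6 _ (hl hft2)⟩
  · rw [integral_eq_lintegral_of_nonneg_ae (Eventually.of_forall (h3 k))
      (h1 k).continuous.aestronglyMeasurable, h4 k]
    rfl
  · have h7 : m z = 1 := by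
      rw [hm]
      simp only [hχ2 z hz.le, Complex.ofReal_one]
    rw [hft, hFt]
    simp only [h7, hdb0 z hz, one_mul, zero_mul, add_zero, and_self]

lemma off_t {η : ℂ → ℂ} {z : ℂ} (hz : z ∉ tsupport η) : η z = 0 ∧ db η z = 0 := by
  refine ⟨image_eq_zero_of_notMem_tsupport hz, ?_⟩
  have h1 : fderiv ℝ η z = 0 := by
    by_contra hne
    exact hz (support_fderiv_subset ℝ hne)
  unfold Pool.Agent.Q73.NL.db
  rw [h1]
  simp

/-- the product rule -/
theorem prod {c : ℂ} {r : ℝ} (hr : 0 < r) {f F g G : ℂ → ℂ}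
    (hf : MemLp f 2 (volume.restrict (Metric.ball c (2 * r))))
    (hF : MemLp F 2 (volume.restrict (Metric.ball c (2 * r))))
    (hg : MemLp g 2 (volume.restrict (Metric.ball c (2 * r))))
    (hG : MemLp G 2 (volume.restrict (Metric.ball c (2 * r))))
    (hW : Wk (Metric.ball c (2 * r)) f F) (hW' : Wk (Metric.ball c (2 * r)) g G) :
    Wk (Metric.ball c r) (fun z => f z * g z) (fun z => F z * g z + f z * G z) := by
  intro η hη hηc hηO
  obtain ⟨φ, ft, Ft, p1, p2, p3, p4, p5, p6, p7, p8, p9, p10, p11, p12, p13, p14, p15⟩ :=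
    moll hr hf hF hW
  have hsub : Metric.ball c r ⊆ Metric.ball c (2 * r) := Metric.ball_subset_ball (by linarith)
  have hOm : MeasurableSet (Metric.ball c (2 * r)) := measurableSet_ball
  have hη1 : ∀ z, η z ≠ 0 → z ∈ Metric.ball c (2 * r) := fun z hz =>
    hsub (hηO (subset_tsupport _ hz))
  have hη2 : ∀ z, db η z ≠ 0 → z ∈ Metric.ball c (2 * r) := fun z hz => hsub (hηO (by
    by_contra hn
    exact hz (off_t hn).2))
  have a1 : MemLp (fun z => db η z * g z) 2 volume :=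
    mul_mem hOm hg (db_cont hη) (db_hcs hηc) hη2
  have a2 : MemLp (fun z => η z * G z) 2 volume := mul_mem hOm hG hη.continuous hηc hη1
  have a3 : MemLp (fun z => η z * g z) 2 volume := mul_mem hOm hg hη.continuous hηc hη1
  have key : ∀ k, (∫ z, (db η z * g z + η z * G z) * ∫ t, φ k t • ft (z - t)) +
      ∫ z, η z * g z * ∫ t, φ k t • Ft (z - t) = 0 := by
    intro k
    obtain ⟨u, hu⟩ : ∃ u : ℂ → ℂ, u = fun z => ∫ t, φ k t • ft (z - t) := ⟨_, rfl⟩
    have hu' : ∀ z, ∫ t, φ k t • ft (z - t) = u z := fun z => by rw [hu]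
    have hu1 : ContDiff ℝ ∞ u := by rw [hu]; exact p9 k
    have hdu : ∀ z, db u z = ∫ t, φ k t • Ft (z - t) := by rw [hu]; exact p10 k
    have hu2 : MemLp u 2 volume := by rw [hu]; exact p11 k
    have h1 := hW' (fun z => η z * u z) (hη.mul hu1) hηc.mul_right
      ((tsupport_mul_subset_left).trans (hηO.trans hsub))
    have h2 : ∀ z, db (fun z => η z * u z) z = db η z * u z + η z * db u z := fun z =>
      db_mul (hη.differentiable (by simp) z) (hu1.differentiable (by simp) z)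
    simp only [h2, hdu] at h1
    simp only [hu']
    have i1 : Integrable (fun z => (db η z * g z + η z * G z) * u z) volume :=
      (a1.add a2).integrable_mul hu2
    have i2 : Integrable (fun z => η z * g z * ∫ t, φ k t • Ft (z - t)) volume :=
      a3.integrable_mul (p12 k)
    have i3 : Integrable (fun z => g z * (db η z * u z + η z * ∫ t, φ k t • Ft (z - t))) volume := by
      have h3 := (a1.integrable_mul hu2).add i2
      refine h3.congr (Eventually.of_forall fun z => ?_)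
      simp only [Pi.add_apply]
      show db η z * g z * u z + η z * g z * (∫ t, φ k t • Ft (z - t)) = _
      ring
    have i4 : Integrable (fun z => G z * (η z * u z)) volume := by
      refine (a2.integrable_mul hu2).congr (Eventually.of_forall fun z => ?_)
      show η z * G z * u z = _
      ring
    rw [← integral_add i1 i2]
    have h4 : (fun z => (db η z * g z + η z * G z) * u z +
        η z * g z * ∫ t, φ k t • Ft (z - t)) = fun z =>
        g z * (db η z * u z + η z * ∫ t, φ k t • Ft (z - t)) + G z * (η z * u z) := by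
      funext z
      ring
    rw [h4, integral_add i3 i4, h1]
    ring
  have l1 := pair_lim (a1.add a2) p11 p6 p13
  have l2 := pair_lim a3 p12 p7 p14
  have l3 := l1.add l2
  have l4 : Tendsto (fun _ : ℕ => (0 : ℂ)) atTop (𝓝
      ((∫ z, (db η z * g z + η z * G z) * ft z) + ∫ z, η z * g z * Ft z)) := by
    refine l3.congr fun k => ?_
    rw [← key k]
    rfl
  have h5 := tendsto_nhds_unique l4 tendsto_const_nhds
  have hin : ∀ z, z ∈ tsupport η → ft z = f z ∧ Ft z = F z := fun z hz => p8 z (by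
    have := hηO hz
    rwa [mem_ball_iff_norm] at this)
  have j1 : Integrable (fun z => db η z * g z * ft z) volume := a1.integrable_mul p6
  have j2 : Integrable (fun z => η z * G z * ft z) volume := a2.integrable_mul p6
  have j3 : Integrable (fun z => η z * g z * Ft z) volume := a3.integrable_mul p7
  have e1 : ∫ z, f z * g z * db η z = ∫ z, db η z * g z * ft z := by
    refine integral_congr_ae (Eventually.of_forall fun z => ?_)
    by_cases hz : z ∈ tsupport η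
    · simp only [(hin z hz).1]
      ring
    · simp only [(off_t hz).2]
      ring
  have e2 : ∫ z, (F z * g z + f z * G z) * η z = ∫ z, (η z * G z * ft z + η z * g z * Ft z) := by
    refine integral_congr_ae (Eventually.of_forall fun z => ?_)
    by_cases hz : z ∈ tsupport η
    · simp only [(hin z hz).1, (hin z hz).2]
      ring
    · simp only [(off_t hz).1]
      ring
  rw [e1, e2, integral_add j2 j3]
  have e3 : ∫ z, (db η z * g z + η z * G z) * ft z = (∫ z, db η z * g z * ft z) +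
      ∫ z, η z * G z * ft z := by
    rw [← integral_add j1 j2]
    refine integral_congr_ae (Eventually.of_forall fun z => ?_)
    simp only
    ring
  rw [e3] at h5
  linear_combination h5

/-- the fundamental lemma -/
lemma van {c : ℂ} {s : ℝ} {f h : ℂ → ℂ} (hh : IntegrableOn h (Metric.ball c s))
    (hW : Wk (Metric.ball c s) f h) (h0 : ∀ᵐ z, ‖z - c‖ < s → f z = 0) :
    ∀ᵐ z, ‖z - c‖ < s → h z = 0 := by
  have h1 := Metric.isOpen_ball.ae_eq_zero_of_integral_contDiff_smul_eq_zero (U := Metric.ball c s)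
    (f := h) (μ := volume) hh.locallyIntegrableOn fun g hg hgc hgs => by
    have h2 := hW (fun z => (g z : ℂ)) (Complex.ofRealCLM.contDiff.comp hg)
      (hgc.comp_left Complex.ofReal_zero) ((closure_mono fun z hz => by
        rw [Function.mem_support] at hz ⊢
        exact fun h0 => hz (by rw [h0, Complex.ofReal_zero])).trans hgs)
    have h3 : ∫ z, f z * db (fun z => (g z : ℂ)) z = 0 := by
      refine integral_eq_zero_of_ae ?_
      filter_upwards [h0] with z hz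
      by_cases hzb : ‖z - c‖ < s
      · rw [hz hzb]
        simp
      · have h4 : z ∉ tsupport (fun z => (g z : ℂ)) := fun h5 => hzb (by
          have h6 : z ∈ tsupport g := (closure_mono fun z hz => by
            rw [Function.mem_support] at hz ⊢
            exact fun h0 => hz (by rw [h0, Complex.ofReal_zero])) h5
          have := hgs h6
          rwa [mem_ball_iff_norm] at this)
        rw [(off_t h4).2]
        simp
    rw [h3] at h2
    have h5 : ∫ z, g z • h z = ∫ z, h z * (g z : ℂ) := by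
      refine integral_congr_ae (Eventually.of_forall fun z => ?_)
      simp only [Complex.real_smul]
      ring
    rw [h5]
    exact (neg_eq_zero.1 h2.symm)
  filter_upwards [h1] with z hz hzs
  exact hz (by rwa [mem_ball_iff_norm])

end Pool.Agent.L5helper74.UC
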