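import Pool.Agent.L5helper74.UC.Tri1

/-!
# The quotient of two functions with proportional gradients
-/

set_option autoImplicit false
set_option linter.unusedSectionVars false
set_option synthInstance.maxHeartbeats 400000

open Set Filter Topology MeasureTheory
open scoped ContDiff ENNReal ComplexConjugate

noncomputable section

namespace Pool.Agent.L5helper74.UC

open Pool.Agent.Q73.NL (db)

/-- lower bounds of mollifications -/
lemma moll_low {φ : ℂ → ℝ} (h0 : ∀ z, 0 ≤ φ z) (h1 : ∫ t, φ t = 1) (hc : Continuous φ)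
    (hcs : HasCompactSupport φ) {r : ℝ} (hr : ∀ z, φ z ≠ 0 → ‖z‖ < r / 2) {V : ℂ → ℂ}
    (hV : MemLp V 2 volume) {c : ℂ} {c₀ : ℝ} (hlow : ∀ᵐ z, ‖z - c‖ < r → c₀ ≤ (V z).re) {z : ℂ}
    (hz : ‖z - c‖ < r / 2) : c₀ ≤ (∫ t, φ t • V (z - t)).re := by
  have hV' : MemLp (fun t => V (z - t)) 2 volume :=
    hV.comp_measurePreserving (Measure.measurePreserving_sub_left volume z)
  have hφ : MemLp (fun t => (φ t : ℂ)) 2 volume :=
    (hc.memLp_of_hasCompactSupport hcs (p := 2) (μ := volume)).ofReal
  have hi : Integrable (fun t => φ t • V (z - t)) volume := by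
    refine (hφ.integrable_mul hV').congr (Eventually.of_forall fun t => ?_)
    simp only [Pi.mul_apply, Complex.real_smul]
  have h2 : (∫ t, φ t • V (z - t)).re = ∫ t, φ t * (V (z - t)).re := by
    have h3 := Complex.reCLM.integral_comp_comm hi
    rw [Complex.reCLM_apply] at h3
    rw [← h3]
    refine integral_congr_ae (Eventually.of_forall fun t => ?_)
    simp only [Complex.reCLM_apply, Complex.real_smul, Complex.re_ofReal_mul]
  have hφi : Integrable φ volume := hc.integrable_of_hasCompactSupport hcs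
  have h3 : c₀ = ∫ t, φ t * c₀ := by rw [integral_mul_const, h1, one_mul]
  rw [h2]
  conv_lhs => rw [h3]
  refine integral_mono_ae (hφi.mul_const c₀) ?_ ?_
  · have := Complex.reCLM.integrable_comp hi
    refine this.congr (Eventually.of_forall fun t => ?_)
    simp only [Complex.reCLM_apply, Complex.real_smul, Complex.re_ofReal_mul]
  · have h4 : ∀ᵐ t, ‖(z - t) - c‖ < r → c₀ ≤ (V (z - t)).re :=
      (quasiMeasurePreserving_sub_left volume z).ae hlow
    filter_upwards [h4] with t ht
    by_cases h5 : φ t = 0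
    · rw [h5, zero_mul, zero_mul]
    · refine mul_le_mul_of_nonneg_left (ht ?_) (h0 t)
      have h6 := hr t h5
      calc ‖z - t - c‖ = ‖(z - c) - t‖ := by congr 1; ring
        _ ≤ ‖z - c‖ + ‖t‖ := norm_sub_le _ _
        _ < r := by linarith

/-- convergence in the mean of products -/
lemma pair_l1 {A : ℂ → ℂ} (hA : MemLp A 2 volume) {f : ℕ → ℂ → ℂ} {g : ℂ → ℂ}
    (hf : ∀ k, MemLp (f k) 2 volume) (hg : MemLp g 2 volume)
    (h : Tendsto (fun k => ∫⁻ z, ‖f k z - g z‖ₑ ^ 2) atTop (𝓝 0)) :
    Tendsto (fun k => ∫⁻ z, ‖A z * (f k z - g z)‖ₑ) atTop (𝓝 0) := by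
  have hb : ∀ k, ∫⁻ z, ‖A z * (f k z - g z)‖ₑ ≤ (∫⁻ z, ‖A z‖ₑ ^ 2) ^ (1 / (2 : ℝ)) *
      (∫⁻ z, ‖f k z - g z‖ₑ ^ 2) ^ (1 / (2 : ℝ)) := by
    intro k
    have h1 := ENNReal.lintegral_mul_le_Lp_mul_Lq volume Real.HolderConjugate.two_two
      (f := fun z => ‖A z‖ₑ) (g := fun z => ‖f k z - g z‖ₑ) hA.1.enorm
      ((hf k).1.sub hg.1).enorm
    simp only [ENNReal.rpow_ofNat] at h1
    refine le_trans (le_of_eq (lintegral_congr fun z => ?_)) h1
    rw [enorm_mul]
    rfl
  have hlim : Tendsto (fun k => (∫⁻ z, ‖A z‖ₑ ^ 2) ^ (1 / (2 : ℝ)) *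
      (∫⁻ z, ‖f k z - g z‖ₑ ^ 2) ^ (1 / (2 : ℝ))) atTop (𝓝 0) := by
    have h1 : Tendsto (fun k => (∫⁻ z, ‖f k z - g z‖ₑ ^ 2) ^ (1 / (2 : ℝ))) atTop (𝓝 0) := by
      have h2 := (ENNReal.continuous_rpow_const (y := 1 / (2 : ℝ))).tendsto (0 : ℝ≥0∞)
      rw [ENNReal.zero_rpow_of_pos (by norm_num)] at h2
      exact h2.comp h
    have h3 := ENNReal.Tendsto.const_mul (a := (∫⁻ z, ‖A z‖ₑ ^ 2) ^ (1 / (2 : ℝ))) h1 (Or.inr
      (ENNReal.rpow_ne_top_of_nonneg (by norm_num) (enorm_fin hA)))
    rwa [mul_zero] at h3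
  exact tendsto_of_tendsto_of_tendsto_of_le_of_le tendsto_const_nhds hlim
    (fun _ => zero_le) hb

lemma msd {X p : ℂ → ℂ} (hX : AEStronglyMeasurable X volume) (hp : Continuous p) :
    AEStronglyMeasurable (fun z => X z / p z) volume :=
  (hX.aemeasurable.div hp.measurable.aemeasurable).aestronglyMeasurable

theorem quot {c : ℂ} {r : ℝ} (hr : 0 < r) {U V F H : ℂ → ℂ}
    (hU : MemLp U 2 (volume.restrict (Metric.ball c (2 * r))))
    (hF : MemLp F 2 (volume.restrict (Metric.ball c (2 * r))))
    (hV : MemLp V 2 (volume.restrict (Metric.ball c (2 * r))))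
    (hH : MemLp H 2 (volume.restrict (Metric.ball c (2 * r))))
    (hW : Wk (Metric.ball c (2 * r)) U F) (hW' : Wk (Metric.ball c (2 * r)) V H) {c₀ : ℝ}
    (hc₀ : 0 < c₀) (h0 : ∀ᵐ z, ‖z - c‖ < 2 * r → c₀ ≤ (V z).re)
    (hrel : ∀ᵐ z, ‖z - c‖ < 2 * r → U z * H z = V z * F z) :
    Wk (Metric.ball c (r / 2)) (fun z => U z / V z) fun _ => 0 := by
  intro η hη hηc hηO
  obtain ⟨φ, Vt, Ht, p1, p2, p3, p4, p5, p6, p7, p8, p9, p10, p11, p12, p13, p14, p15⟩ :=
    moll hr hV hH hW'
  have hsub : Metric.ball c (r / 2) ⊆ Metric.ball c (2 * r) :=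
    Metric.ball_subset_ball (by linarith)
  have hOm : MeasurableSet (Metric.ball c (2 * r)) := measurableSet_ball
  have hη1 : ∀ z, η z ≠ 0 → z ∈ Metric.ball c (2 * r) := fun z hz =>
    hsub (hηO (subset_tsupport _ hz))
  have hη2 : ∀ z, db η z ≠ 0 → z ∈ Metric.ball c (2 * r) := fun z hz => hsub (hηO (by
    by_contra hn
    exact hz (off_t hn).2))
  have hη3 : ∀ z ∈ tsupport η, ‖z - c‖ < r / 2 := fun z hz => by
    have := hηO hz
    rwa [mem_ball_iff_norm] at this
  have a1 : MemLp (fun z => db η z * U z) 2 volume :=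
    mul_mem hOm hU (db_cont hη) (db_hcs hηc) hη2
  have a2 : MemLp (fun z => η z * F z) 2 volume := mul_mem hOm hF hη.continuous hηc hη1
  have a3 : MemLp (fun z => η z * U z) 2 volume := mul_mem hOm hU hη.continuous hηc hη1
  have hfin : IsFiniteMeasure (volume.restrict (Metric.ball c (2 * r))) :=
    ⟨by rw [Measure.restrict_apply_univ]; exact measure_ball_lt_top⟩
  have hint : ∀ {X k : ℂ → ℂ}, MemLp X 2 (volume.restrict (Metric.ball c (2 * r))) →
      Continuous k → HasCompactSupport k → (∀ z, k z ≠ 0 → z ∈ Metric.ball c (2 * r)) →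
      Integrable (fun z => k z * X z) volume := by
    intro X k hX hk hkc hkO
    have h1 : Integrable (X : ℂ → ℂ) (volume.restrict (Metric.ball c (2 * r))) :=
      hX.integrable one_le_two
    obtain ⟨C, hC⟩ := hk.bounded_above_of_compact_support hkc
    have h2 : Integrable (fun z => X z * k z) (volume.restrict (Metric.ball c (2 * r))) :=
      Integrable.mul_bdd (c := C) h1 hk.aestronglyMeasurable (Eventually.of_forall hC)
    have h3 : IntegrableOn (fun z => k z * X z) (Metric.ball c (2 * r)) := by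
      refine h2.congr (Eventually.of_forall fun z => ?_)
      simp only
      ring
    refine (integrableOn_iff_integrable_of_support_subset fun z hz => ?_).1 h3
    rw [Function.mem_support] at hz
    exact hkO z (left_ne_zero_of_mul hz)
  have b1 : Integrable (fun z => db η z * U z) volume :=
    hint hU (db_cont hη) (db_hcs hηc) hη2
  have b2 : Integrable (fun z => η z * F z) volume := hint hF hη.continuous hηc hη1
  have b3 : Integrable (fun z => η z * U z * Ht z) volume := a3.integrable_mul p7
  have hlow : ∀ᵐ z, ‖z - c‖ < r → c₀ ≤ (Vt z).re := by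
    filter_upwards [h0] with z hz hzr
    rw [(p8 z hzr).1]
    exact hz (by linarith)
  obtain ⟨v, hv⟩ : ∃ v : ℕ → ℂ → ℂ, v = fun k z => ∫ t, φ k t • Vt (z - t) := ⟨_, rfl⟩
  obtain ⟨w, hw⟩ : ∃ w : ℕ → ℂ → ℂ, w = fun k z => ∫ t, φ k t • Ht (z - t) := ⟨_, rfl⟩
  have hv' : ∀ k z, ∫ t, φ k t • Vt (z - t) = v k z := fun k z => by rw [hv]
  have hw' : ∀ k z, ∫ t, φ k t • Ht (z - t) = w k z := fun k z => by rw [hw]
  simp only [hv', hw'] at p9 p10 p11 p12 p13 p14 p15
  have hvc : ∀ k, ContDiff ℝ ∞ (v k) := fun k => p9 k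
  have hdv : ∀ k z, db (v k) z = w k z := fun k z => p10 k z
  have hvl : ∀ k, ∀ z ∈ tsupport η, c₀ ≤ ‖v k z‖ := by
    intro k z hz
    have h1 := moll_low (p1 k) (p2 k) (p3 k) (p4 k) (p5 k) p6 hlow (hη3 z hz)
    rw [hv'] at h1
    exact h1.trans ((le_abs_self _).trans (Complex.abs_re_le_norm _))
  have hvne : ∀ k, ∀ z ∈ tsupport η, v k z ≠ 0 := fun k z hz h1 => by
    have h2 := hvl k z hz
    rw [h1, norm_zero] at h2
    linarith
  have hVl : ∀ᵐ z, z ∈ tsupport η → c₀ ≤ ‖V z‖ := by
    filter_upwards [h0] with z hz hzt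
    have h1 := hη3 z hzt
    exact (hz (by linarith)).trans ((le_abs_self _).trans (Complex.abs_re_le_norm _))
  have hVt : ∀ z ∈ tsupport η, Vt z = V z ∧ Ht z = H z := fun z hz => p8 z (by
    have := hη3 z hz
    linarith)
  -- the equation
  have key : ∀ k, (∫ z, (db η z * U z + η z * F z) / v k z) -
      ∫ z, η z * U z * w k z / v k z ^ 2 = 0 := by
    intro k
    obtain ⟨q, hq⟩ : ∃ q : ℂ → ℂ, q = fun z => η z / v k z := ⟨_, rfl⟩
    have hqc : ContDiff ℝ ∞ q := by
      rw [contDiff_iff_contDiffAt]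
      intro z
      by_cases hz : z ∈ tsupport η
      · have h1 : q = fun z => η z * (v k z)⁻¹ := by
          rw [hq]
          funext z
          rw [div_eq_mul_inv]
        rw [h1]
        exact hη.contDiffAt.mul ((hvc k).contDiffAt.inv (hvne k z hz))
      · have h1 : q =ᶠ[𝓝 z] fun _ => 0 := by
          filter_upwards [(isClosed_tsupport η).isOpen_compl.mem_nhds hz] with y hy
          rw [hq]
          simp only [(off_t hy).1, zero_div]
        exact contDiffAt_const.congr_of_eventuallyEq h1
    have hqs : Function.support q ⊆ Function.support η := fun z hz => by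
      rw [Function.mem_support] at hz ⊢
      intro h1
      apply hz
      rw [hq]
      simp only [h1, zero_div]
    have hqt : tsupport q ⊆ tsupport η := closure_mono hqs
    have hqcs : HasCompactSupport q := hηc.mono hqs
    have h1 := hW q hqc hqcs (hqt.trans (hηO.trans hsub))
    have hprod : (fun z => q z * v k z) = η := by
      funext z
      rw [hq]
      by_cases hz : z ∈ tsupport η
      · exact div_mul_cancel₀ _ (hvne k z hz)
      · simp only [(off_t hz).1, zero_div, zero_mul]
    have hdq : ∀ z ∈ tsupport η, db q z = db η z / v k z - η z * w k z / v k z ^ 2 := by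
      intro z hz
      have h2 := db_mul (hqc.differentiable (by simp) z) ((hvc k).differentiable (by simp) z)
      rw [hprod, hdv] at h2
      have h3 : q z = η z / v k z := by rw [hq]
      rw [h2, h3]
      have := hvne k z hz
      field_simp
      ring
    have e1 : ∫ z, U z * db q z = ∫ z, (db η z * U z / v k z - η z * U z * w k z / v k z ^ 2) := by
      refine integral_congr_ae (Eventually.of_forall fun z => ?_)
      by_cases hz : z ∈ tsupport η
      · simp only [hdq z hz]
        ring
      · have h2 : z ∉ tsupport q := fun h => hz (hqt h)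
        simp only [(off_t h2).2, (off_t hz).1, (off_t hz).2]
        ring
    have bdd : ∀ {X : ℂ → ℂ}, Integrable X volume → (∀ z, z ∉ tsupport η → X z = 0) →
        ∀ n : ℕ, Integrable (fun z => X z / v k z ^ n) volume := by
      intro X hX hX0 n
      refine (hX.norm.mul_const ((c₀ ^ n)⁻¹)).mono' ?_ (Eventually.of_forall fun z => ?_)
      · exact msd hX.1 ((hvc k).continuous.pow n)
      · rw [norm_div, norm_pow]
        by_cases hz : z ∈ tsupport η
        · rw [div_eq_mul_inv]
          refine mul_le_mul_of_nonneg_left ?_ (norm_nonneg _)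
          exact inv_anti₀ (by positivity) (pow_le_pow_left₀ hc₀.le (hvl k z hz) n)
        · rw [hX0 z hz]
          simp
    have c1 := bdd b1 (fun z hz => by rw [(off_t hz).2, zero_mul]) 1
    have c2 := bdd b2 (fun z hz => by rw [(off_t hz).1, zero_mul]) 1
    have c3 := bdd (X := fun z => η z * U z * w k z) (a3.integrable_mul (p12 k))
      (fun z hz => by rw [(off_t hz).1, zero_mul, zero_mul]) 2
    simp only [pow_one] at c1 c2
    have e2 : ∫ z, F z * q z = ∫ z, η z * F z / v k z := by
      refine integral_congr_ae (Eventually.of_forall fun z => ?_)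
      rw [hq]
      simp only
      ring
    rw [e1, integral_sub c1 c3, e2] at h1
    have e3 : ∫ z, (db η z * U z + η z * F z) / v k z =
        (∫ z, db η z * U z / v k z) + ∫ z, η z * F z / v k z := by
      rw [← integral_add c1 c2]
      refine integral_congr_ae (Eventually.of_forall fun z => ?_)
      simp only
      ring
    rw [e3]
    linear_combination h1
  -- the limits
  have hlimv : ∀ᵐ z, z ∈ tsupport η → Tendsto (fun k => v k z) atTop (𝓝 (V z)) := by
    filter_upwards [p15] with z hz hzt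
    rw [← (hVt z hzt).1]
    exact hz
  have dct : ∀ {X : ℂ → ℂ}, Integrable X volume → (∀ z, z ∉ tsupport η → X z = 0) →
      ∀ n : ℕ, Tendsto (fun k => ∫ z, X z / v k z ^ n) atTop (𝓝 (∫ z, X z / V z ^ n)) := by
    intro X hX hX0 n
    refine tendsto_integral_of_dominated_convergence (fun z => ‖X z‖ * (c₀ ^ n)⁻¹)
      (fun k => msd hX.1 ((hvc k).continuous.pow n))
      (hX.norm.mul_const _) (fun k => Eventually.of_forall fun z => ?_) ?_
    · rw [norm_div, norm_pow]
      by_cases hz : z ∈ tsupport η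
      · rw [div_eq_mul_inv]
        refine mul_le_mul_of_nonneg_left ?_ (norm_nonneg _)
        exact inv_anti₀ (by positivity) (pow_le_pow_left₀ hc₀.le (hvl k z hz) n)
      · rw [hX0 z hz]
        simp
    · filter_upwards [hlimv, hVl] with z hz hz2
      by_cases hzt : z ∈ tsupport η
      · have h1 : V z ≠ 0 := fun h2 => by
          have h3 := hz2 hzt
          rw [h2, norm_zero] at h3
          linarith
        exact tendsto_const_nhds.div ((hz hzt).pow n) (pow_ne_zero n h1)
      · simp only [hX0 z hzt, zero_div]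
        exact tendsto_const_nhds
  have l1 := dct (b1.add b2) (fun z hz => by
    show db η z * U z + η z * F z = 0
    rw [(off_t hz).2, (off_t hz).1, zero_mul, zero_mul, add_zero]) 1
  have l2 := dct b3 (fun z hz => by rw [(off_t hz).1, zero_mul, zero_mul]) 2
  have l3 : Tendsto (fun k => ∫ z, η z * U z * (w k z - Ht z) / v k z ^ 2) atTop (𝓝 0) := by
    have h1 := pair_l1 a3 p12 p7 p14
    have h2 : Tendsto (fun k => ENNReal.ofReal ((c₀ ^ 2)⁻¹) *
        ∫⁻ z, ‖η z * U z * (w k z - Ht z)‖ₑ) atTop (𝓝 0) := by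
      have := ENNReal.Tendsto.const_mul (a := ENNReal.ofReal ((c₀ ^ 2)⁻¹)) h1
        (Or.inr ENNReal.ofReal_ne_top)
      rwa [mul_zero] at this
    rw [tendsto_zero_iff_norm_tendsto_zero]
    have h3 := (ENNReal.tendsto_toReal (ENNReal.zero_ne_top)).comp h2
    rw [ENNReal.toReal_zero] at h3
    refine squeeze_zero (fun _ => norm_nonneg _) (fun k => ?_) h3
    have h4 : ∫⁻ z, ‖η z * U z * (w k z - Ht z)‖ₑ ≠ ⊤ := by
      have h5 : Integrable (fun z => η z * U z * (w k z - Ht z)) volume :=
        a3.integrable_mul ((p12 k).sub p7)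
      exact h5.2.ne
    refine (norm_integral_le_lintegral_norm _).trans ?_
    refine ENNReal.toReal_mono (ENNReal.mul_ne_top ENNReal.ofReal_ne_top h4) ?_
    show _ ≤ ENNReal.ofReal ((c₀ ^ 2)⁻¹) * ∫⁻ z, ‖η z * U z * (w k z - Ht z)‖ₑ
    rw [← lintegral_const_mul' _ _ ENNReal.ofReal_ne_top]
    refine lintegral_mono fun z => ?_
    rw [ofReal_norm]
    by_cases hz : z ∈ tsupport η
    · rw [div_eq_mul_inv, enorm_mul, mul_comm]
      refine mul_le_mul_left ?_ _
      rw [← ofReal_norm]
      refine ENNReal.ofReal_le_ofReal ?_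
      rw [norm_inv, norm_pow]
      exact inv_anti₀ (by positivity) (pow_le_pow_left₀ hc₀.le (hvl k z hz) 2)
    · rw [(off_t hz).1]
      simp
  have l4 : Tendsto (fun k => ∫ z, η z * U z * w k z / v k z ^ 2) atTop
      (𝓝 (∫ z, η z * U z * Ht z / V z ^ 2)) := by
    have h1 := l2.add l3
    rw [add_zero] at h1
    refine h1.congr fun k => ?_
    have c3 : ∀ {X : ℂ → ℂ}, Integrable X volume → (∀ z, z ∉ tsupport η → X z = 0) →
        Integrable (fun z => X z / v k z ^ 2) volume := by
      intro X hX hX0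
      refine (hX.norm.mul_const ((c₀ ^ 2)⁻¹)).mono' ?_ (Eventually.of_forall fun z => ?_)
      · exact msd hX.1 ((hvc k).continuous.pow 2)
      · rw [norm_div, norm_pow]
        by_cases hz : z ∈ tsupport η
        · rw [div_eq_mul_inv]
          refine mul_le_mul_of_nonneg_left ?_ (norm_nonneg _)
          exact inv_anti₀ (by positivity) (pow_le_pow_left₀ hc₀.le (hvl k z hz) 2)
        · rw [hX0 z hz]
          simp
    have d1 := c3 b3 (fun z hz => by rw [(off_t hz).1, zero_mul, zero_mul])
    have d2 := c3 (X := fun z => η z * U z * (w k z - Ht z))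
      (a3.integrable_mul ((p12 k).sub p7)) (fun z hz => by rw [(off_t hz).1, zero_mul, zero_mul])
    rw [← integral_add d1 d2]
    refine integral_congr_ae (Eventually.of_forall fun z => ?_)
    simp only
    ring
  have l5 := l1.sub l4
  have l6 : Tendsto (fun _ : ℕ => (0 : ℂ)) atTop (𝓝
      ((∫ z, (db η z * U z + η z * F z) / V z ^ 1) - ∫ z, η z * U z * Ht z / V z ^ 2)) := by
    refine l5.congr fun k => ?_
    rw [← key k]
    simp only [pow_one]
    rfl
  have h5 := tendsto_nhds_unique l6 tendsto_const_nhds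
  have e1 : ∫ z, U z / V z * db η z = (∫ z, (db η z * U z + η z * F z) / V z ^ 1) -
      ∫ z, η z * U z * Ht z / V z ^ 2 := by
    have bdd : ∀ {X : ℂ → ℂ}, Integrable X volume → (∀ z, z ∉ tsupport η → X z = 0) →
        ∀ n : ℕ, Integrable (fun z => X z / V z ^ n) volume := by
      intro X hX hX0 n
      have hlim : ∀ᵐ z, Tendsto (fun k => X z / v k z ^ n) atTop (𝓝 (X z / V z ^ n)) := by
        filter_upwards [hlimv, hVl] with z hz hz2
        by_cases hzt : z ∈ tsupport η
        · have h1 : V z ≠ 0 := fun h2 => by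
            have h3 := hz2 hzt
            rw [h2, norm_zero] at h3
            linarith
          exact tendsto_const_nhds.div ((hz hzt).pow n) (pow_ne_zero n h1)
        · simp only [hX0 z hzt, zero_div]
          exact tendsto_const_nhds
      refine (hX.norm.mul_const ((c₀ ^ n)⁻¹)).mono' ?_ ?_
      · exact aestronglyMeasurable_of_tendsto_ae atTop
          (fun k => msd hX.1 ((hvc k).continuous.pow n)) hlim
      · filter_upwards [hVl] with z hz2
        rw [norm_div, norm_pow]
        by_cases hz : z ∈ tsupport η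
        · rw [div_eq_mul_inv]
          refine mul_le_mul_of_nonneg_left ?_ (norm_nonneg _)
          exact inv_anti₀ (by positivity) (pow_le_pow_left₀ hc₀.le (hz2 hz) n)
        · rw [hX0 z hz]
          simp
    have c1 := bdd (b1.add b2) (fun z hz => by
      show db η z * U z + η z * F z = 0
      rw [(off_t hz).2, (off_t hz).1, zero_mul, zero_mul, add_zero]) 1
    have c2 := bdd b3 (fun z hz => by rw [(off_t hz).1, zero_mul, zero_mul]) 2
    have e2 := integral_sub c1 c2
    have e3 : (∫ z, (db η z * U z + η z * F z) / V z ^ 1) -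
        ∫ z, η z * U z * Ht z / V z ^ 2 = ∫ z, ((db η z * U z + η z * F z) / V z ^ 1 -
        η z * U z * Ht z / V z ^ 2) := e2.symm
    rw [e3]
    refine integral_congr_ae ?_
    filter_upwards [hrel, hVl] with z hz hz2
    by_cases hzt : z ∈ tsupport η
    · have h1 : V z ≠ 0 := fun h2 => by
        have h3 := hz2 hzt
        rw [h2, norm_zero] at h3
        linarith
      have h2 := hη3 z hzt
      have h3 := hz (by linarith)
      rw [(hVt z hzt).2]
      field_simp
      linear_combination (η z) * h3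
    · rw [(off_t hzt).1, (off_t hzt).2]
      ring
  rw [e1, h5]
  simp

end Pool.Agent.L5helper74.UC
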