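import Pool.Agent.L5helper74.UC.Tri2

/-!
# Continuity and the local system
-/

set_option autoImplicit false
set_option linter.unusedSectionVars false
set_option synthInstance.maxHeartbeats 400000

open Set Filter Topology MeasureTheory
open scoped ContDiff ENNReal ComplexConjugate
open Pool.Agent.Y262.QE Pool.Agent.Y264.QR Pool.Agent.Q233.GLV Pool.Agent.Q233

noncomputable section

namespace Pool.Agent.L5helper74.UC

open Pool.Agent.Q73.NL (db)

/-- continuity of the functions -/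
theorem hold2 {c : ℂ} {r : ℝ} (hr : 0 < r) {U : ℂ → ℝ} {F₂ G₂ : ℂ → ℂ}
    (hU : MemLp (fun z => (U z : ℂ)) 2 (volume.restrict (Metric.ball c (2 * r))))
    (hF₂ : MemLp F₂ 2 (volume.restrict (Metric.ball c (2 * r))))
    (hG₂ : MemLp G₂ 2 (volume.restrict (Metric.ball c (2 * r))))
    (hW₁ : Wk (Metric.ball c (2 * r)) (fun z => (U z : ℂ)) (fun z => conj (F₂ z)))
    (hW₂ : Wk (Metric.ball c (2 * r)) F₂ G₂) :
    ∃ (E : Set ℂ) (C : ℝ), 0 ≤ C ∧ (∀ᵐ z, z ∈ E) ∧ ∀ z ∈ E, ‖z - c‖ < r → ∀ z' ∈ E,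
      ‖z' - c‖ < r → (U z - U z') ^ 2 ≤ C * ‖z - z'‖ := by
  obtain ⟨O, hO⟩ : ∃ O : Set ℂ, O = Metric.ball c (2 * r) := ⟨_, rfl⟩
  rw [← hO] at hU hF₂ hG₂ hW₁ hW₂
  have hOm : MeasurableSet O := by rw [hO]; exact measurableSet_ball
  have hfin : IsFiniteMeasure (volume.restrict O) := by
    rw [hO]
    exact ⟨by rw [Measure.restrict_apply_univ]; exact measure_ball_lt_top⟩
  -- the cutoff
  obtain ⟨χ, hχ1, hχ2, hχ3⟩ : ∃ χ : ℂ → ℝ, ContDiff ℝ ∞ χ ∧ (∀ z, ‖z - c‖ ≤ r → χ z = 1) ∧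
      ∀ z, χ z ≠ 0 → ‖z - c‖ ≤ 3 / 2 * r := by
    obtain ⟨b, hb1, hb2⟩ : ∃ b : ContDiffBump c, b.rIn = r ∧ b.rOut = 3 / 2 * r :=
      ⟨⟨r, 3 / 2 * r, hr, by linarith⟩, rfl, rfl⟩
    refine ⟨b, b.contDiff, fun z hz => b.one_of_mem_closedBall ?_, fun z hz => ?_⟩
    · rwa [mem_closedBall_iff_norm, hb1]
    · have h1 : z ∈ Function.support b := hz
      rw [b.support_eq, mem_ball_iff_norm, hb2] at h1
      exact h1.le
  obtain ⟨m, hm⟩ : ∃ m : ℂ → ℂ, m = fun z => (χ z : ℂ) := ⟨_, rfl⟩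
  have hm1 : ContDiff ℝ ∞ m := by rw [hm]; exact Complex.ofRealCLM.contDiff.comp hχ1
  have hms : ∀ z, m z ≠ 0 → ‖z - c‖ ≤ 3 / 2 * r := fun z hz => hχ3 z (by
    intro h0
    rw [hm] at hz
    simp only [h0, Complex.ofReal_zero, ne_eq, not_true_eq_false] at hz)
  have hmc := hcs hms
  have htO : tsupport m ⊆ O := (tsup hms).trans (by
    rw [hO]
    exact Metric.closedBall_subset_ball (by linarith))
  obtain ⟨d, hd⟩ : ∃ d : ℂ → ℂ, d = fun z => conj (db m z) := ⟨_, rfl⟩
  have hdm : ContDiff ℝ ∞ (db m) := by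
    unfold Pool.Agent.Q73.NL.db
    have h1 : ContDiff ℝ ∞ (fderiv ℝ m) := hm1.fderiv_right (by norm_cast)
    exact ((h1.clm_apply contDiff_const).add
      (contDiff_const.mul (h1.clm_apply contDiff_const))).div_const 2
  have hd1 : ContDiff ℝ ∞ d := by
    rw [hd]
    exact Complex.conjCLE.contDiff.comp hdm
  have hdb0 : ∀ z, db m z ≠ 0 → z ∈ tsupport m := fun z hz => by
    by_contra hn
    apply hz
    have h1 : fderiv ℝ m z = 0 := by
      by_contra hne
      exact hn (support_fderiv_subset ℝ hne)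
    unfold Pool.Agent.Q73.NL.db
    rw [h1]
    simp
  have hds : ∀ z, d z ≠ 0 → ‖z - c‖ ≤ 3 / 2 * r := fun z hz => by
    have h1 : db m z ≠ 0 := by
      intro h0
      rw [hd] at hz
      simp only [h0, map_zero, ne_eq, not_true_eq_false] at hz
    have := tsup hms (hdb0 z h1)
    rwa [mem_closedBall_iff_norm] at this
  have hdc := hcs hds
  have htdO : tsupport d ⊆ O := (tsup hds).trans (by
    rw [hO]
    exact Metric.closedBall_subset_ball (by linarith))
  have hsO : ∀ {k : ℂ → ℂ}, tsupport k ⊆ O → ∀ z, k z ≠ 0 → z ∈ O := fun hk z hz =>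
    hk (subset_tsupport _ hz)
  have hon : ∀ {F k : ℂ → ℂ}, MemLp F 2 (volume.restrict O) → tsupport k ⊆ O →
      IntegrableOn F (tsupport k) := fun hF hk =>
    (hF.integrable one_le_two).mono_measure (Measure.restrict_mono hk le_rfl)
  have hcF : MemLp (fun z => conj (F₂ z)) 2 (volume.restrict O) := by
    refine hF₂.of_le (Complex.continuous_conj.comp_aestronglyMeasurable hF₂.1)
      (Eventually.of_forall fun z => ?_)
    rw [RCLike.norm_conj]
  have hmO := hsO htO
  have hdO := hsO htdO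
  have hddO : ∀ z, db d z ≠ 0 → z ∈ O := fun z hz => htdO (by
    by_contra hn
    apply hz
    have h1 : fderiv ℝ d z = 0 := by
      by_contra hne
      exact hn (support_fderiv_subset ℝ hne)
    unfold Pool.Agent.Q73.NL.db
    rw [h1]
    simp)
  -- the localized functions
  obtain ⟨V, hV⟩ : ∃ V : ℂ → ℝ, V = fun z => χ z * U z := ⟨_, rfl⟩
  have hVm : (fun z => (V z : ℂ)) = fun z => m z * (U z : ℂ) := by
    funext z
    rw [hV, hm]
    push_cast
    rfl
  obtain ⟨F, hF⟩ : ∃ F : ℂ → ℂ, F = fun z => m z * F₂ z + d z * (U z : ℂ) := ⟨_, rfl⟩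
  obtain ⟨G, hG⟩ : ∃ G : ℂ → ℂ, G = fun z => (m z * G₂ z + db m z * F₂ z) +
    (d z * conj (F₂ z) + db d z * (U z : ℂ)) := ⟨_, rfl⟩
  have hWV : Wk univ (fun z => (V z : ℂ)) (fun z => conj (F z)) := by
    have h1 := Wk_mul hW₁ hm1 hmc htO (hon hU htO) (hon hcF htO)
    rw [← hVm] at h1
    have h2 : (fun z => conj (F z)) = fun z => m z * conj (F₂ z) + db m z * (U z : ℂ) := by
      funext z
      rw [hF, hd, hm]
      simp only [map_add, map_mul, Complex.conj_ofReal, Complex.conj_conj]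
    rw [h2]
    exact h1
  have p1 : MemLp (fun z => m z * F₂ z) 2 volume := mul_mem hOm hF₂ hm1.continuous hmc hmO
  have p2 : MemLp (fun z => d z * (U z : ℂ)) 2 volume := mul_mem hOm hU hd1.continuous hdc hdO
  have p3 : MemLp (fun z => m z * G₂ z + db m z * F₂ z) 2 volume :=
    (mul_mem hOm hG₂ hm1.continuous hmc hmO).add
      (mul_mem hOm hF₂ (db_cont hm1) (db_hcs hmc) fun z hz => htO (hdb0 z hz))
  have p4 : MemLp (fun z => d z * conj (F₂ z) + db d z * (U z : ℂ)) 2 volume :=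
    (mul_mem hOm hcF hd1.continuous hdc hdO).add
      (mul_mem hOm hU (db_cont hd1) (db_hcs hdc) hddO)
  have hl : ∀ {K : ℂ → ℂ}, MemLp K 2 volume → LocallyIntegrable K volume := fun hK =>
    hK.locallyIntegrable (by norm_num)
  have hWF : Wk univ F G := by
    rw [hF, hG]
    exact Wk_add (hl p1) (hl p2) (hl p3) (hl p4)
      (Wk_mul hW₂ hm1 hmc htO (hon hF₂ htO) (hon hG₂ htO))
      (Wk_mul hW₁ hd1 hdc htdO (hon hU htdO) (hon hcF htdO))
  have hFm : MemLp F 2 volume := by rw [hF]; exact p1.add p2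
  have hGm : MemLp G 2 volume := by rw [hG]; exact p3.add p4
  have hVL : MemLp (fun z => (V z : ℂ)) 2 volume := by
    rw [hVm]
    exact mul_mem hOm hU hm1.continuous hmc hmO
  have hFs : ∀ z, F z ≠ 0 → ‖z - c‖ ≤ 3 / 2 * r := by
    intro z hz
    by_contra hn
    apply hz
    have h1 : m z = 0 := by
      by_contra hne
      exact hn (hms z hne)
    have h2 : d z = 0 := by
      by_contra hne
      exact hn (hds z hne)
    rw [hF]
    simp only [h1, h2, zero_mul, add_zero]
  have hVs : ∀ z, (V z : ℂ) ≠ 0 → ‖z - c‖ ≤ 3 / 2 * r := by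
    intro z hz
    refine hms z ?_
    have := congrFun hVm z
    rw [this] at hz
    exact left_ne_zero_of_mul hz
  -- mollification
  obtain ⟨φ, h1, h2, h3, h4, h5, h6⟩ := mollifier hr
  obtain ⟨N, hN⟩ : ∃ N : ℝ, N = (∫⁻ z, ‖G z‖ₑ ^ 2).toReal := ⟨_, rfl⟩
  have hNt : ∫⁻ z, ‖G z‖ₑ ^ 2 = ENNReal.ofReal N := by
    rw [hN, ENNReal.ofReal_toReal]
    have h7 := hGm.2
    rw [eLpNorm_lt_top_iff_lintegral_rpow_enorm_lt_top (by norm_num) (by norm_num)] at h7
    simpa using h7.ne
  have hN0 : 0 ≤ N := by rw [hN]; exact ENNReal.toReal_nonneg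
  have key : ∀ k z z', ‖(∫ t, φ k t • ((V (z - t) : ℝ) : ℂ)) - ∫ t, φ k t • ((V (z' - t) : ℝ) : ℂ)‖ ^ 2 ≤
        128 * r * ‖z - z'‖ * N := by
    intro k z z'
    obtain ⟨u, hu⟩ : ∃ u : ℂ → ℝ, u = fun z => ∫ t, φ k t * V (z - t) := ⟨_, rfl⟩
    have hW : (fun z => ∫ t, φ k t • ((V (z - t) : ℝ) : ℂ)) = fun z => (u z : ℂ) := by
      funext z
      rw [hu]
      simp only
      rw [← integral_complex_ofReal]
      refine integral_congr_ae (Eventually.of_forall fun t => ?_)
      simp only [Complex.real_smul]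
      push_cast
      rfl
    obtain ⟨q1, q2⟩ := cv_db (h1 k) (h2 k) (hl hVL)
    rw [hW] at q1 q2
    have q3 := q2 _ hWV
    obtain ⟨v, hv⟩ : ∃ v : ℂ → ℂ, v = fun z => ∫ t, φ k t • F (z - t) := ⟨_, rfl⟩
    obtain ⟨q4, q5⟩ := cv_db (h1 k) (h2 k) (hl hFm)
    rw [← hv] at q4 q5
    have hu1 : ContDiff ℝ ∞ u := by
      have h7 : u = fun z => ((u z : ℂ)).re := by
        funext z
        rw [Complex.ofReal_re]
      rw [h7]
      exact Complex.reCLM.contDiff.comp q1
    have q6 : ∀ z, db (fun z => (u z : ℂ)) z = conj (v z) := by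
      intro z
      rw [q3 z, hv]
      simp only
      rw [← integral_conj]
      refine integral_congr_ae (Eventually.of_forall fun t => ?_)
      simp only [Complex.real_smul, map_mul, Complex.conj_ofReal]
    have q7 : ∀ z w, fderiv ℝ (fun z => (u z : ℂ)) z w = ((fderiv ℝ u z w : ℝ) : ℂ) := by
      intro z w
      have h7 : HasFDerivAt (fun z => (u z : ℂ)) (Complex.ofRealCLM.comp (fderiv ℝ u z)) z :=
        Complex.ofRealCLM.hasFDerivAt.comp z ((hu1.differentiable (by simp)) z).hasFDerivAt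
      rw [h7.fderiv]
      rfl
    have q8 : ∀ z, fderiv ℝ u z 1 = 2 * (v z).re ∧ fderiv ℝ u z Complex.I = -2 * (v z).im := by
      intro z
      have h7 := q6 z
      unfold Pool.Agent.Q73.NL.db at h7
      rw [q7, q7] at h7
      have h8 := congrArg Complex.re h7
      have h9 := congrArg Complex.im h7
      simp only [Complex.div_ofNat_re, Complex.add_re, Complex.ofReal_re, Complex.mul_re,
        Complex.I_re, Complex.I_im, Complex.ofReal_im, Complex.conj_re, Complex.conj_im,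
        Complex.div_ofNat_im, Complex.add_im, Complex.mul_im] at h8 h9
      constructor <;> linarith
    have hus : ∀ z, u z ≠ 0 → ‖z - c‖ ≤ 2 * r := by
      intro z hz
      have h7 : (∫ t, φ k t • ((V (z - t) : ℝ) : ℂ)) ≠ 0 := by
        have := congrFun hW z
        rw [this]
        exact_mod_cast hz
      have h8 := cv_supp (h5 k) hVs z h7
      linarith
    have hvs : ∀ z, v z ≠ 0 → ‖z - c‖ ≤ 2 * r := by
      intro z hz
      rw [hv] at hz
      have h8 := cv_supp (h5 k) hFs z hz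
      linarith
    have h7 := hol hu1 q4 (hcs hvs) (by positivity) hus (fun z => (q8 z).1) (fun z => (q8 z).2) z z'
    have h8 : ∫⁻ z, ‖db v z‖ₑ ^ 2 ≤ ENNReal.ofReal N := by
      simp only [q5 G hWF]
      rw [← hNt]
      exact young (h1 k).continuous (h3 k) (h4 k) hGm.1
    have h9 := h7.trans (mul_le_mul_right h8 _)
    rw [← ofReal_norm, ← ENNReal.ofReal_pow (norm_nonneg _), ← ENNReal.ofReal_mul (by positivity),
      ENNReal.ofReal_le_ofReal_iff (by positivity)] at h9
    have h10 := congrFun hW z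
    have h11 := congrFun hW z'
    rw [h10, h11, ← Complex.ofReal_sub, Complex.norm_real]
    refine h9.trans (le_of_eq ?_)
    ring
  refine ⟨{z | Tendsto (fun k => ∫ t, φ k t • ((V (z - t) : ℝ) : ℂ)) atTop (𝓝 (V z : ℂ))},
    128 * r * N, by positivity, h6 _ (hl hVL), fun z hz hzr z' hz' hzr' => ?_⟩
  have hz2 : Tendsto (fun k => ∫ t, φ k t • ((V (z - t) : ℝ) : ℂ)) atTop (𝓝 (V z : ℂ)) := hz
  have hz2' : Tendsto (fun k => ∫ t, φ k t • ((V (z' - t) : ℝ) : ℂ)) atTop (𝓝 (V z' : ℂ)) := hz'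
  have h7 := ((hz2.sub hz2').norm.pow 2)
  have h8 := le_of_tendsto' h7 fun k => key k z z'
  rw [← Complex.ofReal_sub, Complex.norm_real, Real.norm_eq_abs, sq_abs] at h8
  have hVz : ∀ y, ‖y - c‖ < r → V y = U y := fun y hy => by
    rw [hV]
    simp only [hχ2 y hy.le, one_mul]
  rw [hVz z hzr, hVz z' hzr'] at h8
  refine h8.trans (le_of_eq ?_)
  ring

variable {M : Type} [MetricSpace M] [CompactSpace M] [MeasurableSpace M] [BorelSpace M]
  {μ : Measure M} [IsFiniteMeasure μ] {D : Data M}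

/-- the local system of an eigenfunction, with the precise form of the zeroth order term -/
theorem loc2 (hD : D.IsSurf μ) {l : Fin D.N}
    (hc : ∀ z ∈ D.T l, ∃ c : ℝ, ∀ v, ‖D.A l z v‖ = c * ‖v‖) {c : ℂ} {R : ℝ}
    (hs : Metric.closedBall c R ⊆ D.T l) {i : HF D μ →L[ℝ] Lp ℝ 2 μ}
    {a : HF D μ →L[ℝ] HF D μ →L[ℝ] ℝ}
    {b : C(M, ℝ) → HF D μ →L[ℝ] HF D μ →L[ℝ] ℝ} (hi : ∀ v, i v = v.1.fst)
    (ha : ∀ u v, a u v = inner ℝ u.1.snd v.1.snd) (hB : IsB μ i b) {φ : C(M, ℝ)} {v : HF D μ}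
    {lam : ℝ} (hv : ∀ w, a v w = lam * b φ v w) :
    ∃ (F₂ G₂ : ℂ → ℂ) (K : ℝ), Sys (fun z => (i v : M → ℝ) (D.ψ l z)) F₂ G₂ c R K ∧
      ∀ z, G₂ z = ((-(lam / 4) * (Real.exp (φ (D.ψ l z)) * |(D.A l z).det|) *
        (i v : M → ℝ) (D.ψ l z) : ℝ) : ℂ) := by
  obtain ⟨K, hKe⟩ : ∃ K : Set ℂ, K = Metric.closedBall c R := ⟨_, rfl⟩
  have hK : IsCompact K := by rw [hKe]; exact isCompact_closedBall _ _
  have hKm : MeasurableSet K := hK.isClosed.measurableSet
  rw [← hKe] at hs
  obtain ⟨hU, P, hP, hsys⟩ := chart hD hc hK hs hi ha hB hv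
  obtain ⟨U, hUe⟩ : ∃ U : ℂ → ℝ, U = fun z => (i v : M → ℝ) (D.ψ l z) := ⟨_, rfl⟩
  have hUe' : ∀ z, (i v : M → ℝ) (D.ψ l z) = U z := fun z => by rw [hUe]
  simp only [hUe'] at hU hsys ⊢
  have hbK : Metric.ball c R ⊆ K := by rw [hKe]; exact Metric.ball_subset_closedBall
  have hmono : volume.restrict (Metric.ball c R) ≤ volume.restrict K :=
    Measure.restrict_mono hbK le_rfl
  have hUc : MemLp (fun z => (U z : ℂ)) 2 (volume.restrict K) := hU.ofReal
  -- the density
  obtain ⟨ρ, hρ⟩ : ∃ ρ : ℂ → ℝ, ρ = fun z => Real.exp (φ (D.ψ l z)) * |(D.A l z).det| := ⟨_, rfl⟩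
  have hρc : ContinuousOn ρ (D.T l) := by
    rw [hρ]
    exact (Real.continuous_exp.comp_continuousOn
      (φ.continuous.comp_continuousOn (hD.contψ l))).mul (Pool.Agent.Y960.QE.contDet hD l)
  obtain ⟨B, hB'⟩ := hK.exists_bound_of_continuousOn (hρc.mono hs)
  obtain ⟨G, hG⟩ : ∃ G : ℂ → ℂ, G = fun z => ((-(lam / 4) * ρ z * U z : ℝ) : ℂ) := ⟨_, rfl⟩
  have hρm : AEStronglyMeasurable ρ (volume.restrict K) :=
    (hρc.mono hs).aestronglyMeasurable hKm
  have hGb : ∀ z ∈ K, ‖G z‖ ≤ |lam| / 4 * B * |U z| := by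
    intro z hz
    rw [hG]
    simp only
    rw [Complex.norm_real, Real.norm_eq_abs, abs_mul, abs_mul, abs_neg, abs_div]
    have h1 := hB' z hz
    rw [Real.norm_eq_abs] at h1
    have h4 : |(4 : ℝ)| = 4 := by norm_num
    rw [h4]
    gcongr
  have hGm : MemLp G 2 (volume.restrict K) := by
    refine hUc.of_le_mul (c := |lam| / 4 * B) ?_ ?_
    · rw [hG]
      exact Complex.continuous_ofReal.comp_aestronglyMeasurable
        ((aestronglyMeasurable_const.mul hρm).mul hU.1)
    · filter_upwards [ae_restrict_mem hKm] with z hz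
      rw [Complex.norm_real]
      exact hGb z hz
  obtain ⟨F, hF⟩ : ∃ F : ℂ → ℂ, F = fun z => conj (P z) / 2 := ⟨_, rfl⟩
  have hFm : MemLp F 2 (volume.restrict K) := by
    rw [hF]
    refine hP.of_le_mul (c := 1) ?_ (Eventually.of_forall fun z => ?_)
    · have h1 : Continuous fun w : ℂ => conj w / 2 := by fun_prop
      exact h1.comp_aestronglyMeasurable hP.1
    · rw [norm_div, RCLike.norm_conj, one_mul, Complex.norm_ofNat]
      have := norm_nonneg (P z)
      linarith
  have hFc : (fun z => conj (F z)) = fun z => P z / 2 := by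
    funext z
    rw [hF]
    simp only [map_div₀, Complex.conj_conj, map_ofNat]
  -- integrability
  have hint : ∀ {X : ℂ → ℂ}, MemLp X 2 (volume.restrict K) → ∀ k : ℂ → ℂ, Continuous k →
      HasCompactSupport k → tsupport k ⊆ Metric.ball c R → Integrable fun z => X z * k z := by
    intro X hX k hk hkc hkO
    have hfin : IsFiniteMeasure (volume.restrict K) :=
      ⟨by rw [Measure.restrict_apply_univ]; exact hK.measure_lt_top⟩
    obtain ⟨C, hC⟩ := hk.bounded_above_of_compact_support hkc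
    have h1 : Integrable (fun z => X z * k z) (volume.restrict K) :=
      Integrable.mul_bdd (c := C) (hX.integrable one_le_two) hk.aestronglyMeasurable
        (Eventually.of_forall hC)
    refine (integrableOn_iff_integrable_of_support_subset fun z hz => ?_).1 h1
    rw [Function.mem_support] at hz
    refine hbK (hkO (subset_tsupport k ?_))
    rw [Function.mem_support]
    exact right_ne_zero_of_mul hz
  have hreal : ∀ {X : ℂ → ℝ}, IntegrableOn X K → ∀ k : ℂ → ℝ, Continuous k →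
      IntegrableOn (fun z => X z * k z) K := by
    intro X hX k hk
    obtain ⟨C, hC⟩ := hK.exists_bound_of_continuousOn hk.continuousOn
    refine Integrable.mul_bdd (c := C) hX hk.aestronglyMeasurable ?_
    filter_upwards [ae_restrict_mem hKm] with z hz
    exact hC z hz
  have hfin : IsFiniteMeasure (volume.restrict K) :=
    ⟨by rw [Measure.restrict_apply_univ]; exact hK.measure_lt_top⟩
  have hPi := hP.integrable one_le_two
  have hUi : IntegrableOn U K := hU.integrable one_le_two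
  have hPr : IntegrableOn (fun z => (P z).re) K := hPi.re
  have hPm : IntegrableOn (fun z => (P z).im) K := hPi.im
  refine ⟨F, G, |lam| / 4 * B, ⟨hUc.mono_measure hmono, hFm.mono_measure hmono,
    hGm.mono_measure hmono, ?_, ?_, fun z hz => hGb z (hbK (by rwa [mem_ball_iff_norm]))⟩,
    fun z => by rw [hG, hρ]⟩
  · rw [hFc]
    refine Wk_real (hint hUc) (fun k hk hkc hkO => ?_) fun η hη hηc hηO => ?_
    · have h1 := (hint hP k hk hkc hkO).div_const 2
      refine h1.congr (Eventually.of_forall fun z => ?_)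
      ring
    · have hη0 : ∀ z, z ∉ K → η z = 0 := fun z hz =>
        image_eq_zero_of_notMem_tsupport fun h => hz (hbK (hηO h))
      obtain ⟨h1, h2, -⟩ := hsys η hη hη0
      have hd0 : ∀ v : ℂ, ∀ z, z ∉ K → fderiv ℝ η z v = 0 := fun v z hz => by
        rw [off_fderiv hK.isClosed hη0 hz]
        simp
      have hηd : ∀ v : ℂ, Continuous fun z => fderiv ℝ η z v := fun v =>
        (hη.continuous_fderiv (by simp)).clm_apply continuous_const
      have e1 : ∫ z, (U z : ℂ) * db (fun z => (η z : ℂ)) z =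
          (((∫ z in K, U z * fderiv ℝ η z 1 : ℝ) : ℂ) +
            Complex.I * ((∫ z in K, U z * fderiv ℝ η z Complex.I : ℝ) : ℂ)) / 2 := by
        rw [← setIntegral_eq_integral_of_forall_compl_eq_zero (s := K) (fun z hz => by
          rw [db_real hη, hd0 1 z hz, hd0 Complex.I z hz]
          simp), ← integral_complex_ofReal, ← integral_complex_ofReal, ← integral_const_mul,
          ← integral_add (hreal hUi _ (hηd 1)).ofReal
            ((hreal hUi _ (hηd Complex.I)).ofReal.const_mul _), ← integral_div]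
        refine integral_congr_ae (Eventually.of_forall fun z => ?_)
        simp only [db_real hη]
        push_cast
        ring
      have e2 : ∫ z, P z / 2 * (η z : ℂ) =
          (((∫ z in K, (P z).re * η z : ℝ) : ℂ) +
            Complex.I * ((∫ z in K, (P z).im * η z : ℝ) : ℂ)) / 2 := by
        rw [← setIntegral_eq_integral_of_forall_compl_eq_zero (s := K) (fun z hz => by
          rw [hη0 z hz]
          simp), ← integral_complex_ofReal, ← integral_complex_ofReal, ← integral_const_mul,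
          ← integral_add (hreal hPr _ hη.continuous).ofReal
            ((hreal hPm _ hη.continuous).ofReal.const_mul _), ← integral_div]
        refine integral_congr_ae (Eventually.of_forall fun z => ?_)
        simp only
        push_cast
        conv_lhs => rw [← Complex.re_add_im (P z)]
        ring
      rw [e1, e2, h1, h2]
      push_cast
      ring
  · refine Wk_real (hint hFm) (hint hGm) fun η hη hηc hηO => ?_
    have hη0 : ∀ z, z ∉ K → η z = 0 := fun z hz =>
      image_eq_zero_of_notMem_tsupport fun h => hz (hbK (hηO h))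
    have hd0 : ∀ v : ℂ, ∀ z, z ∉ K → fderiv ℝ η z v = 0 := fun v z hz => by
      rw [off_fderiv hK.isClosed hη0 hz]
      simp
    have hηs : ∀ v : ℂ, ContDiff ℝ ∞ fun z => fderiv ℝ η z v := fun v => dir_smooth hη v
    have hηd : ∀ v : ℂ, Continuous fun z => fderiv ℝ η z v := fun v => (hηs v).continuous
    obtain ⟨-, -, h3⟩ := hsys η hη hη0
    obtain ⟨h4, -, -⟩ := hsys _ (hηs Complex.I) (hd0 Complex.I)
    obtain ⟨-, h5, -⟩ := hsys _ (hηs 1) (hd0 1)
    have h6 : ∫ z in K, (P z).re * fderiv ℝ η z Complex.I =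
        ∫ z in K, (P z).im * fderiv ℝ η z 1 := by
      have h7 : ∫ z in K, U z * fderiv ℝ (fun z => fderiv ℝ η z Complex.I) z 1 =
          ∫ z in K, U z * fderiv ℝ (fun z => fderiv ℝ η z 1) z Complex.I := by
        refine integral_congr_ae (Eventually.of_forall fun z => ?_)
        simp only
        rw [Pool.Agent.Q73.NL.dd_symm hη z Complex.I 1]
      rw [h4, h5] at h7
      linarith
    have j1 := hreal hPr _ (hηd 1)
    have j2 := hreal hPm _ (hηd Complex.I)
    have j3 := hreal hPr _ (hηd Complex.I)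
    have j4 := hreal hPm _ (hηd 1)
    have e1 : ∫ z, F z * db (fun z => (η z : ℂ)) z =
        (((∫ z in K, ((P z).re * fderiv ℝ η z 1 + (P z).im * fderiv ℝ η z Complex.I) : ℝ) : ℂ) +
          Complex.I * ((∫ z in K, ((P z).re * fderiv ℝ η z Complex.I -
            (P z).im * fderiv ℝ η z 1) : ℝ) : ℂ)) / 4 := by
      rw [← setIntegral_eq_integral_of_forall_compl_eq_zero (s := K) (fun z hz => by
        rw [db_real hη, hd0 1 z hz, hd0 Complex.I z hz]
        simp), ← integral_complex_ofReal, ← integral_complex_ofReal, ← integral_const_mul,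
        ← integral_add (j1.add j2).ofReal ((j3.sub j4).ofReal.const_mul _), ← integral_div]
      refine integral_congr_ae (Eventually.of_forall fun z => ?_)
      simp only [db_real hη, hF]
      have h7 : conj (P z) = ((P z).re : ℂ) - ((P z).im : ℂ) * Complex.I := by
        apply Complex.ext <;> simp
      rw [h7]
      push_cast
      linear_combination (-((P z).im : ℂ) * ((fderiv ℝ η z Complex.I : ℝ) : ℂ) / 4) * Complex.I_sq
    have e2 : ∫ z, G z * (η z : ℂ) =
        ((-(lam / 4) * ∫ z in K, ρ z * (U z * η z) : ℝ) : ℂ) := by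
      rw [← setIntegral_eq_integral_of_forall_compl_eq_zero (s := K) (fun z hz => by
        rw [hη0 z hz]
        simp), ← integral_const_mul, ← integral_complex_ofReal]
      refine integral_congr_ae (Eventually.of_forall fun z => ?_)
      simp only [hG]
      push_cast
      ring
    have h8 : ∫ z in K, ((P z).re * fderiv ℝ η z Complex.I -
            (P z).im * fderiv ℝ η z 1) = 0 := by
      rw [integral_sub j3 j4, h6, sub_self]
    rw [e1, e2, h8, h3]
    have h9 : ∫ z in K, Real.exp (φ (D.ψ l z)) * |(D.A l z).det| * (U z * η z) =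
        ∫ z in K, ρ z * (U z * η z) := by rw [hρ]
    rw [h9]
    push_cast
    ring


/-- an eigenfunction which is not zero is bounded away from zero on a disc -/
theorem opn2 (hD : D.IsSurf μ)
    (hiso : ∀ l, ∀ z ∈ D.T l, ∃ c : ℝ, ∀ v, ‖D.A l z v‖ = c * ‖v‖) {i : HF D μ →L[ℝ] Lp ℝ 2 μ}
    {a : HF D μ →L[ℝ] HF D μ →L[ℝ] ℝ}
    {b : C(M, ℝ) → HF D μ →L[ℝ] HF D μ →L[ℝ] ℝ} (hi : ∀ v, i v = v.1.fst)
    (ha : ∀ u v, a u v = inner ℝ u.1.snd v.1.snd) (hB : IsB μ i b) {φ : C(M, ℝ)} {v : HF D μ}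
    {lam : ℝ} (hv : ∀ w, a v w = lam * b φ v w) (hne : ¬ (i v : M → ℝ) =ᵐ[μ] 0) :
    ∃ (l : Fin D.N) (c : ℂ) (s c₀ : ℝ), 0 < s ∧ 0 < c₀ ∧ Metric.closedBall c s ⊆ D.T l ∧
      ((∀ᵐ z, ‖z - c‖ < s → c₀ ≤ (i v : M → ℝ) (D.ψ l z)) ∨
        ∀ᵐ z, ‖z - c‖ < s → (i v : M → ℝ) (D.ψ l z) ≤ -c₀) := by
  obtain ⟨N, hN⟩ : ∃ N : Set M, N = {x | (i v : M → ℝ) x ≠ 0} := ⟨_, rfl⟩
  have hNm : MeasurableSet N := by
    rw [hN]
    exact (Lp.stronglyMeasurable (i v)).measurable (measurableSet_singleton 0).compl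
  have hNi : ∀ x, x ∉ N ↔ (i v : M → ℝ) x = 0 := fun x => by
    rw [hN]
    simp
  obtain ⟨x, hx⟩ : ∃ x : M, ∀ V : Set M, IsOpen V → x ∈ V → μ (V ∩ N) ≠ 0 := by
    by_contra hno
    push Not at hno
    apply hne
    have hnull : μ N = 0 := by
      refine measure_null_of_locally_null _ fun x _ => ?_
      obtain ⟨V, h1, h2, h3⟩ := hno x
      exact ⟨V ∩ N, inter_mem (mem_nhdsWithin_of_mem_nhds (h1.mem_nhds h2)) self_mem_nhdsWithin, h3⟩
    have h1 : ∀ᵐ x ∂μ, x ∉ N := measure_eq_zero_iff_ae_notMem.1 hnull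
    filter_upwards [h1] with x hx
    exact (hNi x).1 hx
  obtain ⟨l, R, hR, hxU, hRT⟩ := disc_in hD x
  obtain ⟨F₂, G₂, K, hS⟩ := loc hD (hiso l) hRT hi ha hB hv
  have hR2 : 2 * (R / 2) = R := by ring
  have hS' := hS
  rw [← hR2] at hS'
  obtain ⟨E, C, hC, hE, hE2⟩ := hold2 (by positivity) hS'.mU hS'.mF hS'.mG hS'.W₁ hS'.W₂
  have hbT : Metric.ball (D.φ l x) (R / 2) ⊆ D.T l :=
    (Metric.ball_subset_closedBall.trans (Metric.closedBall_subset_closedBall (by linarith))).trans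
      hRT
  have h1 : ¬ ∀ᵐ z, z ∈ Metric.ball (D.φ l x) (R / 2) → D.ψ l z ∉ N := by
    rw [tr hD Metric.isOpen_ball hbT hNm]
    intro h2
    refine hx _ (img_open hD Metric.isOpen_ball hbT)
      ⟨D.φ l x, Metric.mem_ball_self (by positivity), hD.left l x hxU⟩ ?_
    rw [ae_iff] at h2
    simp only [Classical.not_imp, not_not] at h2
    exact h2
  obtain ⟨z, hzE, hzb, hzN⟩ : ∃ z, z ∈ E ∧ z ∈ Metric.ball (D.φ l x) (R / 2) ∧ D.ψ l z ∈ N := by
    by_contra hno
    push Not at hno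
    exact h1 (hE.mono fun z hz hz2 => hno z hz hz2)
  obtain ⟨U, hU⟩ : ∃ U : ℂ → ℝ, U = fun z => (i v : M → ℝ) (D.ψ l z) := ⟨_, rfl⟩
  have hU' : ∀ z, (i v : M → ℝ) (D.ψ l z) = U z := fun z => by rw [hU]
  simp only [hU'] at hE2 ⊢
  have hUz : U z ≠ 0 := by
    rw [hN] at hzN
    rw [← hU']
    exact hzN
  obtain ⟨δ', hδ', hδ3⟩ := Metric.isOpen_iff.1 Metric.isOpen_ball z hzb
  obtain ⟨s, hs⟩ : ∃ s : ℝ, s = min ((U z) ^ 2 / (4 * (C + 1))) δ' / 2 := ⟨_, rfl⟩
  have hq0 : 0 < (U z) ^ 2 / (4 * (C + 1)) := by positivity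
  have hs0 : 0 < s := by rw [hs]; positivity
  have hs1 : s < (U z) ^ 2 / (4 * (C + 1)) := by
    have h2 := min_le_left ((U z) ^ 2 / (4 * (C + 1))) δ'
    rw [hs]
    linarith
  have hs2 : s < δ' := by
    have h2 := min_le_right ((U z) ^ 2 / (4 * (C + 1))) δ'
    rw [hs]
    linarith
  have hnear : ∀ᵐ z', ‖z' - z‖ < s → (U z - U z') ^ 2 ≤ (U z / 2) ^ 2 := by
    filter_upwards [hE] with z' hz' hzs
    have h2 : z' ∈ Metric.ball (D.φ l x) (R / 2) := hδ3 (by
      rw [mem_ball_iff_norm]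
      linarith)
    rw [mem_ball_iff_norm] at h2 hzb
    refine (hE2 z hzE hzb z' hz' h2).trans ?_
    rw [lt_div_iff₀ (by positivity)] at hs1
    rw [norm_sub_rev]
    have h3 : 0 ≤ ‖z' - z‖ := norm_nonneg _
    nlinarith
  refine ⟨l, z, s, |U z| / 2, hs0, by positivity, fun y hy => hbT (hδ3 ?_), ?_⟩
  · rw [mem_closedBall_iff_norm] at hy
    rw [mem_ball_iff_norm]
    linarith
  · rcases lt_or_gt_of_ne hUz with hneg | hpos
    · right
      filter_upwards [hnear] with z' hz' hzs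
      have h2 := hz' hzs
      have h3 := sq_le_sq.1 h2
      rw [abs_of_neg hneg]
      have h4 := (abs_le.1 (h3.trans (le_of_eq (abs_of_neg (show U z / 2 < 0 by linarith))))).1
      have h5 := hU' z'
      linarith
    · left
      filter_upwards [hnear] with z' hz' hzs
      have h2 := hz' hzs
      have h3 := sq_le_sq.1 h2
      rw [abs_of_pos hpos]
      have h4 := (abs_le.1 (h3.trans (le_of_eq (abs_of_pos (show 0 < U z / 2 by linarith))))).2
      have h5 := hU' z'
      linarith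

end Pool.Agent.L5helper74.UC
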